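import Pool.Agent.Helper79.SE.Per

/-!
# SE-11: Bezout relation over `K[t]`, multiples in `ℤ[u]`

* `exists_bezout`: `T₁ = resultant f f'` (`Polynomial.exists_mul_add_mul_eq_C_resultant`), its value at `s₀` is `resultant f(s₀, ·) f(s₀, ·)'` (`resultant_map_map`, `f` monic, characteristic `0`:
  the degrees are kept), which is nonzero because `f(s₀, ·)` and its derivative are coprime (`resultant_ne_zero`, `isUnit_resultant_iff_isCoprime`).
* `exists_int_mul`: `K` is algebraic over `ℚ`: `K[u]` is integral over `ℚ[u]`, so the nonzero ideal `(p)` meets `ℚ[u]` in a nonzero ideal; multiply by an integer. (Or: some power series / norm argument;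
  or `p ∣ ∏` of the minimal polynomials over `ℚ[u]`: `p` is integral over `ℚ[u]`, the constant term of a monic equation of minimal degree is a nonzero multiple of `p`.)
-/

open Polynomial Pool.Agent.Helper64.Per

namespace Pool.Agent.Helper79.SE

theorem exists_bezout {K : Type} [Field K] [CharZero K] {f : K[X][X]} (hf : f.Monic) {s₀ : K}
    (hs : (f.map (Polynomial.evalRingHom s₀)).Separable) :
    ∃ (α β : K[X][X]) (T₁ : K[X]), α * f + β * derivative f = C T₁ ∧ T₁.eval s₀ ≠ 0 := by
  by_cases h0 : f.natDegree = 0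
  · refine ⟨1, 0, 1, ?_, by simp⟩
    rw [eq_one_of_monic_natDegree_zero hf h0]
    simp
  obtain ⟨p, q, -, -, hpq⟩ := exists_mul_add_mul_eq_C_resultant f (derivative f) le_rfl le_rfl
    (Or.inl h0)
  refine ⟨p, q, resultant f (derivative f), by rw [← hpq]; ring, ?_⟩
  have hm : (f.map (Polynomial.evalRingHom s₀)).natDegree = f.natDegree := hf.natDegree_map _
  have hd : (derivative (f.map (Polynomial.evalRingHom s₀))).natDegree =
      (derivative f).natDegree := by
    have h1 := degree_derivative_eq f (Nat.pos_of_ne_zero h0)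
    have h2 := degree_derivative_eq (f.map (Polynomial.evalRingHom s₀))
      (by rw [hm]; exact Nat.pos_of_ne_zero h0)
    rw [natDegree_eq_of_degree_eq_some h1, natDegree_eq_of_degree_eq_some h2, hm]
  have h3 := resultant_ne_zero _ _ hs
  rw [hm, hd, derivative_map, resultant_map_map] at h3
  exact h3

theorem exists_int_mul {K : Type} [Field K] [CharZero K] [Algebra.IsAlgebraic ℚ K] {p : K[X]}
    (hp : p ≠ 0) : ∃ (T : ℤ[X]) (g : K[X]), T ≠ 0 ∧ g ≠ 0 ∧ T.map (Int.castRingHom K) = p * g := by
  have h1 : Algebra.IsAlgebraic ℤ K :=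
    (IsFractionRing.comap_isAlgebraic_iff (A := ℤ) (K := ℚ) (C := K)).2 inferInstance
  obtain ⟨T, hT, g, hg⟩ := Polynomial.exists_dvd_map_of_isAlgebraic (R := ℤ) hp
  have hinj : Function.Injective (Int.castRingHom K) := RingHom.injective_int _
  refine ⟨T, g, hT, ?_, hg⟩
  rintro rfl
  rw [mul_zero] at hg
  exact hT ((Polynomial.map_eq_zero_iff hinj).1 hg)

end Pool.Agent.Helper79.SE
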