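import Pool.Agent.Helper79.SE.Defs

/-!
# SE-01: the Taylor homomorphism and coefficientwise derivations

* `tay_mul`: the Leibniz formula for `D^[n] (x y)` (induction on `n`, `Finset.sum_antidiagonal_choose_succ_nsmul`, as for `Polynomial.iterate_derivative_mul`).
* `deriv_tay`: the coefficient of `h^n` of both sides is `D^(n+1)(x)/n!`.
* `dc`: `coeff_dc` from the definition (`D 0 = 0`), the rest by coefficients or by induction on polynomials.
* `dX` is the coefficientwise derivative: it is additive, satisfies the product rule (coefficients of a product of power series), kills `tayX D c`, `dX (C p) = C p'`, and commutes with the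
  derivative with respect to `h`.
* `evt`: for `p ∈ R[x]`, `evt D W p = p(W)` with the coefficients replaced by their Taylor series. `evt_dh`, `evt_dX`: chain rules, induction on `p`.
-/

open Polynomial

namespace Pool.Agent.Helper79.SE

variable {R : Type} [CommRing R] [Algebra ℚ R] (D : Derivation ℚ R R)

theorem coeff_tay (x : R) (n : ℕ) :
    PowerSeries.coeff n (tay D x) = ((n.factorial : ℚ)⁻¹) • (D^[n] x) := by
  simp [tay]

/-- Cancellation of a positive integer in a module over the rationals. -/
theorem nat_cancel {A : Type*} [CommRing A] [Algebra ℚ A] {a b : A} (n : ℕ)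
    (h : a * ((n : A) + 1) = b * ((n : A) + 1)) : a = b := by
  have hu : IsUnit ((n : A) + 1) := by
    have h1 : ((n : A) + 1) = algebraMap ℚ A ((n : ℚ) + 1) := by simp
    rw [h1]
    exact (IsUnit.mk0 _ (by positivity)).map _
  exact hu.mul_right_cancel h

theorem tay_zero : tay D 0 = 0 := by
  ext n
  rw [coeff_tay, iterate_map_zero]
  simp

theorem tay_one : tay D 1 = 1 := by
  ext n
  rw [coeff_tay, PowerSeries.coeff_one]
  rcases n with _ | n
  · simp
  · rw [Function.iterate_succ_apply, Derivation.map_one_eq_zero, iterate_map_zero]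
    simp

theorem tay_add (x y : R) : tay D (x + y) = tay D x + tay D y := by
  ext n
  rw [map_add, coeff_tay, coeff_tay, coeff_tay, iterate_map_add, smul_add]

theorem coeff_tay_succ (x : R) (n : ℕ) :
    PowerSeries.coeff (n + 1) (tay D x) * ((n : R) + 1) = PowerSeries.coeff n (tay D (D x)) := by
  rw [coeff_tay, coeff_tay, Function.iterate_succ_apply]
  have h1 : ((n : R) + 1) = algebraMap ℚ R ((n : ℚ) + 1) := by simp
  rw [h1, mul_comm, ← Algebra.smul_def, smul_smul]
  congr 1
  rw [Nat.factorial_succ]
  have h2 : ((n : ℚ) + 1) ≠ 0 := by positivity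
  have h3 : (n.factorial : ℚ) ≠ 0 := by positivity
  push_cast
  field_simp

theorem coeff_tay_mul (n : ℕ) : ∀ x y : R,
    PowerSeries.coeff n (tay D (x * y)) = PowerSeries.coeff n (tay D x * tay D y) := by
  induction n with
  | zero =>
    intro x y
    simp [PowerSeries.coeff_mul, coeff_tay]
  | succ n ih =>
    intro x y
    refine nat_cancel n ?_
    rw [coeff_tay_succ, ← PowerSeries.coeff_derivative, Derivation.leibniz, Derivation.leibniz,
      tay_add, map_add, map_add, smul_eq_mul, smul_eq_mul, ih, ih, smul_eq_mul, smul_eq_mul]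
    have key : ∀ z : R, PowerSeries.derivative R (tay D z) = tay D (D z) := by
      intro z
      ext m
      rw [PowerSeries.coeff_derivative, coeff_tay_succ]
    rw [key, key]

theorem tay_mul (x y : R) : tay D (x * y) = tay D x * tay D y := by
  ext n
  exact coeff_tay_mul D n x y

/-- The Taylor homomorphism. -/
noncomputable def tayHom : R →+* PowerSeries R where
  toFun := tay D
  map_one' := tay_one D
  map_mul' := tay_mul D
  map_zero' := tay_zero D
  map_add' := tay_add D

/-- The Taylor homomorphism with values in `R[x][[h]]`. -/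
noncomputable def tayX : R →+* PowerSeries R[X] := (PowerSeries.map C).comp (tayHom D)

/-- The value of a polynomial `p` over `R` at a power series `W`, the coefficients of `p` being
replaced by their Taylor series. -/
noncomputable def evt (W : PowerSeries R[X]) : R[X] →+* PowerSeries R[X] :=
  Polynomial.eval₂RingHom (tayX D) W

theorem const_tay (x : R) : PowerSeries.constantCoeff (tay D x) = x := by
  rw [← PowerSeries.coeff_zero_eq_constantCoeff_apply, coeff_tay]
  simp

theorem deriv_tay (x : R) : PowerSeries.derivative R (tay D x) = tay D (D x) := by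
  ext m
  rw [PowerSeries.coeff_derivative, coeff_tay_succ]

theorem map_tay (x : R) :
    (PowerSeries.mk fun n => D (PowerSeries.coeff n (tay D x))) = tay D (D x) := by
  ext n
  rw [PowerSeries.coeff_mk, coeff_tay, coeff_tay, Derivation.map_smul,
    ← Function.iterate_succ_apply' D n x, Function.iterate_succ_apply]

theorem evt_C (W : PowerSeries R[X]) (a : R) : evt D W (C a) = tayX D a := by
  simp [evt]

theorem evt_X (W : PowerSeries R[X]) : evt D W X = W := by
  simp [evt]

theorem coeff_tayX (a : R) (n : ℕ) :
    PowerSeries.coeff n (tayX D a) = C (PowerSeries.coeff n (tay D a)) := by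
  simp only [tayX, RingHom.comp_apply, PowerSeries.coeff_map]
  rfl

theorem const_evt {W : PowerSeries R[X]} (h : PowerSeries.constantCoeff W = X) (p : R[X]) :
    PowerSeries.constantCoeff (evt D W p) = p := by
  induction p using Polynomial.induction_on' with
  | add p q hp hq => rw [map_add, map_add, hp, hq]
  | monomial n a =>
    rw [← C_mul_X_pow_eq_monomial, map_mul, map_pow, map_mul, map_pow, evt_C, evt_X, h,
      ← PowerSeries.coeff_zero_eq_constantCoeff_apply, coeff_tayX,
      PowerSeries.coeff_zero_eq_constantCoeff_apply, const_tay]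

theorem coeff_dc (p : R[X]) (n : ℕ) : (dc D p).coeff n = D (p.coeff n) := by
  classical
  rw [dc, finsetSum_coeff]
  simp only [coeff_monomial]
  rw [Finset.sum_ite_eq' p.support n (fun m => D (p.coeff m))]
  split_ifs with h
  · rfl
  · rw [notMem_support_iff.1 h, map_zero]

theorem coeff_dX (F : PowerSeries R[X]) (n : ℕ) :
    PowerSeries.coeff n (dX F) = derivative (PowerSeries.coeff n F) := by
  simp [dX]

theorem dX_add (F G : PowerSeries R[X]) : dX (F + G) = dX F + dX G := by
  ext1 n
  rw [coeff_dX, map_add, map_add, map_add, coeff_dX, coeff_dX]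

theorem dX_mul (F G : PowerSeries R[X]) : dX (F * G) = dX F * G + F * dX G := by
  ext1 n
  rw [coeff_dX, PowerSeries.coeff_mul, map_sum, map_add, PowerSeries.coeff_mul,
    PowerSeries.coeff_mul, ← Finset.sum_add_distrib]
  refine Finset.sum_congr rfl fun ij _ => ?_
  rw [coeff_dX, coeff_dX, derivative_mul]

theorem dX_C (p : R[X]) : dX (PowerSeries.C p) = PowerSeries.C (derivative p) := by
  ext1 n
  rw [coeff_dX, PowerSeries.coeff_C, PowerSeries.coeff_C]
  split_ifs <;> simp

theorem dX_deriv (F : PowerSeries R[X]) :
    dX (PowerSeries.derivative R[X] F) = PowerSeries.derivative R[X] (dX F) := by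
  ext1 n
  rw [coeff_dX, PowerSeries.coeff_derivative, PowerSeries.coeff_derivative, coeff_dX,
    derivative_mul]
  simp

theorem dX_tayX (a : R) : dX (tayX D a) = 0 := by
  ext1 n
  rw [coeff_dX, coeff_tayX, derivative_C, map_zero]

theorem dX_pow (W : PowerSeries R[X]) (n : ℕ) : dX (W ^ n) = (n : PowerSeries R[X]) * W ^ (n - 1) * dX W := by
  induction n with
  | zero =>
    rw [pow_zero]
    have : (1 : PowerSeries R[X]) = PowerSeries.C 1 := by simp
    rw [this, dX_C]
    simp
  | succ n ih =>
    rw [pow_succ, dX_mul, ih]
    rcases n with _ | n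
    · simp
    · simp only [Nat.add_sub_cancel, pow_succ]
      push_cast
      ring

theorem evt_dX (W : PowerSeries R[X]) (p : R[X]) :
    dX (evt D W p) = evt D W (derivative p) * dX W := by
  induction p using Polynomial.induction_on' with
  | add p q hp hq => rw [map_add, dX_add, hp, hq, derivative_add, map_add, add_mul]
  | monomial n a =>
    rw [derivative_monomial, ← C_mul_X_pow_eq_monomial, ← C_mul_X_pow_eq_monomial, map_mul, map_mul,
      map_pow, map_pow, evt_C, evt_X, dX_mul, dX_tayX, evt_C, dX_pow]
    have : tayX D (a * (n : R)) = tayX D a * (n : PowerSeries R[X]) := by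
      rw [map_mul, map_natCast]
    rw [this]
    ring

/-- The product rule for power series over any commutative ring. -/
theorem deriv_mul_gen {S : Type*} [CommRing S] (F G : PowerSeries S) :
    PowerSeries.derivative S (F * G) =
      F * PowerSeries.derivative S G + G * PowerSeries.derivative S F := by
  rw [Derivation.leibniz, smul_eq_mul, smul_eq_mul]

theorem deriv_tayX (a : R) : PowerSeries.derivative R[X] (tayX D a) = tayX D (D a) := by
  ext1 n
  rw [PowerSeries.coeff_derivative, coeff_tayX, coeff_tayX, ← deriv_tay,
    PowerSeries.coeff_derivative]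
  simp

theorem dc_add (p q : R[X]) : dc D (p + q) = dc D p + dc D q := by
  ext n
  rw [coeff_add, coeff_dc, coeff_dc, coeff_dc, coeff_add, map_add]

theorem dc_monomial (n : ℕ) (a : R) : dc D (monomial n a) = monomial n (D a) := by
  ext m
  rw [coeff_dc, coeff_monomial, coeff_monomial]
  split_ifs
  · rfl
  · exact map_zero _

theorem evt_dh (W : PowerSeries R[X]) (p : R[X]) :
    PowerSeries.derivative R[X] (evt D W p) =
      evt D W (dc D p) + evt D W (derivative p) * PowerSeries.derivative R[X] W := by
  induction p using Polynomial.induction_on' with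
  | add p q hp hq =>
    rw [map_add, map_add, hp, hq, derivative_add, map_add, add_mul, dc_add, map_add]
    ring
  | monomial n a =>
    have hm : ∀ (b : R) (m : ℕ), evt D W (monomial m b) = tayX D b * W ^ m := by
      intro b m
      rw [← C_mul_X_pow_eq_monomial, map_mul, map_pow, evt_C, evt_X]
    have : tayX D (a * (n : R)) = tayX D a * (n : PowerSeries R[X]) := by
      rw [map_mul, map_natCast]
    rw [derivative_monomial, dc_monomial, hm, hm, hm, deriv_mul_gen,
      deriv_tayX, PowerSeries.derivative_pow, this]
    ring

theorem clS_add {k : ℕ} (cl : R[X] →ₗ[R] (Fin k → R)) (F G : PowerSeries R[X]) (i : Fin k) :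
    clS cl (F + G) i = clS cl F i + clS cl G i := by
  ext n
  simp [clS]

theorem clS_tayX {k : ℕ} (cl : R[X] →ₗ[R] (Fin k → R)) (x : R) (F : PowerSeries R[X])
    (i : Fin k) : clS cl (tayX D x * F) i = tay D x * clS cl F i := by
  ext n
  simp only [clS, PowerSeries.coeff_mk, PowerSeries.coeff_mul, map_sum, Finset.sum_apply]
  refine Finset.sum_congr rfl fun ij _ => ?_
  rw [coeff_tayX, ← smul_eq_C_mul, map_smul, Pi.smul_apply, smul_eq_mul]

theorem clS_deriv {k : ℕ} (cl : R[X] →ₗ[R] (Fin k → R)) (F : PowerSeries R[X]) (i : Fin k) :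
    clS cl (PowerSeries.derivative R[X] F) i = PowerSeries.derivative R (clS cl F i) := by
  ext n
  simp only [clS, PowerSeries.coeff_mk, PowerSeries.coeff_derivative]
  have h : (PowerSeries.coeff (n + 1) F) * ((n : R[X]) + 1) =
      ((n : R) + 1) • (PowerSeries.coeff (n + 1) F) := by
    rw [smul_eq_C_mul, mul_comm]
    simp
  rw [h, map_smul, Pi.smul_apply, smul_eq_mul, mul_comm]

end Pool.Agent.Helper79.SE
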