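import Pool.Agent.Helper79.SE.Tay

/-!
# SE-10: the periods of `y^a = f(x, t)` and their differential equation

`γ : [0,1] → ℂ` a closed `C¹` loop in the `x`-plane, `y t s` a continuous branch of the `a`-th root of `f(γ(s), t)`, nonzero, on `V × [0,1]`, with `y t 0 = y t 1`;
`perSE γ y i j t = ∫_0^1 γ^i y^(-(j+1)) γ' ds`, i.e. the integral of `x^i dx / y^(j+1)`.

* Differentiability. `F(t, s) = evl f t (γ s)` is `C¹` in `s` and holomorphic in `t`. For fixed `s` and `t₁ ∈ V`: `y t s` is continuous in `t` with `y^a = F`, `F(t₁, s) ≠ 0`, so near `t₁` it is a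
  local inverse branch of `z ↦ z^a` applied to `F` (`HasStrictDerivAt.to_localInverse`, or directly: `y^a - y₁^a = (y - y₁) ∑ y^k y₁^(a-1-k)`, and the sum tends to `a y₁^(a-1) ≠ 0`), hence
  `∂y/∂t = F_t / (a y^(a-1))`. In the same way for fixed `t` and `s₁ ∈ [0,1]`: derivative (within `[0,1]`) `∂y/∂s = F_x γ' / (a y^(a-1))`. Compare `Pool.Agent.Helper79.GC.HypPer` (`a = 2`,
  `f = g(x)(x-t)`), where all this is done with square roots.
* `∂/∂t (γ^i y^(-(j+1)) γ') = ν γ^i (F_t/F) y^(-(j+1)) γ'` with `ν = -(j+1)/a` (as `y^a = F`); it is continuous on `V × [0,1]`, so (`hasDerivAt_integral_of_dominated_loc_of_deriv_le`,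
  bound on a compact ball times `[0,1]`) `perSE` is differentiable on `V` with derivative `∫ ν γ^i (F_t/F) y^(-(j+1)) γ' ds`.
* `per_ode`: evaluate `star` at `(t, x = γ(s))`: `T₁(t) ν γ^i F_t = F (∑ A_il γ^l + g_x) + ν g F_x`. Divide by `F`, multiply by `y^(-(j+1)) γ'`, integrate:
  `T₁ ∂P_i/∂t = ∑ A_il P_l + ∫ (g_x + ν g F_x/F) y^(-(j+1)) γ' ds` and the last integrand is the derivative in `s` of `g(t, γ(s)) y(t,s)^(-(j+1))`, which has the same value at `0` and `1`
  (`intervalIntegral.integral_eq_sub_of_hasDerivAt_of_le` or `…_of_hasDeriv_right`).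
-/

open Polynomial Pool.Agent.Helper64.Per

namespace Pool.Agent.Helper79.SE

/-- The derivation `d/dt` of `K[t]`. -/
noncomputable def dt (K : Type) [Field K] [CharZero K] : Derivation ℚ K[X] K[X] :=
  (Polynomial.derivative' : Derivation K K[X] K[X]).restrictScalars ℚ

/-- Value at `(t, x)` of a polynomial in `x` with coefficients in `κ[t]`. -/
noncomputable def evl {κ : IntermediateField ℚ Qbar} (f : Polynomial (Polynomial κ)) (t x : ℂ) :
    ℂ :=
  f.eval₂ (aeval t : Polynomial κ →ₐ[κ] ℂ).toRingHom x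

/-- A closed loop `γ` in the `x`-plane and a continuous closed branch `y` of the `a`-th root of
`f(x, t)` along it, for `t ∈ V`. -/
structure LoopSE {κ : IntermediateField ℚ Qbar} (a : ℕ) (f : Polynomial (Polynomial κ))
    (V : Set ℂ) (γ : ℝ → ℂ) (y : ℂ → ℝ → ℂ) : Prop where
  smooth : ContDiff ℝ 1 γ
  closed : γ 0 = γ 1
  cont : ContinuousOn (fun p : ℂ × ℝ => y p.1 p.2) (V ×ˢ Set.Icc 0 1)
  eqn : ∀ t ∈ V, ∀ s ∈ Set.Icc (0 : ℝ) 1, y t s ^ a = evl f t (γ s)
  ne : ∀ t ∈ V, ∀ s ∈ Set.Icc (0 : ℝ) 1, y t s ≠ 0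
  yclosed : ∀ t ∈ V, y t 0 = y t 1

/-- The integral of `x^i dx / y^(j+1)` over the loop. -/
noncomputable def perSE (γ : ℝ → ℂ) (y : ℂ → ℝ → ℂ) (i j : ℕ) (t : ℂ) : ℂ :=
  ∫ s in (0 : ℝ)..1, (γ s) ^ i / (y t s) ^ (j + 1) * deriv γ s

/-! ### auxiliary lemmas -/

private lemma evl_eq_sum {κ : IntermediateField ℚ Qbar} (f : Polynomial (Polynomial κ))
    (t x : ℂ) : evl f t x = ∑ n ∈ f.support, aeval t (f.coeff n) * x ^ n := by
  unfold evl
  rw [Polynomial.eval₂_eq_sum, Polynomial.sum_def]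
  rfl

private lemma evl_add {κ : IntermediateField ℚ Qbar} (f g : Polynomial (Polynomial κ))
    (t x : ℂ) : evl (f + g) t x = evl f t x + evl g t x := by
  unfold evl
  rw [Polynomial.eval₂_add]

private lemma evl_mul {κ : IntermediateField ℚ Qbar} (f g : Polynomial (Polynomial κ))
    (t x : ℂ) : evl (f * g) t x = evl f t x * evl g t x := by
  unfold evl
  rw [Polynomial.eval₂_mul]

private lemma evl_C {κ : IntermediateField ℚ Qbar} (c : Polynomial κ)
    (t x : ℂ) : evl (C c) t x = aeval t c := by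
  unfold evl
  rw [Polynomial.eval₂_C]
  rfl

private lemma evl_X_pow {κ : IntermediateField ℚ Qbar} (n : ℕ)
    (t x : ℂ) : evl (X ^ n : Polynomial (Polynomial κ)) t x = x ^ n := by
  unfold evl
  rw [Polynomial.eval₂_X_pow]

private lemma evl_finsum {κ : IntermediateField ℚ Qbar} {ι : Type} (S : Finset ι)
    (F : ι → Polynomial (Polynomial κ)) (t x : ℂ) :
    evl (∑ i ∈ S, F i) t x = ∑ i ∈ S, evl (F i) t x := by
  unfold evl
  rw [Polynomial.eval₂_finsetSum]

private lemma evl_qsmul {κ : IntermediateField ℚ Qbar} (q : ℚ) (f : Polynomial (Polynomial κ))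
    (t x : ℂ) : evl (q • f) t x = (q : ℂ) * evl f t x := by
  have h : q • f = (algebraMap ℚ (Polynomial (Polynomial κ)) q) * f := Algebra.smul_def q f
  rw [h, evl_mul]
  congr 1
  have h2 : evl (algebraMap ℚ (Polynomial (Polynomial κ)) q) t x =
      ((Polynomial.eval₂RingHom (aeval t : Polynomial κ →ₐ[κ] ℂ).toRingHom x).comp
        (algebraMap ℚ (Polynomial (Polynomial κ)))) q := rfl
  rw [h2, eq_ratCast]

private lemma evl_cont {κ : IntermediateField ℚ Qbar} (f : Polynomial (Polynomial κ)) :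
    Continuous fun p : ℂ × ℂ => evl f p.1 p.2 := by
  have h : (fun p : ℂ × ℂ => evl f p.1 p.2) =
      fun p : ℂ × ℂ => ∑ n ∈ f.support, aeval p.1 (f.coeff n) * p.2 ^ n := by
    funext p
    exact evl_eq_sum f p.1 p.2
  rw [h]
  refine continuous_finsetSum _ fun n _ => ?_
  exact ((Polynomial.continuous_aeval (f.coeff n)).comp continuous_fst).mul
    (continuous_snd.pow n)

private lemma evl_hasDeriv_x {κ : IntermediateField ℚ Qbar} (f : Polynomial (Polynomial κ))
    (t x : ℂ) : HasDerivAt (fun x => evl f t x) (evl (derivative f) t x) x := by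
  have h1 : ∀ (g : Polynomial (Polynomial κ)) (z : ℂ), evl g t z =
      (g.map (aeval t : Polynomial κ →ₐ[κ] ℂ).toRingHom).eval z := by
    intro g z
    unfold evl
    rw [Polynomial.eval₂_eq_eval_map]
  simp only [h1]
  have h2 := Polynomial.hasDerivAt (f.map (aeval t : Polynomial κ →ₐ[κ] ℂ).toRingHom) x
  rw [Polynomial.derivative_map] at h2
  exact h2

private lemma evl_dc {κ : IntermediateField ℚ Qbar} (f : Polynomial (Polynomial κ))
    (t x : ℂ) : evl (dc (dt κ) f) t x =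
      ∑ n ∈ f.support, aeval t (derivative (f.coeff n)) * x ^ n := by
  unfold dc
  rw [evl_finsum]
  refine Finset.sum_congr rfl fun n _ => ?_
  unfold evl
  rw [Polynomial.eval₂_monomial]
  rfl

private lemma evl_hasDeriv_t {κ : IntermediateField ℚ Qbar} (f : Polynomial (Polynomial κ))
    (t x : ℂ) : HasDerivAt (fun t => evl f t x) (evl (dc (dt κ) f) t x) t := by
  rw [evl_dc]
  simp only [evl_eq_sum]
  refine HasDerivAt.fun_sum fun n _ => ?_
  exact (Polynomial.hasDerivAt_aeval (f.coeff n) t).mul_const _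

/-- A continuous `a`-th root of a differentiable function is differentiable. -/
private lemma root_deriv {𝕜 : Type} [NontriviallyNormedField 𝕜] [NormedAlgebra 𝕜 ℂ] {a : ℕ}
    (ha : 1 ≤ a) {u F : 𝕜 → ℂ} {S : Set 𝕜} {z₀ : 𝕜} {F' : ℂ} (hF : HasDerivWithinAt F F' S z₀)
    (hu : ContinuousWithinAt u S z₀) (hz₀ : u z₀ ^ a = F z₀) (hE : ∀ z ∈ S, u z ^ a = F z)
    (hne : u z₀ ≠ 0) :
    HasDerivWithinAt u (F' / (a * u z₀ ^ (a - 1))) S z₀ := by
  rw [hasDerivWithinAt_iff_tendsto_slope] at hF ⊢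
  set Q : 𝕜 → ℂ := fun z => ∑ i ∈ Finset.range a, u z ^ i * u z₀ ^ (a - 1 - i) with hQ
  have hcont : Filter.Tendsto Q (nhdsWithin z₀ (S \ {z₀})) (nhds (a * u z₀ ^ (a - 1))) := by
    have h1 : Filter.Tendsto Q (nhdsWithin z₀ (S \ {z₀}))
        (nhds (∑ i ∈ Finset.range a, u z₀ ^ i * u z₀ ^ (a - 1 - i))) := by
      refine tendsto_finsetSum _ fun i _ => ?_
      exact ((hu.tendsto.mono_left (nhdsWithin_mono _ Set.sdiff_subset)).pow i).mul_const _
    have h2 : ∑ i ∈ Finset.range a, u z₀ ^ i * u z₀ ^ (a - 1 - i) = a * u z₀ ^ (a - 1) := by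
      rw [Finset.sum_congr rfl (g := fun _ => u z₀ ^ (a - 1))]
      · rw [Finset.sum_const, Finset.card_range, nsmul_eq_mul]
      · intro i hi
        rw [← pow_add]
        congr 1
        have := Finset.mem_range.1 hi
        omega
    rw [h2] at h1
    exact h1
  have hlim : (a : ℂ) * u z₀ ^ (a - 1) ≠ 0 :=
    mul_ne_zero (by exact_mod_cast (by omega : a ≠ 0)) (pow_ne_zero _ hne)
  have hev : ∀ᶠ z in nhdsWithin z₀ (S \ {z₀}), Q z ≠ 0 := hcont.eventually_ne hlim
  have h3 := hF.mul (hcont.inv₀ hlim)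
  rw [← div_eq_mul_inv] at h3
  refine h3.congr' ?_
  filter_upwards [hev, self_mem_nhdsWithin] with z hz hzS
  have h4 : Q z * (u z - u z₀) = F z - F z₀ := by
    rw [hQ, ← hE z hzS.1, ← hz₀]
    exact Commute.geom_sum₂_mul (Commute.all _ _) a
  show slope F z₀ z * (Q z)⁻¹ = slope u z₀ z
  rw [slope_def_module, slope_def_module, smul_mul_assoc, ← h4]
  congr 1
  field_simp

section loop

variable {κ : IntermediateField ℚ Qbar} {a : ℕ} {f : Polynomial (Polynomial κ)} {V : Set ℂ}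
  {γ : ℝ → ℂ} {y : ℂ → ℝ → ℂ}

private lemma evl_ne (_ha : 1 ≤ a) (h : LoopSE a f V γ y) {t : ℂ} (ht : t ∈ V) {s : ℝ}
    (hs : s ∈ Set.Icc (0 : ℝ) 1) : evl f t (γ s) ≠ 0 := by
  rw [← h.eqn t ht s hs]
  exact pow_ne_zero _ (h.ne t ht s hs)

private lemma y_deriv_t (ha : 1 ≤ a) (hV : IsOpen V) (h : LoopSE a f V γ y) {t : ℂ}
    (ht : t ∈ V) {s : ℝ} (hs : s ∈ Set.Icc (0 : ℝ) 1) :
    HasDerivAt (fun t => y t s) (evl (dc (dt κ) f) t (γ s) / (a * y t s ^ (a - 1))) t := by
  have hc : ContinuousOn (fun t' => y t' s) V :=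
    h.cont.comp (f := fun t' : ℂ => (t', s)) (Continuous.continuousOn (by fun_prop))
      (fun t' ht' => ⟨ht', hs⟩)
  have h1 : HasDerivWithinAt (fun t => y t s)
      (evl (dc (dt κ) f) t (γ s) / (a * y t s ^ (a - 1))) V t :=
    root_deriv ha (evl_hasDeriv_t f t (γ s)).hasDerivWithinAt (hc t ht) (h.eqn t ht s hs)
      (fun t' ht' => h.eqn t' ht' s hs) (h.ne t ht s hs)
  exact h1.hasDerivAt (hV.mem_nhds ht)

private lemma y_deriv_s (ha : 1 ≤ a) (h : LoopSE a f V γ y) {t : ℂ}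
    (ht : t ∈ V) {s : ℝ} (hs : s ∈ Set.Icc (0 : ℝ) 1) :
    HasDerivWithinAt (fun s => y t s)
      (evl (derivative f) t (γ s) * deriv γ s / (a * y t s ^ (a - 1))) (Set.Icc 0 1) s := by
  have hc : ContinuousOn (fun s => y t s) (Set.Icc 0 1) :=
    h.cont.comp (f := fun s : ℝ => (t, s)) (Continuous.continuousOn (by fun_prop))
      (fun s hs => ⟨ht, hs⟩)
  have hγ : HasDerivAt γ (deriv γ s) s :=
    ((h.smooth.differentiable one_ne_zero) s).hasDerivAt
  have hF : HasDerivAt (fun s => evl f t (γ s)) (evl (derivative f) t (γ s) * deriv γ s) s := by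
    exact (evl_hasDeriv_x f t (γ s)).comp s hγ
  exact root_deriv ha hF.hasDerivWithinAt (hc s hs) (h.eqn t ht s hs)
      (fun s' hs' => h.eqn t ht s' hs') (h.ne t ht s hs)

private lemma cont_s {G : ℂ × ℝ → ℂ}
    (hG : ContinuousOn G (V ×ˢ Set.Icc (0 : ℝ) 1)) {t : ℂ} (ht : t ∈ V) :
    ContinuousOn (fun s => G (t, s)) (Set.Icc (0 : ℝ) 1) :=
  hG.comp (Continuous.continuousOn (by fun_prop)) (fun _ hs => ⟨ht, hs⟩)

private lemma int_s {G : ℝ → ℂ} (hG : ContinuousOn G (Set.Icc (0 : ℝ) 1)) :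
    IntervalIntegrable G MeasureTheory.volume 0 1 := by
  apply ContinuousOn.intervalIntegrable
  rwa [Set.uIcc_of_le zero_le_one]

/-- continuity of the integrands -/
private lemma cont_int (_ha : 1 ≤ a) (h : LoopSE a f V γ y) (p : Polynomial (Polynomial κ))
    (j : ℕ) :
    ContinuousOn (fun q : ℂ × ℝ => evl p q.1 (γ q.2) / (y q.1 q.2) ^ (j + 1) * deriv γ q.2)
      (V ×ˢ Set.Icc 0 1) := by
  have hγ : Continuous γ := h.smooth.continuous
  have hγ' : Continuous (deriv γ) := h.smooth.continuous_deriv le_rfl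
  have hp : Continuous fun q : ℂ × ℝ => evl p q.1 (γ q.2) :=
    (evl_cont p).comp (continuous_fst.prodMk (hγ.comp continuous_snd))
  refine ContinuousOn.mul (hp.continuousOn.div (h.cont.pow (j + 1)) ?_)
    (hγ'.comp continuous_snd).continuousOn
  rintro ⟨t, s⟩ ⟨ht, hs⟩
  exact pow_ne_zero _ (h.ne t ht s hs)

private lemma cont_intF (ha : 1 ≤ a) (h : LoopSE a f V γ y) (p : Polynomial (Polynomial κ))
    (j : ℕ) :
    ContinuousOn (fun q : ℂ × ℝ => evl p q.1 (γ q.2) / evl f q.1 (γ q.2) /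
      (y q.1 q.2) ^ (j + 1) * deriv γ q.2)
      (V ×ˢ Set.Icc 0 1) := by
  have hγ : Continuous γ := h.smooth.continuous
  have hγ' : Continuous (deriv γ) := h.smooth.continuous_deriv le_rfl
  have hp : ∀ p : Polynomial (Polynomial κ), Continuous fun q : ℂ × ℝ => evl p q.1 (γ q.2) :=
    fun p => (evl_cont p).comp (continuous_fst.prodMk (hγ.comp continuous_snd))
  refine ContinuousOn.mul (((hp p).continuousOn.div (hp f).continuousOn ?_).div
    (h.cont.pow (j + 1)) ?_) (hγ'.comp continuous_snd).continuousOn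
  · rintro ⟨t, s⟩ ⟨ht, hs⟩
    exact evl_ne ha h ht hs
  · rintro ⟨t, s⟩ ⟨ht, hs⟩
    exact pow_ne_zero _ (h.ne t ht s hs)

/-- differentiation under the integral -/
private lemma per_hasDeriv (ha : 1 ≤ a) (hV : IsOpen V) (h : LoopSE a f V γ y) (i j : ℕ)
    {t : ℂ} (ht : t ∈ V) :
    HasDerivAt (perSE γ y i j) (∫ s in (0 : ℝ)..1, (-((j : ℂ) + 1) / a) *
      (evl (X ^ i * dc (dt κ) f) t (γ s) / evl f t (γ s) / (y t s) ^ (j + 1) * deriv γ s)) t := by
  obtain ⟨ε, hε, hεV⟩ := Metric.isOpen_iff.1 hV t ht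
  have hball : Metric.closedBall t (ε / 2) ⊆ V := fun z hz => hεV (by
    rw [Metric.mem_ball]
    rw [Metric.mem_closedBall] at hz
    linarith)
  have hK : IsCompact (Metric.closedBall t (ε / 2) ×ˢ Set.Icc (0 : ℝ) 1) :=
    (isCompact_closedBall _ _).prod isCompact_Icc
  have hcF : ContinuousOn (fun q : ℂ × ℝ => (γ q.2) ^ i / (y q.1 q.2) ^ (j + 1) * deriv γ q.2)
      (V ×ˢ Set.Icc 0 1) := by
    have h1 := cont_int ha h (X ^ i) j
    simp only [evl_X_pow] at h1
    exact h1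
  have hcF2 : ContinuousOn (fun q : ℂ × ℝ => (-((j : ℂ) + 1) / a) *
      (evl (X ^ i * dc (dt κ) f) q.1 (γ q.2) / evl f q.1 (γ q.2) /
      (y q.1 q.2) ^ (j + 1) * deriv γ q.2)) (V ×ˢ Set.Icc 0 1) :=
    continuousOn_const.mul (cont_intF ha h _ j)
  obtain ⟨C, hC⟩ := hK.exists_bound_of_continuousOn
    (hcF2.mono (Set.prod_mono hball (Set.Subset.refl _)))
  have hsub : Set.uIoc (0 : ℝ) 1 ⊆ Set.Icc 0 1 := by
    rw [Set.uIoc_of_le zero_le_one]
    exact Set.Ioc_subset_Icc_self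
  have key := intervalIntegral.hasDerivAt_integral_of_dominated_loc_of_deriv_le
    (𝕜 := ℂ) (μ := MeasureTheory.volume) (a := (0 : ℝ)) (b := 1) (x₀ := t)
    (s := Metric.ball t (ε / 2))
    (F := fun t s => (γ s) ^ i / (y t s) ^ (j + 1) * deriv γ s)
    (F' := fun t s => (-((j : ℂ) + 1) / a) *
      (evl (X ^ i * dc (dt κ) f) t (γ s) / evl f t (γ s) / (y t s) ^ (j + 1) * deriv γ s))
    (bound := fun _ => C) (Metric.ball_mem_nhds t (half_pos hε)) ?_ ?_ ?_ ?_ ?_ ?_
  · exact key.2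
  · filter_upwards [hV.mem_nhds ht] with t' ht'
    exact (intervalIntegrable_iff.1 (int_s (cont_s hcF ht'))).aestronglyMeasurable
  · exact int_s (cont_s hcF ht)
  · exact (intervalIntegrable_iff.1 (int_s (cont_s hcF2 ht))).aestronglyMeasurable
  · apply Filter.Eventually.of_forall
    intro s hs t' ht'
    exact hC (t', s) ⟨Metric.ball_subset_closedBall ht', hsub hs⟩
  · exact intervalIntegrable_const
  · apply Filter.Eventually.of_forall
    intro s hs t' ht'
    have hs' := hsub hs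
    have htV : t' ∈ V := hball (Metric.ball_subset_closedBall ht')
    have hy := h.ne t' htV s hs'
    have heq := h.eqn t' htV s hs'
    have ha0 : (a : ℂ) ≠ 0 := by exact_mod_cast (by omega : a ≠ 0)
    have d2 := (y_deriv_t ha hV h htV hs').fun_pow (j + 1)
    have d3 := ((hasDerivAt_const t' ((γ s) ^ i)).div d2 (pow_ne_zero _ hy)).mul_const (deriv γ s)
    refine d3.congr_deriv ?_
    rw [evl_mul, evl_X_pow, ← heq]
    obtain ⟨b, rfl⟩ : ∃ b, a = b + 1 := ⟨a - 1, by omega⟩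
    simp only [Nat.add_sub_cancel]
    push_cast at ha0 ⊢
    field_simp
    ring

end loop

theorem per_diff {κ : IntermediateField ℚ Qbar} {a : ℕ} (ha : 1 ≤ a)
    {f : Polynomial (Polynomial κ)} {V : Set ℂ} (hV : IsOpen V) {γ : ℝ → ℂ} {y : ℂ → ℝ → ℂ}
    (h : LoopSE a f V γ y) (i j : ℕ) : DifferentiableOn ℂ (perSE γ y i j) V :=
  fun _ ht => (per_hasDeriv ha hV h i j ht).differentiableAt.differentiableWithinAt

theorem per_ode {κ : IntermediateField ℚ Qbar} {a : ℕ} (ha : 1 ≤ a)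
    {f : Polynomial (Polynomial κ)} {V : Set ℂ} (hV : IsOpen V) {γ : ℝ → ℂ} {y : ℂ → ℝ → ℂ}
    (h : LoopSE a f V γ y) {k j : ℕ} {T₁ : Polynomial κ} {A : Matrix (Fin k) (Fin k) (Polynomial κ)}
    {g : Fin k → Polynomial (Polynomial κ)} {ν : ℚ} (hν : ν = -((j : ℚ) + 1) / a)
    (star : ∀ i : Fin k, ν • (C T₁ * (X ^ (i : ℕ) * dc (dt κ) f)) =
      f * (∑ l : Fin k, C (A i l) * X ^ (l : ℕ) + derivative (g i)) + ν • (g i * derivative f))
    {t : ℂ} (ht : t ∈ V) (i : Fin k) :
    aeval t T₁ * deriv (perSE γ y i j) t = ∑ l : Fin k, aeval t (A i l) * perSE γ y l j t := by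
  have ha0 : (a : ℂ) ≠ 0 := by exact_mod_cast (by omega : a ≠ 0)
  have hνc : (-((j : ℂ) + 1) / a) = (ν : ℂ) := by
    rw [hν]
    push_cast
    rfl
  rw [(per_hasDeriv ha hV h i j ht).deriv, hνc]
  -- the exact form
  set G : ℝ → ℂ := fun s => (evl (derivative (g i)) t (γ s) / (y t s) ^ (j + 1) * deriv γ s) +
    (ν : ℂ) * (evl (g i * derivative f) t (γ s) / evl f t (γ s) / (y t s) ^ (j + 1) * deriv γ s)
    with hG
  have hc1 := cont_s (cont_int ha h (derivative (g i)) j) ht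
  have hc2 := cont_s (cont_intF ha h (g i * derivative f) j) ht
  have hGc : ContinuousOn G (Set.Icc 0 1) := hc1.add (continuousOn_const.mul hc2)
  have hG0 : ∫ s in (0 : ℝ)..1, G s = 0 := by
    have hcy : ContinuousOn (fun s => y t s) (Set.Icc 0 1) :=
      h.cont.comp (f := fun s : ℝ => (t, s)) (Continuous.continuousOn (by fun_prop))
        (fun s hs => ⟨ht, hs⟩)
    have hγ : Continuous γ := h.smooth.continuous
    have hcg : Continuous fun s => evl (g i) t (γ s) :=
      (evl_cont (g i)).comp (continuous_const.prodMk hγ)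
    have h1 := intervalIntegral.integral_eq_sub_of_hasDerivAt_of_le (a := (0 : ℝ)) (b := 1)
      (f := fun s => evl (g i) t (γ s) / (y t s) ^ (j + 1)) (f' := G) zero_le_one
      (hcg.continuousOn.div (hcy.pow (j + 1)) fun s hs => pow_ne_zero _ (h.ne t ht s hs)) ?_
      (int_s hGc)
    · rw [h1, h.closed, h.yclosed t ht, sub_self]
    · intro s hs
      have hs' : s ∈ Set.Icc (0 : ℝ) 1 := Set.Ioo_subset_Icc_self hs
      have hy := h.ne t ht s hs'
      have heq := h.eqn t ht s hs'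
      have hγd : HasDerivAt γ (deriv γ s) s :=
        ((h.smooth.differentiable one_ne_zero) s).hasDerivAt
      have d1 : HasDerivAt (fun s => evl (g i) t (γ s))
          (evl (derivative (g i)) t (γ s) * deriv γ s) s :=
        (evl_hasDeriv_x (g i) t (γ s)).comp s hγd
      have d2 := ((y_deriv_s ha h ht hs').hasDerivAt (Icc_mem_nhds hs.1 hs.2)).fun_pow (j + 1)
      refine (d1.div d2 (pow_ne_zero _ hy)).congr_deriv ?_
      rw [hG]
      simp only
      rw [evl_mul, ← heq, ← hνc]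
      obtain ⟨b, rfl⟩ : ∃ b, a = b + 1 := ⟨a - 1, by omega⟩
      simp only [Nat.add_sub_cancel]
      push_cast at ha0 ⊢
      field_simp
      ring
  have hc3 : ∀ l : Fin k, IntervalIntegrable (fun s => aeval t (A i l) *
      ((γ s) ^ (l : ℕ) / (y t s) ^ (j + 1) * deriv γ s)) MeasureTheory.volume 0 1 := by
    intro l
    have h1 := cont_s (cont_int ha h (X ^ (l : ℕ)) j) ht
    simp only [evl_X_pow] at h1
    exact int_s (continuousOn_const.mul h1)
  have hstar : ∀ s ∈ Set.Icc (0 : ℝ) 1, aeval t T₁ * ((ν : ℂ) *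
      (evl (X ^ (i : ℕ) * dc (dt κ) f) t (γ s) / evl f t (γ s) / (y t s) ^ (j + 1) *
        deriv γ s)) = (∑ l : Fin k, aeval t (A i l) *
      ((γ s) ^ (l : ℕ) / (y t s) ^ (j + 1) * deriv γ s)) + G s := by
    intro s hs
    have hy := h.ne t ht s hs
    have hf := evl_ne ha h ht hs
    have h1 := congrArg (fun p => evl p t (γ s)) (star i)
    simp only [evl_add, evl_mul, evl_qsmul, evl_C, evl_finsum, evl_X_pow] at h1
    rw [hG]
    simp only [evl_mul, evl_X_pow]
    have h2 : ∑ l : Fin k, aeval t (A i l) * ((γ s) ^ (l : ℕ) / (y t s) ^ (j + 1) * deriv γ s) =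
        (∑ l : Fin k, aeval t (A i l) * (γ s) ^ (l : ℕ)) / (y t s) ^ (j + 1) * deriv γ s := by
      rw [Finset.sum_div, Finset.sum_mul]
      refine Finset.sum_congr rfl fun l _ => ?_
      ring
    rw [h2]
    have h3 : (ν : ℂ) * (aeval t T₁ * (γ s ^ (i : ℕ) * evl (dc (dt κ) f) t (γ s))) /
        evl f t (γ s) = (∑ l : Fin k, aeval t (A i l) * (γ s) ^ (l : ℕ)) +
          evl (derivative (g i)) t (γ s) +
          (ν : ℂ) * (evl (g i) t (γ s) * evl (derivative f) t (γ s)) / evl f t (γ s) := by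
      rw [h1]
      field_simp
    have h4 := congrArg (fun z : ℂ => z / (y t s) ^ (j + 1) * deriv γ s) h3
    beta_reduce at h4
    linear_combination h4
  rw [← intervalIntegral.integral_const_mul]
  rw [intervalIntegral.integral_congr (g := fun s => (∑ l : Fin k, aeval t (A i l) *
      ((γ s) ^ (l : ℕ) / (y t s) ^ (j + 1) * deriv γ s)) + G s)]
  · rw [intervalIntegral.integral_add, hG0, add_zero, intervalIntegral.integral_finsetSum]
    · refine Finset.sum_congr rfl fun l _ => ?_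
      rw [intervalIntegral.integral_const_mul]
      rfl
    · exact fun l _ => hc3 l
    · have h5 := IntervalIntegrable.sum Finset.univ fun l (_ : l ∈ Finset.univ) => hc3 l
      refine h5.congr fun s _ => ?_
      simp only [Finset.sum_apply]
    · exact int_s hGc
  · intro s hs
    rw [Set.uIcc_of_le zero_le_one] at hs
    exact hstar s hs

end Pool.Agent.Helper79.SE
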