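import Pool.Agent.Helper79.SE.Defs

/-!
# SE-08: Galochkin's condition from the expansions of the iterates at infinity

`x = 1/u`, `∂ = d/du = -x² d/dx` on `K[[x]]`; `a` is the expansion of `A / T` at infinity and `B_n` the expansion of the matrix of `∂^n/n!`. Let `D = natDegree T`, `T̂ = reflect D T` (`= x^D T(1/x)`).
Claim: `natDegree (betaF T A n i l) ≤ n D` and `reflect (n D) (betaF T A n i l) = T̂^n B_n i l` in `K[[x]]`. Induction on `n` with `betaF (n+1) = (T β_n' - n T' β_n + β_n A) / (n+1)`
and `(n+1) B_{n+1} = ∂B_n + B_n a`. It is easiest to work in `LaurentSeries K` (fraction field of `K[[x]]`) with the ring homomorphism `em : K[u] → LaurentSeries K`, `u ↦ x⁻¹`, and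
`em p' = ∂ (em p)`, `em p = x^(-N) reflect N p` for `natDegree p ≤ N`: then `em T * a = em A`, `em β_n = (em T)^n B_n`. (Compare `Pool.Agent.Helper37.GP.Defs`: `emb`, `dd`, over `ℚ`.) Or prove
directly the formulas for `reflect`: `reflect (N+M) (p q) = reflect N p * reflect M q` (`Polynomial.reflect_mul`) and
`reflect (N+D) (T p') = T̂ * (N x p̂ - x² p̂')`, where `p̂ = reflect N p` (`x^N p(1/x)`; `p'(1/x) x^N = N x p̂ - x² p̂'`; `natDegree p ≤ N`).
The coefficient of `u^l` in `β_n` is the coefficient of `x^(nD-l)` in `T̂^n B_n`, a combination with integer coefficients of the `coeff m (B_n)`, `m ≤ n D`. For `n ≤ j` use `hbd` with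
`N = j (D + 1)`.
-/

open Polynomial

namespace Pool.Agent.Helper79.SE

open Pool.Agent.Helper79.GX

section refl

variable {K : Type} [Field K]

private lemma h4_refl_sub (p q : K[X]) (N : ℕ) :
    (p - q).reflect N = p.reflect N - q.reflect N := by
  ext
  simp only [coeff_sub, coeff_reflect]

private lemma h4_refl_sum {ι : Type} (s : Finset ι) (f : ι → K[X]) (N : ℕ) :
    (∑ i ∈ s, f i).reflect N = ∑ i ∈ s, (f i).reflect N := by
  classical
  induction s using Finset.induction_on with
  | empty => simp
  | insert a s ha ih => rw [Finset.sum_insert ha, Finset.sum_insert ha, reflect_add, ih]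

private lemma h4_refl_der (p : K[X]) {N : ℕ} (h : p.natDegree ≤ N) :
    (derivative p).reflect N =
      C (N : K) * (X * p.reflect N) - X * (X * derivative (p.reflect N)) := by
  ext j
  rw [coeff_sub, coeff_C_mul, coeff_reflect]
  cases j with
  | zero =>
    rw [mul_coeff_zero, mul_coeff_zero, coeff_X_zero, revAt_zero, coeff_derivative,
      coeff_eq_zero_of_natDegree_lt (by omega)]
    ring
  | succ j =>
    rw [coeff_X_mul, coeff_X_mul, coeff_derivative]
    have hR : (X * derivative (p.reflect N)).coeff j = (j : K) * (p.reflect N).coeff j := by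
      cases j with
      | zero => rw [mul_coeff_zero, coeff_X_zero, Nat.cast_zero, zero_mul, zero_mul]
      | succ j =>
        rw [coeff_X_mul, coeff_derivative]
        push_cast
        ring
    rw [hR, coeff_reflect]
    rcases Nat.lt_or_ge j N with hj | hj
    · rw [revAt_le (show j + 1 ≤ N from hj), revAt_le (show j ≤ N by omega)]
      obtain ⟨r, rfl⟩ := Nat.exists_eq_add_of_le (show j + 1 ≤ N from hj)
      rw [Nat.add_sub_cancel_left, show j + 1 + r - j = r + 1 by omega]
      push_cast
      ring
    · rw [revAt_eq_self_of_lt (show N < j + 1 by omega),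
        coeff_eq_zero_of_natDegree_lt (show p.natDegree < j + 1 + 1 by omega), zero_mul]
      rcases Nat.eq_or_lt_of_le hj with rfl | hj
      · ring
      · rw [revAt_eq_self_of_lt hj, coeff_eq_zero_of_natDegree_lt (show p.natDegree < j by omega)]
        ring

end refl

section beta

variable {K : Type} [Field K] [CharZero K] {β : Type} [Fintype β] [DecidableEq β]

private lemma h4_beta_succ (T : K[X]) (A : Matrix β β K[X]) (n : ℕ) (i l : β) :
    betaF T A (n + 1) i l = C (((n : K) + 1)⁻¹) * (T * derivative (betaF T A n i l) -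
      ((n : K[X]) * derivative T) * betaF T A n i l + ∑ m, betaF T A n i m * A m l) := by
  rfl

private lemma h4_beta_mul (T : K[X]) (A : Matrix β β K[X]) (n : ℕ) (i l : β) :
    C ((n : K) + 1) * betaF T A (n + 1) i l = T * derivative (betaF T A n i l) -
      (C (n : K) * derivative T) * betaF T A n i l + ∑ m, betaF T A n i m * A m l := by
  rw [h4_beta_succ, ← mul_assoc, ← C_mul, mul_inv_cancel₀ (Nat.cast_add_one_ne_zero n), C_1, one_mul,
    C_eq_natCast]

private lemma h4_beta_deg {T : K[X]} {A : Matrix β β K[X]} {D : ℕ} (hT : T.natDegree ≤ D)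
    (hA : ∀ i l, (A i l).natDegree ≤ D) (n : ℕ) (i l : β) :
    (betaF T A n i l).natDegree ≤ n * D := by
  induction n generalizing i l with
  | zero =>
    show ((1 : Matrix β β K[X]) i l).natDegree ≤ 0 * D
    rw [Matrix.one_apply]
    split_ifs
    · rw [natDegree_one]; omega
    · rw [natDegree_zero]; omega
  | succ n ih =>
    rw [h4_beta_succ]
    have e : (n + 1) * D = D + n * D := by ring
    rw [e]
    refine (natDegree_C_mul_le _ _).trans ?_
    refine (natDegree_add_le _ _).trans (max_le ?_ ?_)
    · refine (natDegree_sub_le _ _).trans (max_le ?_ ?_)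
      · refine natDegree_mul_le.trans (Nat.add_le_add hT ?_)
        exact (natDegree_derivative_le _).trans ((Nat.sub_le _ _).trans (ih i l))
      · refine natDegree_mul_le.trans (Nat.add_le_add ?_ (ih i l))
        rw [← C_eq_natCast]
        refine (natDegree_C_mul_le _ _).trans ?_
        exact (natDegree_derivative_le _).trans ((Nat.sub_le _ _).trans hT)
    · refine natDegree_sum_le_of_forall_le _ _ fun m _ => ?_
      rw [Nat.add_comm]
      exact natDegree_mul_le.trans (Nat.add_le_add (ih i m) (hA m l))

private lemma h4_pow_der (f : PowerSeries K) (n : ℕ) :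
    f * PowerSeries.derivative K (f ^ n) = (n : PowerSeries K) * f ^ n *
      PowerSeries.derivative K f := by
  cases n with
  | zero => simp
  | succ n =>
    rw [PowerSeries.derivative_pow, Nat.add_sub_cancel]
    ring

private lemma h4_main {T : K[X]} {A : Matrix β β K[X]} {D : ℕ} (hT : T.natDegree ≤ D)
    (hA : ∀ i l, (A i l).natDegree ≤ D) {a : Matrix β β (PowerSeries K)}
    (ha : ∀ i l, (((A i l).reflect D : K[X]) : PowerSeries K) =
      ((T.reflect D : K[X]) : PowerSeries K) * a i l)
    {B : ℕ → Matrix β β (PowerSeries K)} (h0 : B 0 = 1)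
    (hB : ∀ n i l, ((n + 1 : ℕ) : PowerSeries K) * B (n + 1) i l =
      -(PowerSeries.X ^ 2 * PowerSeries.derivative K (B n i l)) + ∑ m, B n i m * a m l)
    (n : ℕ) (i l : β) : (((betaF T A n i l).reflect (n * D) : K[X]) : PowerSeries K) =
      ((T.reflect D : K[X]) : PowerSeries K) ^ n * B n i l := by
  induction n generalizing i l with
  | zero =>
    rw [h0, pow_zero, one_mul]
    show ((((1 : Matrix β β K[X]) i l).reflect (0 * D) : K[X]) : PowerSeries K) =
      (1 : Matrix β β (PowerSeries K)) i l
    rw [Matrix.one_apply, Matrix.one_apply, zero_mul]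
    split_ifs
    · rw [reflect_one, pow_zero, Polynomial.coe_one]
    · rw [reflect_zero, Polynomial.coe_zero]
  | succ n ih =>
    set Th : PowerSeries K := ((T.reflect D : K[X]) : PowerSeries K) with hTh
    have hn : (((n + 1 : ℕ) : PowerSeries K)) ≠ 0 := by
      intro h
      have h' := congrArg (PowerSeries.constantCoeff (R := K)) h
      rw [map_natCast, map_zero] at h'
      exact Nat.cast_ne_zero.2 (Nat.succ_ne_zero n) h'
    apply mul_left_cancel₀ hn
    have e : (n + 1) * D = D + n * D := by ring
    have hdeg := h4_beta_deg hT hA n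
    have h1 : (((n + 1 : ℕ) : PowerSeries K)) *
        (((betaF T A (n + 1) i l).reflect ((n + 1) * D) : K[X]) : PowerSeries K) =
        (((C ((n : K) + 1) * betaF T A (n + 1) i l).reflect ((n + 1) * D) : K[X]) :
          PowerSeries K) := by
      rw [reflect_C_mul, Polynomial.coe_mul, Polynomial.coe_C]
      congr 1
      rw [map_add, map_natCast, map_one]
      push_cast
      ring
    rw [h1, h4_beta_mul, e, reflect_add, h4_refl_sub, h4_refl_sum,
      reflect_mul _ _ hT ((natDegree_derivative_le _).trans ((Nat.sub_le _ _).trans (hdeg i l))),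
      mul_assoc (C (n : K)), reflect_C_mul,
      reflect_mul _ _ ((natDegree_derivative_le _).trans ((Nat.sub_le _ _).trans hT)) (hdeg i l),
      h4_refl_der _ (hdeg i l), h4_refl_der _ hT]
    have h2 : ∀ m, (betaF T A n i m * A m l).reflect (D + n * D) =
        (betaF T A n i m).reflect (n * D) * (A m l).reflect D := by
      intro m
      rw [Nat.add_comm]
      exact reflect_mul _ _ (hdeg i m) (hA m l)
    rw [Finset.sum_congr rfl fun m _ => h2 m]
    have h3 : ((((∑ m, (betaF T A n i m).reflect (n * D) * (A m l).reflect D) : K[X])) :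
        PowerSeries K) = Th ^ (n + 1) * ∑ m, B n i m * a m l := by
      rw [← Polynomial.coeToPowerSeries.ringHom_apply, map_sum, Finset.mul_sum]
      refine Finset.sum_congr rfl fun m _ => ?_
      rw [map_mul, Polynomial.coeToPowerSeries.ringHom_apply,
        Polynomial.coeToPowerSeries.ringHom_apply, ih, ha]
      ring
    rw [Polynomial.coe_add, h3, Polynomial.coe_sub]
    simp only [Polynomial.coe_mul, Polynomial.coe_sub, Polynomial.coe_C, Polynomial.coe_X,
      ← PowerSeries.derivative_coe, ih, ← hTh]
    have h4 : ((n + 1 : ℕ) : PowerSeries K) * (Th ^ (n + 1) * B (n + 1) i l) =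
        Th ^ (n + 1) * (-(PowerSeries.X ^ 2 * PowerSeries.derivative K (B n i l)) +
          ∑ m, B n i m * a m l) := by
      rw [← hB]
      ring
    rw [h4]
    have h5 := h4_pow_der Th n
    have h6 : PowerSeries.derivative K (Th ^ n * B n i l) =
        Th ^ n * PowerSeries.derivative K (B n i l) +
          B n i l * PowerSeries.derivative K (Th ^ n) := by
      rw [Derivation.leibniz, smul_eq_mul, smul_eq_mul]
    rw [h6]
    have h7 : (PowerSeries.C ((n * D : ℕ) : K)) = (n : PowerSeries K) * (D : PowerSeries K) := by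
      rw [map_natCast]
      push_cast
      ring
    have h8 : (PowerSeries.C (n : K)) = (n : PowerSeries K) := map_natCast _ _
    have h9 : (PowerSeries.C (D : K)) = (D : PowerSeries K) := map_natCast _ _
    rw [h7, h8, h9]
    linear_combination (-(PowerSeries.X ^ 2 * B n i l)) * h5

end beta

theorem gal_of_B {K : Type} [Field K] [CharZero K] {β : Type} [Fintype β] [DecidableEq β]
    {T : ℤ[X]} (hT : T ≠ 0) {A : Matrix β β K[X]}
    (hdeg : ∀ i l, (A i l).natDegree ≤ T.natDegree) {a : Matrix β β (PowerSeries K)}
    (hA : ∀ i l, (((A i l).reflect T.natDegree : K[X]) : PowerSeries K) =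
      (((T.map (Int.castRingHom K)).reflect T.natDegree : K[X]) : PowerSeries K) * a i l)
    {B : ℕ → Matrix β β (PowerSeries K)} (h0 : B 0 = 1)
    (hB : ∀ n i l, ((n + 1 : ℕ) : PowerSeries K) * B (n + 1) i l =
      -(PowerSeries.X ^ 2 * PowerSeries.derivative K (B n i l)) + ∑ m, B n i m * a m l)
    (hbd : ∃ H : ℕ, ∀ N : ℕ, ∃ q : ℕ, 0 < q ∧ q ≤ H ^ (N + 1) ∧ ∀ n m, n + m ≤ N → ∀ i l,
      IsIntegral ℤ ((q : K) * PowerSeries.coeff m (B n i l))) :
    ∃ H : ℕ, GalF (T.map (Int.castRingHom K)) A H := by
  obtain ⟨H, hH⟩ := hbd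
  have hH1 : 1 ≤ H := by
    obtain ⟨q, h1, h2, -⟩ := hH 0
    rw [zero_add, pow_one] at h2
    omega
  set D := T.natDegree with hD
  have hTd : (T.map (Int.castRingHom K)).natDegree ≤ D := natDegree_map_le
  refine ⟨H ^ (D + 1), fun j => ?_⟩
  obtain ⟨q, hq0, hq, hint⟩ := hH (j * (D + 1))
  refine ⟨q, hq0, hq.trans ?_, ?_⟩
  · rw [← pow_mul]
    apply Nat.pow_le_pow_right hH1
    nlinarith
  · intro n hn i l m
    have hmain := h4_main hTd hdeg hA h0 hB n i l
    have hdegn := h4_beta_deg hTd hdeg n i l
    rcases Nat.lt_or_ge (n * D) m with hm | hm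
    · rw [coeff_eq_zero_of_natDegree_lt (lt_of_le_of_lt hdegn hm), mul_zero]
      exact isIntegral_zero
    · have h1 : (betaF (T.map (Int.castRingHom K)) A n i l).coeff m =
          PowerSeries.coeff (n * D - m) ((((T.map (Int.castRingHom K)).reflect D : K[X]) :
            PowerSeries K) ^ n * B n i l) := by
        rw [← hmain, Polynomial.coeff_coe, coeff_reflect, revAt_le (Nat.sub_le _ _),
          Nat.sub_sub_self hm]
      have h2 : (((T.map (Int.castRingHom K)).reflect D : K[X]) : PowerSeries K) ^ n =
          ((((T.reflect D) ^ n).map (Int.castRingHom K) : K[X]) : PowerSeries K) := by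
        rw [reflect_map, Polynomial.map_pow, Polynomial.coe_pow]
      rw [h1, h2, PowerSeries.coeff_mul, Finset.mul_sum]
      apply IsIntegral.sum
      intro p hp
      have hp' : p.1 + p.2 = n * D - m := Finset.HasAntidiagonal.mem_antidiagonal.1 hp
      rw [Polynomial.coeff_coe, coeff_map]
      have h3 : (q : K) * ((Int.castRingHom K) (((T.reflect D) ^ n).coeff p.1) *
          PowerSeries.coeff p.2 (B n i l)) = (Int.castRingHom K) (((T.reflect D) ^ n).coeff p.1) *
          ((q : K) * PowerSeries.coeff p.2 (B n i l)) := by ring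
      rw [h3]
      apply IsIntegral.mul
      · exact isIntegral_algebraMap (R := ℤ) (A := K)
      · apply hint
        have h4 : n * D ≤ j * D := Nat.mul_le_mul_right D hn
        have h5 : j * (D + 1) = j * D + j := by ring
        omega

end Pool.Agent.Helper79.SE
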