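import Pool.Agent.Helper79.SE.Defs

/-!
# SE-04: reduction of forms modulo exact forms

`ex ν f (x^k) = k x^(k-1) f + (1 + ν) x^k f'` has degree `k + d - 1` and leading coefficient `k + (1 + ν) d`, a nonzero rational number (`ν > -1`, `d ≥ 1`). So `R[x]` is the direct sum of the
free modules spanned by `x^i`, `i < d - 1`, and by the `ex ν f (x^k)`, `k ≥ 0` (`ex ν f` is `R`-linear): existence by induction on the degree, uniqueness by looking at the leading coefficient
(or define `cl` on the basis `x^N` by strong recursion on `N`: `cl (x^N) = e_N` for `N < d - 1`, and for `N = k + d - 1`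
`cl (x^N) = (k + (1+ν) d)⁻¹ cl ((k + (1+ν) d) x^N - ex ν f (x^k))`, a combination of lower ones; then `cl (ex ν f (x^k)) = 0` by construction and `ex` is linear).

`exists_gm`: put `p_i = ν x^i f₁ α - (x^i f₁ β)'`, write `p_i = ∑ A_il x^l + ex ν f q_i`, `g_i = x^i f₁ β + q_i f`.
Then `f (∑ A_il x^l + g_i') + ν g_i f' = f (p_i - q_i' f - (1+ν) q_i f' + (x^i f₁ β)' + q_i' f + q_i f') + ν x^i f₁ β f' + ν q_i f f' = f (p_i + (x^i f₁ β)') + ν x^i f₁ β f'
= ν x^i f₁ (α f + β f') = ν T₁ x^i f₁`.
-/

open Polynomial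

namespace Pool.Agent.Helper79.SE

variable {R : Type} [CommRing R] [Algebra ℚ R]

/-- The coefficient of `ex ν f q` in degree `k + e`, where `q` has degree at most `k`. -/
theorem ex_coeff_top {f : R[X]} (hf : f.Monic) {e : ℕ} (hd : f.natDegree = e + 1) (ν : ℚ)
    {q : R[X]} {k : ℕ} (hq : q.natDegree ≤ k) :
    (ex ν f q).coeff (k + e) = ((k : ℚ) + (1 + ν) * ((e : ℚ) + 1)) • q.coeff k := by
  have hfl : f.coeff (e + 1) = 1 := by rw [← hd]; exact hf.coeff_natDegree
  have h1 : (derivative q * f).coeff (k + e) = (k : ℚ) • q.coeff k := by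
    rcases k with _ | k
    · have h0 : derivative q = 0 := derivative_of_natDegree_zero (Nat.le_zero.mp hq)
      simp [h0]
    · have h : (derivative q * f).coeff (k + (e + 1)) = (derivative q).coeff k * f.coeff (e + 1) :=
        coeff_mul_add_eq_of_natDegree_le ((natDegree_derivative_le q).trans (by omega)) hd.le
      rw [show k + 1 + e = k + (e + 1) by ring, h, coeff_derivative, hfl, mul_one,
        Algebra.smul_def]
      simp only [map_natCast]
      push_cast
      ring
  have h2 : (q * derivative f).coeff (k + e) = ((e : ℚ) + 1) • q.coeff k := by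
    rw [coeff_mul_add_eq_of_natDegree_le hq ((natDegree_derivative_le f).trans (by omega)),
      coeff_derivative, hfl, one_mul, Algebra.smul_def]
    simp only [map_add, map_natCast, map_one]
    ring
  rw [ex, coeff_add, coeff_smul, h1, h2, smul_smul, ← add_smul]

/-- The degree of `ex ν f q`. -/
theorem ex_natDegree_le {f : R[X]} {e : ℕ} (hd : f.natDegree = e + 1) (ν : ℚ)
    {q : R[X]} {k : ℕ} (hq : q.natDegree ≤ k) : (ex ν f q).natDegree ≤ k + e := by
  refine (natDegree_add_le _ _).trans (max_le ?_ ?_)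
  · rcases k with _ | k
    · have h0 : derivative q = 0 := derivative_of_natDegree_zero (Nat.le_zero.mp hq)
      simp [h0]
    · refine natDegree_mul_le.trans ?_
      have := natDegree_derivative_le q
      omega
  · refine (natDegree_smul_le _ _).trans (natDegree_mul_le.trans ?_)
    have := natDegree_derivative_le f
    omega

/-- `ex ν f` as a linear map. -/
noncomputable def exL (ν : ℚ) (f : R[X]) : R[X] →ₗ[R] R[X] where
  toFun q := ex ν f q
  map_add' p q := by
    simp only [ex, map_add, Algebra.smul_def]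
    ring
  map_smul' r q := by
    simp only [ex, Algebra.smul_def, RingHom.id_apply, derivative_mul, derivative_C, zero_mul,
      zero_add, Polynomial.algebraMap_apply, Algebra.algebraMap_self, RingHom.id_apply]
    ring

/-- The decomposition map. -/
noncomputable def phiL (ν : ℚ) (f : R[X]) (e : ℕ) : ((Fin e → R) × R[X]) →ₗ[R] R[X] where
  toFun v := ∑ i : Fin e, C (v.1 i) * X ^ (i : ℕ) + ex ν f v.2
  map_add' v w := by
    have h := (exL ν f).map_add v.2 w.2
    change ex ν f (v.2 + w.2) = ex ν f v.2 + ex ν f w.2 at h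
    simp only [Prod.fst_add, Prod.snd_add, Pi.add_apply, map_add, add_mul, Finset.sum_add_distrib, h]
    ring
  map_smul' r v := by
    have h := (exL ν f).map_smul r v.2
    change ex ν f (r • v.2) = r • ex ν f v.2 at h
    simp only [Prod.smul_fst, Prod.smul_snd, Pi.smul_apply, h, smul_add, Finset.smul_sum,
      RingHom.id_apply, smul_eq_mul, map_mul]
    simp only [smul_eq_C_mul, mul_assoc]

theorem phiL_apply (ν : ℚ) (f : R[X]) (e : ℕ) (v : (Fin e → R) × R[X]) :
    phiL ν f e v = ∑ i : Fin e, C (v.1 i) * X ^ (i : ℕ) + ex ν f v.2 := rfl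

theorem ex_zero (ν : ℚ) (f : R[X]) : ex ν f 0 = 0 := by
  simp [ex]

omit [Algebra ℚ R] in
theorem coeff_low {e : ℕ} (a : Fin e → R) (n : ℕ) :
    (∑ i : Fin e, C (a i) * X ^ (i : ℕ) : R[X]).coeff n =
      if h : n < e then a ⟨n, h⟩ else 0 := by
  rw [finsetSum_coeff]
  simp only [coeff_C_mul, coeff_X_pow]
  split_ifs with h
  · rw [Finset.sum_eq_single (⟨n, h⟩ : Fin e)]
    · simp
    · intro b _ hb
      rw [if_neg, mul_zero]
      intro hn
      exact hb (Fin.ext hn.symm)
    · intro hn
      exact absurd (Finset.mem_univ _) hn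
  · refine Finset.sum_eq_zero fun i _ => ?_
    rw [if_neg, mul_zero]
    intro hn
    exact h (hn ▸ i.2)

theorem phiL_inj {f : R[X]} (hf : f.Monic) {e : ℕ} (hd : f.natDegree = e + 1) {ν : ℚ}
    (hν : -1 < ν) : Function.Injective (phiL ν f e) := by
  rw [injective_iff_map_eq_zero]
  rintro ⟨a, q⟩ h
  rw [phiL_apply] at h
  simp only at h
  have hq : q = 0 := by
    by_contra hq0
    have h1 := congrArg (fun p : R[X] => p.coeff (q.natDegree + e)) h
    simp only [coeff_add, coeff_zero] at h1
    rw [coeff_low, dif_neg (by omega), zero_add, ex_coeff_top hf hd ν le_rfl] at h1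
    have hc : ((q.natDegree : ℚ) + (1 + ν) * ((e : ℚ) + 1)) ≠ 0 := by
      have h2 : 0 < (1 + ν) * ((e : ℚ) + 1) := by
        have : (0 : ℚ) < 1 + ν := by linarith
        positivity
      positivity
    have h3 : q.coeff q.natDegree = 0 := by
      have := congrArg (fun r : R => (((q.natDegree : ℚ) + (1 + ν) * ((e : ℚ) + 1))⁻¹) • r) h1
      simpa [smul_smul, inv_mul_cancel₀ hc] using this
    exact hq0 (leadingCoeff_eq_zero.mp h3)
  subst hq
  rw [ex_zero, add_zero] at h
  have ha : a = 0 := by
    funext i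
    have h1 := congrArg (fun p : R[X] => p.coeff (i : ℕ)) h
    simp only [coeff_zero] at h1
    rw [coeff_low, dif_pos i.2] at h1
    exact h1
  rw [ha]
  rfl

theorem phiL_surj {f : R[X]} (hf : f.Monic) {e : ℕ} (hd : f.natDegree = e + 1) {ν : ℚ}
    (hν : -1 < ν) : Function.Surjective (phiL ν f e) := by
  have key : ∀ n : ℕ, ∀ p : R[X], p.degree < n → p ∈ LinearMap.range (phiL ν f e) := by
    intro n
    induction n with
    | zero =>
      intro p hp
      have : p = 0 := by
        rw [← degree_eq_bot]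
        rw [Nat.cast_zero] at hp
        exact Nat.WithBot.lt_zero_iff.mp hp
      rw [this]
      exact Submodule.zero_mem _
    | succ n ih =>
      intro p hp
      by_cases hn : n < e
      · refine ⟨(fun i => p.coeff i, 0), ?_⟩
        rw [phiL_apply]
        simp only [ex_zero, add_zero]
        ext m
        rw [coeff_low]
        split_ifs with hm
        · rfl
        · symm
          apply coeff_eq_zero_of_degree_lt
          refine hp.trans_le ?_
          exact_mod_cast (by omega : n + 1 ≤ m)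
      · push Not at hn
        obtain ⟨k, rfl⟩ := Nat.exists_eq_add_of_le' hn
        set c : ℚ := ((k : ℚ) + (1 + ν) * ((e : ℚ) + 1)) with hcdef
        have hc : c ≠ 0 := by
          have h2 : 0 < (1 + ν) * ((e : ℚ) + 1) := by
            have : (0 : ℚ) < 1 + ν := by linarith
            positivity
          positivity
        set q : R[X] := C (c⁻¹ • p.coeff (k + e)) * X ^ k with hqdef
        have hqd : q.natDegree ≤ k := natDegree_C_mul_X_pow_le _ _
        have hqk : q.coeff k = c⁻¹ • p.coeff (k + e) := by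
          rw [hqdef, coeff_C_mul, coeff_X_pow, if_pos rfl, mul_one]
        have hlt : (p - ex ν f q).degree < ((k + e : ℕ) : WithBot ℕ) := by
          rw [degree_lt_iff_coeff_zero]
          intro m hm
          rw [coeff_sub]
          rcases hm.eq_or_lt with h | h
          · rw [← h, ex_coeff_top hf hd ν hqd, hqk, ← hcdef, smul_smul, mul_inv_cancel₀ hc,
              one_smul, sub_self]
          · rw [coeff_eq_zero_of_natDegree_lt ((ex_natDegree_le hd ν hqd).trans_lt h), sub_zero]
            apply coeff_eq_zero_of_degree_lt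
            refine hp.trans_le ?_
            exact_mod_cast (by omega : k + e + 1 ≤ m)
        have h1 := ih _ hlt
        have h2 : ex ν f q ∈ LinearMap.range (phiL ν f e) := by
          refine ⟨(0, q), ?_⟩
          rw [phiL_apply]
          simp
        have h3 := Submodule.add_mem _ h1 h2
        rwa [sub_add_cancel] at h3
  intro p
  obtain ⟨v, hv⟩ := key (p.natDegree + 1) p (by
    refine degree_le_natDegree.trans_lt ?_
    exact_mod_cast Nat.lt_succ_self _)
  exact ⟨v, hv⟩

theorem exists_red {f : R[X]} (hf : f.Monic) {d : ℕ} (hd : f.natDegree = d) (hd1 : 1 ≤ d) {ν : ℚ}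
    (hν : -1 < ν) : ∃ cl : R[X] →ₗ[R] (Fin (d - 1) → R),
      (∀ i : Fin (d - 1), cl (X ^ (i : ℕ)) = Pi.single i 1) ∧ (∀ q, cl (ex ν f q) = 0) ∧
      ∀ p, ∃ q, p = ∑ i : Fin (d - 1), C (cl p i) * X ^ (i : ℕ) + ex ν f q := by
  obtain ⟨e, rfl⟩ := Nat.exists_eq_add_of_le' hd1
  rw [Nat.add_sub_cancel]
  let E : ((Fin e → R) × R[X]) ≃ₗ[R] R[X] :=
    LinearEquiv.ofBijective (phiL ν f e) ⟨phiL_inj hf hd hν, phiL_surj hf hd hν⟩
  have hE : ∀ v, E v = ∑ i : Fin e, C (v.1 i) * X ^ (i : ℕ) + ex ν f v.2 := fun v => rfl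
  refine ⟨(LinearMap.fst R (Fin e → R) R[X]).comp E.symm.toLinearMap, ?_, ?_, ?_⟩
  · intro i
    have h : E (Pi.single i 1, 0) = X ^ (i : ℕ) := by
      rw [hE]
      simp only [ex_zero, add_zero]
      rw [Finset.sum_eq_single i]
      · simp
      · intro b _ hb
        simp [Pi.single_eq_of_ne hb]
      · intro hn
        exact absurd (Finset.mem_univ _) hn
    simp only [LinearMap.comp_apply, LinearEquiv.coe_coe, ← h, LinearEquiv.symm_apply_apply]
    rfl
  · intro q
    have h : E (0, q) = ex ν f q := by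
      rw [hE]
      simp
    simp only [LinearMap.comp_apply, LinearEquiv.coe_coe, ← h, LinearEquiv.symm_apply_apply]
    rfl
  · intro p
    refine ⟨(E.symm p).2, ?_⟩
    have h := hE (E.symm p)
    rw [LinearEquiv.apply_symm_apply] at h
    exact h

theorem exists_gm {f : R[X]} (hf : f.Monic) {d : ℕ} (hd : f.natDegree = d) (hd1 : 1 ≤ d) {ν : ℚ}
    (hν : -1 < ν) {α β : R[X]} {T₁ : R} (h : α * f + β * derivative f = C T₁) (f₁ : R[X]) :
    ∃ (A : Matrix (Fin (d - 1)) (Fin (d - 1)) R) (g : Fin (d - 1) → R[X]), ∀ i : Fin (d - 1),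
      ν • (C T₁ * (X ^ (i : ℕ) * f₁)) =
        f * (∑ l : Fin (d - 1), C (A i l) * X ^ (l : ℕ) + derivative (g i)) +
          ν • (g i * derivative f) := by
  obtain ⟨cl, -, -, hcl⟩ := exists_red hf hd hd1 hν
  choose q hq using fun i : Fin (d - 1) =>
    hcl (ν • (X ^ (i : ℕ) * f₁ * α) - derivative (X ^ (i : ℕ) * f₁ * β))
  refine ⟨Matrix.of fun i l => cl (ν • (X ^ (i : ℕ) * f₁ * α) - derivative (X ^ (i : ℕ) * f₁ * β)) l,
    fun i => X ^ (i : ℕ) * f₁ * β + q i * f, fun i => ?_⟩
  have h1 := hq i
  simp only [Matrix.of_apply]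
  rw [← sub_eq_iff_eq_add] at h1
  rw [← h1, ← h, derivative_add, derivative_mul (f := q i)]
  simp only [ex, Algebra.smul_def, map_add, map_one]
  ring

end Pool.Agent.Helper79.SE
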