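import Pool.Agent.Helper79.SE.Bpow
import Pool.Agent.Helper79.SE.Red

/-!
# SE-06: transport of the forms along the lift, differential equation and bounds

`x̃ = x + U`, `p̃ = evt D x̃ p`, `J = 1 + dX U`, `Θ_i = x̃^i`, `τ_i = Θ_i G^ν J` (`G^ν = bpow ν G`); `hatB ν U G cl i l` is the `l`-th component of the class of `τ_i`.

* `hat_zero`: the constant coefficient of `τ_i` is `x^i`.
* `hat_ode`. `∂` = derivative with respect to `h`. By `evt_dh`, `evt_dX`, and `f̃ = f G` (`hG`): `f ∂G = (dc D f)~ + (f')~ ∂U`, `(f')~ J = f' G + f dX G`; `∂J = dX (∂U)`.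
  Put `g̃_i = (g_i)~`, `W = (g̃_i + Θ_i ∂U) G^ν`, `Δ = ∂τ_i - ∑_l tayX(a_il) τ_l`. From `star` (apply `evt D x̃`): `ν Θ_i (dc D f)~ = f̃ (∑_l tayX(a_il) Θ_l + (g_i')~) + ν g̃_i (f')~`.
  Multiply with `G` where needed (`G (bpow ν G)' = ν bpow ν G G'`, `G` is a unit, a nonzero divisor) to get
  `f Δ = f dX W + ν f' W`. (Computation: `f Δ = f (Θ_i' ∂U J + Θ_i dX ∂U) G^ν + f ν Θ_i G^(ν-1) ∂G J - f ∑ …`, insert `f ∂G`, `star`, `f̃ = f G`, `(f')~ J`.)
  Hence `ν f' W = f (Δ - dX W)` and `W = (α f + β f') W = f W'` with `W' = α W + ν⁻¹ β (Δ - dX W)`; so `f Δ = f (f dX W' + (1+ν) f' W')` and `Δ = f dX W' + (1+ν) f' W'` (`f` monic),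
  i.e. every coefficient of `Δ` is `ex ν f (…)`, and `clS cl Δ = 0`. Conclude with `clS_add`, `clS_tayX`, `clS_deriv`.
* `hat_bound`: `τ_i` has linear growth (`LinG`: `x̃` has, `bpow_linG`, `J`; products: `(n_1+1) + (n_2+1) ≤ 2 (n+1)`); the coefficient `n ≤ N` of `τ_i` is a combination of `x^M`,
  `M ≤ c (N+1)`, with coefficients in `I(c (N+1))`; apply `hred` with `c (N+1)`.
-/

open Polynomial

namespace Pool.Agent.Helper79.SE

variable {R : Type} [CommRing R] [Algebra ℚ R]

/-- The components of the class of the transported form. -/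
noncomputable def hatB {k : ℕ} (ν : ℚ) (U G : PowerSeries R[X]) (cl : R[X] →ₗ[R] (Fin k → R))
    (i l : Fin k) : PowerSeries R :=
  clS cl ((PowerSeries.C X + U) ^ (i : ℕ) * bpow ν G * (1 + dX U)) l

/-! ### Linear growth -/

theorem linG_mono {D : Derivation ℚ R R} {S : Filt D} {c c' : ℕ} {F : PowerSeries R[X]}
    (hF : LinG S c F) (h : c ≤ c') : LinG S c' F := fun n =>
  ⟨(hF n).1.trans (Nat.mul_le_mul_right _ h),
    fun k => S.mono (Nat.mul_le_mul_right _ h) ((hF n).2 k)⟩

theorem linG_add {D : Derivation ℚ R R} {S : Filt D} {c c' : ℕ} {F G : PowerSeries R[X]}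
    (hF : LinG S c F) (hG : LinG S c' G) : LinG S (c + c') (F + G) := by
  intro n
  have h1 := linG_mono hF (Nat.le_add_right c c') n
  have h2 := linG_mono hG (Nat.le_add_left c' c) n
  refine ⟨?_, fun k => ?_⟩
  · rw [map_add]
    exact (natDegree_add_le _ _).trans (max_le h1.1 h2.1)
  · rw [map_add, coeff_add]
    exact AddSubgroup.add_mem _ (h1.2 k) (h2.2 k)

theorem natDegree_sum_le' {ι : Type} (s : Finset ι) (F : ι → R[X]) (n : ℕ)
    (h : ∀ i ∈ s, (F i).natDegree ≤ n) : (∑ i ∈ s, F i).natDegree ≤ n :=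
  natDegree_sum_le_of_forall_le s F h

theorem linG_mul {D : Derivation ℚ R R} {S : Filt D} {c c' : ℕ} {F G : PowerSeries R[X]}
    (hF : LinG S c F) (hG : LinG S c' G) : LinG S (c + c') (F * G) := by
  intro n
  have key : ∀ p ∈ Finset.HasAntidiagonal.antidiagonal n, c * (p.1 + 1) + c' * (p.2 + 1) ≤ (c + c') * (n + 1) := by
    intro p hp
    have h := Finset.HasAntidiagonal.mem_antidiagonal.1 hp
    have h1 : p.1 + 1 ≤ n + 1 := by omega
    have h2 : p.2 + 1 ≤ n + 1 := by omega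
    calc c * (p.1 + 1) + c' * (p.2 + 1) ≤ c * (n + 1) + c' * (n + 1) :=
          add_le_add (Nat.mul_le_mul_left _ h1) (Nat.mul_le_mul_left _ h2)
      _ = (c + c') * (n + 1) := by ring
  rw [PowerSeries.coeff_mul]
  refine ⟨natDegree_sum_le' _ _ _ fun p hp => ?_, fun k => ?_⟩
  · exact (natDegree_mul_le).trans ((add_le_add (hF p.1).1 (hG p.2).1).trans (key p hp))
  · rw [finset_sum_coeff]
    refine AddSubgroup.sum_mem _ fun p hp => ?_
    rw [coeff_mul]
    refine AddSubgroup.sum_mem _ fun r _ => ?_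
    exact S.mono (key p hp) (S.mul ((hF p.1).2 r.1) ((hG p.2).2 r.2))

theorem linG_one {D : Derivation ℚ R R} (S : Filt D) : LinG S 0 (1 : PowerSeries R[X]) := by
  intro n
  rw [PowerSeries.coeff_one]
  split_ifs with hn
  · refine ⟨by simp, fun k => ?_⟩
    rw [coeff_one]
    split_ifs
    · exact S.mono (Nat.zero_le _) S.one
    · exact AddSubgroup.zero_mem _
  · refine ⟨by simp, fun k => ?_⟩
    rw [coeff_zero]
    exact AddSubgroup.zero_mem _

theorem linG_CX {D : Derivation ℚ R R} (S : Filt D) :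
    LinG S 1 (PowerSeries.C (X : R[X]) : PowerSeries R[X]) := by
  intro n
  rw [PowerSeries.coeff_C]
  split_ifs with hn
  · refine ⟨?_, fun k => ?_⟩
    · exact natDegree_X_le.trans (by omega)
    · rw [coeff_X]
      split_ifs
      · exact S.mono (Nat.zero_le _) S.one
      · exact AddSubgroup.zero_mem _
  · refine ⟨by simp, fun k => ?_⟩
    rw [coeff_zero]
    exact AddSubgroup.zero_mem _

theorem linG_pow {D : Derivation ℚ R R} {S : Filt D} {c : ℕ} {F : PowerSeries R[X]}
    (hF : LinG S c F) (i : ℕ) : LinG S (i * c) (F ^ i) := by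
  induction i with
  | zero => rw [Nat.zero_mul, pow_zero]; exact linG_one S
  | succ i ih =>
    rw [pow_succ, Nat.succ_mul]
    exact linG_mul ih hF

theorem linG_dX {D : Derivation ℚ R R} {S : Filt D} {c : ℕ} {F : PowerSeries R[X]}
    (hF : LinG S c F) : LinG S c (dX F) := by
  intro n
  unfold dX
  rw [PowerSeries.coeff_mk]
  refine ⟨(natDegree_derivative_le _).trans ((Nat.sub_le _ _).trans (hF n).1), fun k => ?_⟩
  rw [coeff_derivative]
  have h : (PowerSeries.coeff n F).coeff (k + 1) * ((k : R) + 1) =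
      (k + 1) • (PowerSeries.coeff n F).coeff (k + 1) := by
    rw [nsmul_eq_mul, mul_comm, Nat.cast_add, Nat.cast_one]
  rw [h]
  exact AddSubgroup.nsmul_mem _ ((hF n).2 (k + 1)) (k + 1)

/-! ### The ring identities -/

theorem core_id {A : Type} [CommRing A] (f f' ft' G dhG dxG dhU dhJ J B dhB dxB Θ Θ' gt gt' Su dcf
    ν : A) (h1 : f * dhG = dcf + ft' * dhU) (h2 : ft' * J = f' * G + f * dxG)
    (h3 : ν * (Θ * dcf) = f * G * (Su + gt') + ν * (gt * ft'))
    (h4 : G * dhB = ν * (B * dhG)) (h5 : G * dxB = ν * (B * dxG)) :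
    G * (f * (Θ' * dhU * B * J + Θ * dhB * J + Θ * B * dhJ - Su * B * J)) =
      G * (f * ((gt' * J + (Θ' * J * dhU + Θ * dhJ)) * B + (gt + Θ * dhU) * dxB) +
        ν * (f' * ((gt + Θ * dhU) * B))) := by
  linear_combination (f * Θ * J) * h4 + (ν * B * Θ * J) * h1 + (B * J) * h3 +
    (ν * B * (gt + Θ * dhU)) * h2 - (f * (gt + Θ * dhU)) * h5

theorem C_mul_cancel {f : R[X]} (hf : f.Monic) {F G : PowerSeries R[X]}
    (h : PowerSeries.C f * F = PowerSeries.C f * G) : F = G := by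
  ext1 n
  have h' := congrArg (PowerSeries.coeff n) h
  rw [PowerSeries.coeff_C_mul, PowerSeries.coeff_C_mul] at h'
  exact hf.isRegular.left h'

theorem unit_cancel {A : Type} [CommRing A] {G F H : PowerSeries A}
    (hG1 : PowerSeries.constantCoeff G = 1) (h : G * F = G * H) : F = H := by
  have hu : IsUnit G := by
    rw [PowerSeries.isUnit_iff_constantCoeff, hG1]
    exact isUnit_one
  exact hu.mul_left_cancel h

theorem dc_X_pow (D : Derivation ℚ R R) (i : ℕ) : dc D (X ^ i : R[X]) = 0 := by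
  ext n
  rw [coeff_dc, coeff_X_pow, coeff_zero]
  split_ifs
  · exact D.map_one_eq_zero
  · exact map_zero D

theorem der_mul {A : Type} [CommRing A] (F G : PowerSeries A) :
    PowerSeries.derivative A (F * G) =
      PowerSeries.derivative A F * G + F * PowerSeries.derivative A G := by
  rw [Derivation.leibniz, smul_eq_mul, smul_eq_mul]
  ring

theorem der_one {A : Type} [CommRing A] :
    PowerSeries.derivative A (1 : PowerSeries A) = 0 :=
  (PowerSeries.derivative A).map_one_eq_zero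

theorem dX_one : dX (1 : PowerSeries R[X]) = 0 := by
  rw [← map_one (PowerSeries.C (R := R[X])), dX_C, derivative_one, map_zero]

theorem hat_coeff_dX (F : PowerSeries R[X]) (n : ℕ) :
    PowerSeries.coeff n (dX F) = derivative (PowerSeries.coeff n F) := by
  unfold dX
  rw [PowerSeries.coeff_mk]

theorem clS_zero {k : ℕ} (cl : R[X] →ₗ[R] (Fin k → R)) (i : Fin k) :
    clS cl (0 : PowerSeries R[X]) i = 0 := by
  ext n
  unfold clS
  rw [PowerSeries.coeff_mk, map_zero, map_zero, Pi.zero_apply, map_zero]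

theorem clS_sum {k : ℕ} (cl : R[X] →ₗ[R] (Fin k → R)) {ι : Type} (s : Finset ι)
    (F : ι → PowerSeries R[X]) (i : Fin k) :
    clS cl (∑ j ∈ s, F j) i = ∑ j ∈ s, clS cl (F j) i := by
  classical
  induction s using Finset.induction_on with
  | empty => rw [Finset.sum_empty, Finset.sum_empty, clS_zero]
  | insert a s ha ih => rw [Finset.sum_insert ha, Finset.sum_insert ha, clS_add, ih]

/-- The classes of the exact forms vanish. -/
theorem clS_ex {k : ℕ} {ν : ℚ} {f : R[X]} {cl : R[X] →ₗ[R] (Fin k → R)}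
    (h2 : ∀ q, cl (ex ν f q) = 0) (W : PowerSeries R[X]) (i : Fin k) :
    clS cl (PowerSeries.C f * dX W + (1 + ν) • (PowerSeries.C (derivative f) * W)) i = 0 := by
  ext n
  unfold clS
  rw [PowerSeries.coeff_mk, map_add, PowerSeries.coeff_C_mul, hat_coeff_dX, map_zero]
  have hs : PowerSeries.coeff n ((1 + ν) • (PowerSeries.C (derivative f) * W)) =
      (1 + ν) • (derivative f * PowerSeries.coeff n W) := by
    rw [← PowerSeries.coeff_C_mul]
    rfl
  rw [hs]
  have := h2 (PowerSeries.coeff n W)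
  unfold ex at this
  rw [mul_comm f, mul_comm (derivative f), this, Pi.zero_apply]

theorem hat_zero {k : ℕ} {ν : ℚ} {U G : PowerSeries R[X]} {cl : R[X] →ₗ[R] (Fin k → R)}
    (h1 : ∀ i : Fin k, cl (X ^ (i : ℕ)) = Pi.single i 1)
    (hU : PowerSeries.constantCoeff U = 0) (hG1 : PowerSeries.constantCoeff G = 1)
    (i l : Fin k) :
    PowerSeries.constantCoeff (hatB ν U G cl i l) = if i = l then 1 else 0 := by
  have hcc : PowerSeries.constantCoeff (hatB ν U G cl i l) =
      cl (PowerSeries.coeff 0 ((PowerSeries.C X + U) ^ (i : ℕ) * bpow ν G * (1 + dX U))) l := by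
    unfold hatB clS
    rw [← PowerSeries.coeff_zero_eq_constantCoeff_apply, PowerSeries.coeff_mk]
  have hd : PowerSeries.constantCoeff (dX U) = 0 := by
    rw [← PowerSeries.coeff_zero_eq_constantCoeff_apply, hat_coeff_dX,
      PowerSeries.coeff_zero_eq_constantCoeff_apply, hU, derivative_zero]
  have hx : PowerSeries.constantCoeff ((PowerSeries.C X + U) ^ (i : ℕ) * bpow ν G * (1 + dX U)) =
      X ^ (i : ℕ) := by
    rw [map_mul, map_mul, map_pow, map_add, map_add, hU, hd, bpow_const ν hG1,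
      PowerSeries.constantCoeff_C, map_one, add_zero, add_zero, mul_one, mul_one]
  rw [hcc, PowerSeries.coeff_zero_eq_constantCoeff_apply, hx, h1, Pi.single_apply]
  simp only [eq_comm]

theorem hat_ode {D : Derivation ℚ R R} {f α β : R[X]} (h : α * f + β * derivative f = 1)
    (hf : f.Monic) {k : ℕ} {ν : ℚ} (hν0 : ν ≠ 0) {U G : PowerSeries R[X]}
    {cl : R[X] →ₗ[R] (Fin k → R)} (h2 : ∀ q, cl (ex ν f q) = 0)
    (hU : PowerSeries.constantCoeff U = 0) (hG1 : PowerSeries.constantCoeff G = 1)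
    (hG : evt D (PowerSeries.C X + U) f = PowerSeries.C f * G)
    {a : Matrix (Fin k) (Fin k) R} {g : Fin k → R[X]}
    (star : ∀ i : Fin k, ν • (X ^ (i : ℕ) * dc D f) =
      f * (∑ l : Fin k, C (a i l) * X ^ (l : ℕ) + derivative (g i)) + ν • (g i * derivative f))
    (i l : Fin k) :
    PowerSeries.derivative R (hatB ν U G cl i l) = ∑ m, tay D (a i m) * hatB ν U G cl m l := by
  obtain ⟨Xt, hXt⟩ : ∃ Xt : PowerSeries R[X], Xt = PowerSeries.C X + U := ⟨_, rfl⟩
  rw [← hXt] at hG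
  obtain ⟨B, hB⟩ : ∃ B : PowerSeries R[X], B = bpow ν G := ⟨_, rfl⟩
  obtain ⟨J, hJ⟩ : ∃ J : PowerSeries R[X], J = 1 + dX U := ⟨_, rfl⟩
  obtain ⟨v, hv⟩ : ∃ v : PowerSeries R[X], v = algebraMap ℚ (PowerSeries R[X]) ν := ⟨_, rfl⟩
  have hsm : ∀ F : PowerSeries R[X], ν • F = v * F := fun F => by
    rw [hv, Algebra.smul_def]
  have hvi : algebraMap ℚ (PowerSeries R[X]) ν⁻¹ * v = 1 := by
    rw [hv, ← map_mul, inv_mul_cancel₀ hν0, map_one]
  -- derivatives of the lift
  have hdhX : PowerSeries.derivative R[X] Xt = PowerSeries.derivative R[X] U := by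
    rw [hXt, map_add, PowerSeries.derivative_C, zero_add]
  have hdxX : dX Xt = J := by
    rw [hXt, dX_add, dX_C, derivative_X, map_one, hJ]
  have hdhJ : PowerSeries.derivative R[X] J = dX (PowerSeries.derivative R[X] U) := by
    rw [hJ, map_add, dX_deriv, der_one, zero_add]
  have hevX : ∀ j : ℕ, evt D Xt (X ^ j) = Xt ^ j := by
    intro j
    rw [map_pow]
    congr 1
    unfold evt
    rw [Polynomial.coe_eval₂RingHom, eval₂_X]
  have hevC : ∀ r : R, evt D Xt (C r) = tayX D r := by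
    intro r
    unfold evt
    rw [Polynomial.coe_eval₂RingHom, eval₂_C]
  have hdhΘ : PowerSeries.derivative R[X] (Xt ^ (i : ℕ)) =
      evt D Xt (derivative (X ^ (i : ℕ))) * PowerSeries.derivative R[X] U := by
    have := evt_dh D Xt (X ^ (i : ℕ))
    rw [hevX, dc_X_pow, map_zero, zero_add, hdhX] at this
    exact this
  have hdxΘ : dX (Xt ^ (i : ℕ)) = evt D Xt (derivative (X ^ (i : ℕ))) * J := by
    have := evt_dX D Xt (X ^ (i : ℕ))
    rw [hevX, hdxX] at this
    exact this
  -- the hypotheses of the identity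
  have e1 : PowerSeries.C f * PowerSeries.derivative R[X] G =
      evt D Xt (dc D f) + evt D Xt (derivative f) * PowerSeries.derivative R[X] U := by
    have := evt_dh D Xt f
    rw [hG, hdhX, der_mul, PowerSeries.derivative_C, zero_mul, zero_add] at this
    exact this
  have e2 : evt D Xt (derivative f) * J =
      PowerSeries.C (derivative f) * G + PowerSeries.C f * dX G := by
    have := evt_dX D Xt f
    rw [hG, hdxX, dX_mul, dX_C] at this
    exact this.symm
  have e3 : v * (Xt ^ (i : ℕ) * evt D Xt (dc D f)) =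
      PowerSeries.C f * G * (∑ m : Fin k, tayX D (a i m) * Xt ^ (m : ℕ) +
        evt D Xt (derivative (g i))) + v * (evt D Xt (g i) * evt D Xt (derivative f)) := by
    have := congrArg (evt D Xt) (star i)
    rw [map_rat_smul, map_add, map_rat_smul, map_mul, map_mul, map_mul, map_add, map_sum, hevX,
      hsm, hsm, hG] at this
    rw [this]
    congr 3
    refine Finset.sum_congr rfl fun m _ => ?_
    rw [map_mul, hevC, hevX]
  have e4 : G * PowerSeries.derivative R[X] B = v * (B * PowerSeries.derivative R[X] G) := by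
    rw [hB, bpow_dh ν hG1, hsm]
  have e5 : G * dX B = v * (B * dX G) := by
    rw [hB, bpow_dX ν hG1, hsm]
  have key := core_id (PowerSeries.C f) (PowerSeries.C (derivative f)) (evt D Xt (derivative f)) G
    (PowerSeries.derivative R[X] G) (dX G) (PowerSeries.derivative R[X] U)
    (dX (PowerSeries.derivative R[X] U)) J B (PowerSeries.derivative R[X] B) (dX B)
    (Xt ^ (i : ℕ)) (evt D Xt (derivative (X ^ (i : ℕ)))) (evt D Xt (g i))
    (evt D Xt (derivative (g i))) (∑ m : Fin k, tayX D (a i m) * Xt ^ (m : ℕ))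
    (evt D Xt (dc D f)) v e1 e2 e3 e4 e5
  have key2 := unit_cancel hG1 key
  clear key
  -- the transported form and its derivative
  obtain ⟨W, hW⟩ : ∃ W : PowerSeries R[X], W =
    (evt D Xt (g i) + Xt ^ (i : ℕ) * PowerSeries.derivative R[X] U) * B := ⟨_, rfl⟩
  have hdW : dX W = (evt D Xt (derivative (g i)) * J +
      (evt D Xt (derivative (X ^ (i : ℕ))) * J * PowerSeries.derivative R[X] U +
        Xt ^ (i : ℕ) * dX (PowerSeries.derivative R[X] U))) * B +
      (evt D Xt (g i) + Xt ^ (i : ℕ) * PowerSeries.derivative R[X] U) * dX B := by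
    rw [hW, dX_mul, dX_add, dX_mul, evt_dX, hdxX, hdxΘ]
  obtain ⟨T, hT⟩ : ∃ T : Fin k → PowerSeries R[X], T = fun m : Fin k =>
    Xt ^ (m : ℕ) * B * J := ⟨_, rfl⟩
  obtain ⟨Δ, hΔ⟩ : ∃ Δ : PowerSeries R[X], Δ = PowerSeries.derivative R[X] (T i) -
    ∑ m, tayX D (a i m) * T m := ⟨_, rfl⟩
  have hΔ2 : Δ = evt D Xt (derivative (X ^ (i : ℕ))) * PowerSeries.derivative R[X] U * B * J +
      Xt ^ (i : ℕ) * PowerSeries.derivative R[X] B * J +
      Xt ^ (i : ℕ) * B * dX (PowerSeries.derivative R[X] U) -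
      (∑ m : Fin k, tayX D (a i m) * Xt ^ (m : ℕ)) * B * J := by
    have hs : ∑ m, tayX D (a i m) * T m =
        (∑ m : Fin k, tayX D (a i m) * Xt ^ (m : ℕ)) * B * J := by
      rw [Finset.sum_mul, Finset.sum_mul]
      refine Finset.sum_congr rfl fun m _ => ?_
      rw [hT]
      ring
    rw [hΔ, hs, hT]
    simp only [der_mul]
    rw [hdhΘ, hdhJ]
    ring
  rw [← hΔ2, ← hdW, ← hW] at key2
  -- division by `f`
  obtain ⟨W', hW'⟩ : ∃ W' : PowerSeries R[X], W' = PowerSeries.C α * W +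
    algebraMap ℚ (PowerSeries R[X]) ν⁻¹ * (PowerSeries.C β * (Δ - dX W)) := ⟨_, rfl⟩
  have hab : PowerSeries.C α * PowerSeries.C f +
      PowerSeries.C β * PowerSeries.C (derivative f) = (1 : PowerSeries R[X]) := by
    rw [← map_mul, ← map_mul, ← map_add, h, map_one]
  have hWf : W = PowerSeries.C f * W' := by
    rw [hW']
    linear_combination (-W) * hab - (PowerSeries.C β * PowerSeries.C (derivative f) * W) * hvi -
      (algebraMap ℚ (PowerSeries R[X]) ν⁻¹ * PowerSeries.C β) * key2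
  have hdW' : dX W = PowerSeries.C (derivative f) * W' + PowerSeries.C f * dX W' := by
    rw [hWf, dX_mul, dX_C]
  have hfin : Δ = PowerSeries.C f * dX W' + (1 + ν) • (PowerSeries.C (derivative f) * W') := by
    apply C_mul_cancel hf
    rw [key2, add_smul, one_smul, hsm, hdW', hWf]
    ring
  have hzero : clS cl Δ l = 0 := by
    rw [hfin]
    exact clS_ex h2 W' l
  have hder : PowerSeries.derivative R[X] (T i) = Δ + ∑ m, tayX D (a i m) * T m := by
    rw [hΔ]
    ring
  have hh : ∀ m, hatB ν U G cl m l = clS cl (T m) l := by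
    intro m
    unfold hatB
    rw [hT, hXt, hB, hJ]
  rw [hh, ← clS_deriv, hder, clS_add, hzero, zero_add, clS_sum]
  refine Finset.sum_congr rfl fun m _ => ?_
  rw [clS_tayX, hh]

theorem hat_bound {D : Derivation ℚ R R} (S : Filt D) {k : ℕ} {ν : ℚ} {U G : PowerSeries R[X]}
    {cl : R[X] →ₗ[R] (Fin k → R)} {c : ℕ} (hU : LinG S c U) (hG : LinG S c G)
    (hG1 : PowerSeries.constantCoeff G = 1) (hq : ∀ k, Ring.choose ν k • (1 : R) ∈ S.I k)
    (hred : ∃ H c : ℕ, ∀ N : ℕ, ∃ q : ℕ, 0 < q ∧ q ≤ H ^ (N + 1) ∧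
      ∀ M ≤ N, ∀ i, (q : R) * cl (X ^ M) i ∈ S.I (c * (N + 1))) :
    ∃ H c : ℕ, ∀ N : ℕ, ∃ q : ℕ, 0 < q ∧ q ≤ H ^ (N + 1) ∧
      ∀ n ≤ N, ∀ i l, (q : R) * PowerSeries.coeff n (hatB ν U G cl i l) ∈ S.I (c * (N + 1)) := by
  obtain ⟨cb, hcb⟩ := bpow_linG S hq hG1 hG
  obtain ⟨H, c₁, hr⟩ := hred
  -- linear growth of the transported forms
  obtain ⟨e, he⟩ : ∃ e : ℕ, ∀ i : Fin k,
      LinG S e ((PowerSeries.C X + U) ^ (i : ℕ) * bpow ν G * (1 + dX U)) := by
    refine ⟨k * (1 + c) + cb + (0 + c), fun i => ?_⟩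
    have h1 := linG_pow (linG_add (linG_CX S) hU) (i : ℕ)
    have h2 : LinG S (k * (1 + c)) ((PowerSeries.C X + U) ^ (i : ℕ)) :=
      linG_mono h1 (Nat.mul_le_mul_right _ i.2.le)
    exact linG_mul (linG_mul h2 hcb) (linG_add (linG_one S) (linG_dX hU))
  refine ⟨H ^ (e + 1), e + c₁ * (e + 1), fun N => ?_⟩
  obtain ⟨q, hq0, hqH, hqI⟩ := hr (e * (N + 1))
  have hH : 1 ≤ H := by
    rcases Nat.eq_zero_or_pos H with h | h
    · rw [h, zero_pow (Nat.succ_ne_zero _)] at hqH
      omega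
    · exact h
  refine ⟨q, hq0, hqH.trans ?_, fun n hn i l => ?_⟩
  · rw [← pow_mul]
    apply Nat.pow_le_pow_right hH
    nlinarith
  · have hd := (he i n).1
    have hc := (he i n).2
    obtain ⟨p, hp⟩ : ∃ p : R[X], p = PowerSeries.coeff n
      ((PowerSeries.C X + U) ^ (i : ℕ) * bpow ν G * (1 + dX U)) := ⟨_, rfl⟩
    rw [← hp] at hd hc
    have hh : PowerSeries.coeff n (hatB ν U G cl i l) = cl p l := by
      unfold hatB clS
      rw [PowerSeries.coeff_mk, hp]
    have hpe : cl p l = ∑ M ∈ Finset.range (p.natDegree + 1), p.coeff M * cl (X ^ M) l := by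
      conv_lhs => rw [p.as_sum_range_C_mul_X_pow]
      rw [map_sum, Finset.sum_apply]
      refine Finset.sum_congr rfl fun M _ => ?_
      rw [← smul_eq_C_mul, map_smul, Pi.smul_apply, smul_eq_mul]
    rw [hh, hpe, Finset.mul_sum]
    refine AddSubgroup.sum_mem _ fun M hM => ?_
    have hn1 : e * (n + 1) ≤ e * (N + 1) := Nat.mul_le_mul_left _ (by omega)
    have hM' : M ≤ e * (N + 1) := by
      have := Finset.mem_range.1 hM
      omega
    have h1 := S.mul (hc M) (hqI M hM' l)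
    have h2 : (q : R) * (p.coeff M * cl (X ^ M) l) = p.coeff M * ((q : R) * cl (X ^ M) l) := by
      ring
    rw [h2]
    refine S.mono ?_ h1
    nlinarith

end Pool.Agent.Helper79.SE
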