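import Pool.Agent.Helper79.SE.Tay
import Pool.Agent.Helper79.GX.ChooseDen

/-!
# SE-09: the filtrations of `K[[x]]`, `x = 1/u`

`Du K = -x² d/dx` (`= d/du`).

* `iter_Du`: `Du^k(y)/k!` has the coefficient `(-1)^k binom(m + k - 1, k) y_m` at `x^(m+k)` (`y_m` the coefficient of `y` at `x^m`), and `0` at `x^j`, `j < k` (for `k ≥ 1` and `m = 0` the binomial
  coefficient `binom(k - 1, k)` is `0`). Induction on `k`: `(k+1)⁻¹ (-(m+k)) (-1)^k binom(m+k-1, k) = (-1)^(k+1) binom(m+k, k+1)`.
* `exists_filt`: `I n = {y | ∀ m, M^(n+m) y_m integral over ℤ}`.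
* `Geo y`: some `M ≥ 1` works for `y` with `n = 1`. Closed under sums and products (use the product of the two numbers `M`; `(i+1) + (j+1) ≤ 2 (i+j+1)`), contains polynomials (`K` is algebraic over
  `ℚ`: every element has a nonzero integral multiple) and inverses of series with nonzero constant coefficient: `y = y_0 (1 - w)`, `1/y = y_0⁻¹ ∑ w^k`, the coefficient `n` of `w^k`, `k ≤ n`, has
  denominator `M^(2n)`.
* `geo_finite`: a common `M`, and it can be a multiple of a given number: if `M ∣ M'` then `M'^(1+m) y_m` is integral.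
* `choose_mem`: `choose_den` in `Pool.Agent.Helper79.GX.ChooseDen`: `q^k binom(ν, k) ∈ ℤ`, `q ∣ M`.
-/

open Polynomial

namespace Pool.Agent.Helper79.SE

/-- The derivation `d/du = -x² d/dx` of `K[[x]]`, `x = 1/u`. -/
noncomputable def Du (K : Type) [Field K] [CharZero K] :
    Derivation ℚ (PowerSeries K) (PowerSeries K) :=
  ((-(PowerSeries.X ^ 2) : PowerSeries K) • PowerSeries.derivative K).restrictScalars ℚ

variable {K : Type} [Field K] [CharZero K]

theorem Du_apply (y : PowerSeries K) :
    Du K y = -(PowerSeries.X ^ 2 * PowerSeries.derivative K y) := by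
  show (-(PowerSeries.X ^ 2) : PowerSeries K) • PowerSeries.derivative K y = _
  rw [smul_eq_mul, neg_mul]

private theorem h4_coeff_Du_zero (y : PowerSeries K) : PowerSeries.coeff 0 (Du K y) = 0 := by
  rw [Du_apply, map_neg, pow_two, mul_assoc, PowerSeries.coeff_zero_X_mul, neg_zero]

private theorem h4_coeff_Du_succ (y : PowerSeries K) (j : ℕ) :
    PowerSeries.coeff (j + 1) (Du K y) = -((j : K) * PowerSeries.coeff j y) := by
  rw [Du_apply, map_neg, pow_two, mul_assoc, PowerSeries.coeff_succ_X_mul]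
  cases j with
  | zero => rw [PowerSeries.coeff_zero_X_mul, Nat.cast_zero, zero_mul]
  | succ j =>
    rw [PowerSeries.coeff_succ_X_mul, PowerSeries.coeff_derivative]
    push_cast
    ring

private theorem h4_iter_lt (y : PowerSeries K) (k : ℕ) : ∀ j < k,
    PowerSeries.coeff j ((Du K)^[k] y) = 0 := by
  induction k with
  | zero => intro j hj; omega
  | succ k ih =>
    intro j hj
    rw [Function.iterate_succ_apply']
    cases j with
    | zero => exact h4_coeff_Du_zero _
    | succ j => rw [h4_coeff_Du_succ, ih j (by omega), mul_zero, neg_zero]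

private theorem h4_iter (y : PowerSeries K) (k m : ℕ) :
    PowerSeries.coeff (m + k) ((Du K)^[k] y) =
      (-1) ^ k * (m.ascFactorial k : K) * PowerSeries.coeff m y := by
  induction k with
  | zero => simp
  | succ k ih =>
    rw [Function.iterate_succ_apply', ← Nat.add_assoc, h4_coeff_Du_succ, ih,
      Nat.ascFactorial_succ]
    push_cast
    ring

private theorem h4_coeff_smul (c : ℚ) (y : PowerSeries K) (j : ℕ) :
    PowerSeries.coeff j (c • y) = (c : K) * PowerSeries.coeff j y := by
  have h := map_rat_smul (PowerSeries.coeff (R := K) j) c y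
  rw [h, Rat.smul_def]

private theorem h4_natInt (n : ℕ) : IsIntegral ℤ (n : K) := by
  have h := isIntegral_algebraMap (R := ℤ) (A := K) (x := (n : ℤ))
  simpa using h

private theorem h4_intInt (n : ℤ) : IsIntegral ℤ (n : K) := by
  have h := isIntegral_algebraMap (R := ℤ) (A := K) (x := n)
  simpa using h

/-- the condition with a bound -/
private def h4P (M n : ℕ) (y : PowerSeries K) : Prop :=
  ∀ m, IsIntegral ℤ ((M : K) ^ (n + m) * PowerSeries.coeff m y)

private theorem h4P_mono {M n n' : ℕ} (h : n ≤ n') {y : PowerSeries K} (hy : h4P M n y) :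
    h4P M n' y := by
  intro m
  have h1 : (M : K) ^ (n' + m) * PowerSeries.coeff m y =
      (M : K) ^ (n' - n) * ((M : K) ^ (n + m) * PowerSeries.coeff m y) := by
    rw [← mul_assoc, ← pow_add]
    congr 2
    omega
  rw [h1]
  exact ((h4_natInt M).pow _).mul (hy m)

private theorem h4P_mul {M a b : ℕ} {y z : PowerSeries K} (hy : h4P M a y) (hz : h4P M b z) :
    h4P M (a + b) (y * z) := by
  intro m
  rw [PowerSeries.coeff_mul, Finset.mul_sum]
  apply IsIntegral.sum
  intro p hp
  have hp' : p.1 + p.2 = m := Finset.HasAntidiagonal.mem_antidiagonal.1 hp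
  have h1 : (M : K) ^ (a + b + m) * (PowerSeries.coeff p.1 y * PowerSeries.coeff p.2 z) =
      ((M : K) ^ (a + p.1) * PowerSeries.coeff p.1 y) *
        ((M : K) ^ (b + p.2) * PowerSeries.coeff p.2 z) := by
    rw [← hp']
    ring
  rw [h1]
  exact (hy _).mul (hz _)

private theorem h4P_dvd {M M' n : ℕ} (h : M ∣ M') {y : PowerSeries K} (hy : h4P M n y) :
    h4P M' n y := by
  obtain ⟨d, rfl⟩ := h
  intro m
  have h1 : ((M * d : ℕ) : K) ^ (n + m) * PowerSeries.coeff m y =
      (d : K) ^ (n + m) * ((M : K) ^ (n + m) * PowerSeries.coeff m y) := by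
    push_cast
    ring
  rw [h1]
  exact ((h4_natInt d).pow _).mul (hy m)

private theorem h4P_hasse {M n : ℕ} (k : ℕ) {y : PowerSeries K} (hy : h4P M n y) :
    h4P M (n + k) (((k.factorial : ℚ)⁻¹) • ((Du K)^[k] y)) := by
  intro j
  rw [h4_coeff_smul]
  rcases Nat.lt_or_ge j k with hj | hj
  · rw [h4_iter_lt y k j hj, mul_zero, mul_zero]
    exact isIntegral_zero
  · obtain ⟨m, rfl⟩ := Nat.exists_eq_add_of_le' hj
    rw [h4_iter]
    obtain ⟨c, hc⟩ := Nat.factorial_dvd_ascFactorial m k
    have hk : (k.factorial : K) ≠ 0 := by exact_mod_cast Nat.factorial_ne_zero k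
    have h1 : (M : K) ^ (n + k + (m + k)) * ((((k.factorial : ℚ)⁻¹ : ℚ) : K) *
        ((-1) ^ k * (m.ascFactorial k : K) * PowerSeries.coeff m y)) =
        (M : K) ^ (2 * k) * (((-1 : ℤ) ^ k * (c : ℤ) : ℤ) : K) *
          ((M : K) ^ (n + m) * PowerSeries.coeff m y) := by
      rw [hc]
      push_cast
      have h2 : (M : K) ^ (n + k + (m + k)) = (M : K) ^ (2 * k) * (M : K) ^ (n + m) := by
        rw [← pow_add]
        congr 1
        omega
      rw [h2]
      field_simp
    rw [h1]
    exact (((h4_natInt M).pow _).mul (h4_intInt _)).mul (hy m)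

theorem exists_filt (K : Type) [Field K] [CharZero K] (M : ℕ) : ∃ S : Filt (Du K), ∀ n y,
    y ∈ S.I n ↔ ∀ m, IsIntegral ℤ ((M : K) ^ (n + m) * PowerSeries.coeff m y) := by
  refine ⟨{
    I := fun n =>
      { carrier := {y | h4P M n y}
        zero_mem' := fun m => by
          rw [map_zero, mul_zero]
          exact isIntegral_zero
        add_mem' := fun {a b} ha hb m => by
          rw [map_add, mul_add]
          exact (ha m).add (hb m)
        neg_mem' := fun {a} ha m => by
          rw [map_neg, mul_neg]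
          exact (ha m).neg }
    mono := fun n n' h y hy => h4P_mono h hy
    one := fun m => by
      rw [PowerSeries.coeff_one]
      split_ifs
      · rw [mul_one]
        exact (h4_natInt M).pow _
      · rw [mul_zero]
        exact isIntegral_zero
    mul := fun {a b x y} hx hy => h4P_mul hx hy
    hasse := fun {n x} k hx => h4P_hasse k hx }, ?_⟩
  intro n y
  exact Iff.rfl

/-- Geometric denominators. -/
def Geo (y : PowerSeries K) : Prop :=
  ∃ M : ℕ, 1 ≤ M ∧ ∀ m, IsIntegral ℤ ((M : K) ^ (1 + m) * PowerSeries.coeff m y)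

theorem geo_add {y z : PowerSeries K} (hy : Geo y) (hz : Geo z) : Geo (y + z) := by
  obtain ⟨M, hM, hy⟩ := hy
  obtain ⟨N, hN, hz⟩ := hz
  refine ⟨M * N, Nat.mul_pos hM hN, fun m => ?_⟩
  rw [map_add, mul_add]
  exact (h4P_dvd (dvd_mul_right M N) hy m).add (h4P_dvd (dvd_mul_left N M) hz m)

theorem geo_mul {y z : PowerSeries K} (hy : Geo y) (hz : Geo z) : Geo (y * z) := by
  obtain ⟨M, hM, hy⟩ := hy
  obtain ⟨N, hN, hz⟩ := hz
  refine ⟨(M * N) ^ 2, Nat.pow_pos (Nat.mul_pos hM hN), fun m => ?_⟩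
  have h1 := h4P_mul (h4P_dvd (dvd_mul_right M N) hy) (h4P_dvd (dvd_mul_left N M) hz) m
  have h2 : (((M * N) ^ 2 : ℕ) : K) ^ (1 + m) * PowerSeries.coeff m (y * z) =
      ((M * N : ℕ) : K) ^ m * (((M * N : ℕ) : K) ^ (1 + 1 + m) * PowerSeries.coeff m (y * z)) := by
    rw [← mul_assoc, ← pow_add, Nat.cast_pow, ← pow_mul]
    congr 2
    ring
  rw [h2]
  exact ((h4_natInt _).pow _).mul h1

private theorem h4_exists_mul [Algebra.IsAlgebraic ℚ K] (a : K) :
    ∃ d : ℕ, 1 ≤ d ∧ IsIntegral ℤ ((d : K) * a) := by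
  have h1 : IsAlgebraic ℚ a := Algebra.IsAlgebraic.isAlgebraic a
  have h2 : IsAlgebraic ℤ a := (IsFractionRing.isAlgebraic_iff ℤ ℚ K).2 h1
  obtain ⟨y, hy, hint⟩ := h2.exists_integral_multiple
  refine ⟨y.natAbs, Nat.one_le_iff_ne_zero.2 (Int.natAbs_ne_zero.2 hy), ?_⟩
  rw [zsmul_eq_mul] at hint
  rcases Int.natAbs_eq y with h | h
  · rw [h, Int.cast_natCast] at hint
    exact hint
  · rw [h, Int.cast_neg, Int.cast_natCast, neg_mul] at hint
    have := hint.neg
    rwa [neg_neg] at this

theorem geo_poly [Algebra.IsAlgebraic ℚ K] (p : K[X]) : Geo ((p : K[X]) : PowerSeries K) := by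
  induction p using Polynomial.induction_on' with
  | add p q hp hq =>
    rw [Polynomial.coe_add]
    exact geo_add hp hq
  | monomial n a =>
    obtain ⟨d, hd, hint⟩ := h4_exists_mul a
    refine ⟨d, hd, fun m => ?_⟩
    rw [Polynomial.coeff_coe, Polynomial.coeff_monomial]
    split_ifs
    · rw [pow_add, pow_one, mul_assoc, mul_comm ((d : K) ^ m) a, ← mul_assoc]
      exact hint.mul ((h4_natInt d).pow _)
    · rw [mul_zero]
      exact isIntegral_zero

theorem geo_inv [Algebra.IsAlgebraic ℚ K] {y z : PowerSeries K} (hy : Geo y) (h : y * z = 1) :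
    Geo z := by
  obtain ⟨M, hM, hy⟩ := hy
  obtain ⟨d, hd, hint⟩ := h4_exists_mul (PowerSeries.coeff 0 z)
  have h0 : PowerSeries.coeff 0 y * PowerSeries.coeff 0 z = 1 := by
    have := congrArg (PowerSeries.constantCoeff (R := K)) h
    rw [map_mul, map_one] at this
    rw [PowerSeries.coeff_zero_eq_constantCoeff_apply,
      PowerSeries.coeff_zero_eq_constantCoeff_apply]
    exact this
  have hrec : ∀ n, 1 ≤ n → PowerSeries.coeff n z = -(PowerSeries.coeff 0 z *
      ∑ i ∈ Finset.range n, PowerSeries.coeff (i + 1) y * PowerSeries.coeff (n - (i + 1)) z) := by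
    intro n hn
    have h1 := congrArg (PowerSeries.coeff (R := K) n) h
    rw [PowerSeries.coeff_mul, PowerSeries.coeff_one, if_neg (by omega),
      Finset.Nat.sum_antidiagonal_eq_sum_range_succ
        (fun i j => PowerSeries.coeff i y * PowerSeries.coeff j z),
      Finset.sum_range_succ'] at h1
    rw [Nat.sub_zero] at h1
    calc PowerSeries.coeff n z
        = (PowerSeries.coeff 0 y * PowerSeries.coeff 0 z) * PowerSeries.coeff n z := by
          rw [h0, one_mul]
      _ = PowerSeries.coeff 0 z * (PowerSeries.coeff 0 y * PowerSeries.coeff n z) := by ring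
      _ = PowerSeries.coeff 0 z * -(∑ i ∈ Finset.range n,
          PowerSeries.coeff (i + 1) y * PowerSeries.coeff (n - (i + 1)) z) := by
          rw [eq_neg_of_add_eq_zero_right h1]
      _ = _ := by ring
  have key : ∀ n, IsIntegral ℤ ((d : K) ^ (n + 1) * (M : K) ^ (2 * n) *
      PowerSeries.coeff n z) := by
    intro n
    induction n using Nat.strong_induction_on with
    | _ n ih =>
      rcases Nat.eq_zero_or_pos n with rfl | hn
      · simpa using hint
      · rw [hrec n hn, mul_neg, Finset.mul_sum, Finset.mul_sum]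
        apply IsIntegral.neg
        apply IsIntegral.sum
        intro i hi
        have hi' := Finset.mem_range.1 hi
        have h1 : (d : K) ^ (n + 1) * (M : K) ^ (2 * n) * (PowerSeries.coeff 0 z *
            (PowerSeries.coeff (i + 1) y * PowerSeries.coeff (n - (i + 1)) z)) =
            ((d : K) ^ i * (M : K) ^ i) * (((d : K) * PowerSeries.coeff 0 z) *
              ((M : K) ^ (1 + (i + 1)) * PowerSeries.coeff (i + 1) y)) *
              ((d : K) ^ (n - (i + 1) + 1) * (M : K) ^ (2 * (n - (i + 1))) *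
                PowerSeries.coeff (n - (i + 1)) z) := by
          obtain ⟨r, rfl⟩ := Nat.exists_eq_add_of_le (show i + 1 ≤ n by omega)
          rw [Nat.add_sub_cancel_left]
          ring
        rw [h1]
        exact ((((h4_natInt d).pow _).mul ((h4_natInt M).pow _)).mul (hint.mul (hy _))).mul
          (ih _ (by omega))
  refine ⟨d * M ^ 2, Nat.mul_pos hd (Nat.pow_pos hM), fun m => ?_⟩
  have h1 : ((d * M ^ 2 : ℕ) : K) ^ (1 + m) * PowerSeries.coeff m z =
      (M : K) ^ 2 * ((d : K) ^ (m + 1) * (M : K) ^ (2 * m) * PowerSeries.coeff m z) := by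
    push_cast
    ring
  rw [h1]
  exact ((h4_natInt M).pow _).mul (key m)

theorem geo_finite {s : Set (PowerSeries K)} (hs : s.Finite) (h : ∀ y ∈ s, Geo y) (q : ℕ)
    (hq : 1 ≤ q) : ∃ M : ℕ, 1 ≤ M ∧ q ∣ M ∧ ∀ y ∈ s, ∀ m,
      IsIntegral ℤ ((M : K) ^ (1 + m) * PowerSeries.coeff m y) := by
  induction s, hs using Set.Finite.induction_on with
  | empty => exact ⟨q, hq, dvd_rfl, fun y hy => absurd hy (Set.notMem_empty y)⟩
  | @insert a s _ _ ih =>
    obtain ⟨M, hM, hqM, hMs⟩ := ih fun y hy => h y (Set.mem_insert_of_mem a hy)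
    obtain ⟨N, hN, hNa⟩ := h a (Set.mem_insert a s)
    refine ⟨M * N, Nat.mul_pos hM hN, hqM.mul_right N, fun y hy => ?_⟩
    rcases Set.mem_insert_iff.1 hy with rfl | hy
    · exact h4P_dvd (dvd_mul_left N M) hNa
    · exact h4P_dvd (dvd_mul_right M N) (hMs y hy)

theorem choose_mem (ν : ℚ) : ∃ q : ℕ, 1 ≤ q ∧ ∀ M : ℕ, q ∣ M → ∀ S : Filt (Du K),
    (∀ n y, y ∈ S.I n ↔ ∀ m, IsIntegral ℤ ((M : K) ^ (n + m) * PowerSeries.coeff m y)) →
    ∀ k, Ring.choose ν k • (1 : PowerSeries K) ∈ S.I k := by
  obtain ⟨q, hq, hz⟩ := Pool.Agent.Helper79.GX.choose_den ν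
  refine ⟨q, hq, ?_⟩
  rintro M ⟨d, rfl⟩ S hS k
  rw [hS]
  intro m
  rw [h4_coeff_smul, PowerSeries.coeff_one]
  obtain ⟨z, hz⟩ := hz k
  split_ifs with hm
  · subst hm
    have h1 : ((q * d : ℕ) : K) ^ (k + 0) * (((Ring.choose ν k : ℚ) : K) * 1) =
        (d : K) ^ k * (z : K) := by
      have h2 : (q : K) ^ k * ((Ring.choose ν k : ℚ) : K) = (z : K) := by
        have := congrArg (fun x : ℚ => (x : K)) hz
        push_cast at this
        exact this
      rw [← h2]
      push_cast
      ring
    rw [h1]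
    exact ((h4_natInt d).pow _).mul (h4_intInt z)
  · rw [mul_zero, mul_zero]
    exact isIntegral_zero

end Pool.Agent.Helper79.SE
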