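import Pool.Agent.Helper79.SE.Tay

/-!
# SE-07: from the left to the right recursion

`∂` = derivative with respect to `h`, `D` acts on power series coefficientwise (`D` commutes with `∂`, satisfies the product rule, `D (tay D x) = tay D (D x) = ∂ (tay D x)` by `map_tay`,
`deriv_tay`). Let `E_il = ∂B_il - D B_il - ∑_m B_im C(a_ml)`. Then `∂E_il = ∑_m tay(a_im) E_ml`: indeed `∂∂B_il = ∑ (∂tay(a_im) B_ml + tay(a_im) ∂B_ml)`,
`∂ D B_il = D ∂B_il = ∑ (D tay(a_im) B_ml + tay(a_im) D B_ml)`, `∂ (∑_m B_im C(a_ml)) = ∑_{m,j} tay(a_ij) B_jm C(a_ml)`. The constant term of `E_il` is `a_il - 0 - a_il = 0`, so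
`E = 0` (the coefficient of `h^(n+1)` of `E` is determined by the lower ones; `R` is a `ℚ`-algebra). The claim is the coefficient of `h^n` of `E_il = 0`.
-/

open Polynomial

namespace Pool.Agent.Helper79.SE

variable {R : Type} [CommRing R] [Algebra ℚ R]

/-- `D` applied to the coefficients of a power series -/
private noncomputable def lrD (D : Derivation ℚ R R) (F : PowerSeries R) : PowerSeries R :=
  PowerSeries.mk fun n => D (PowerSeries.coeff n F)

private theorem coeff_lrD (D : Derivation ℚ R R) (F : PowerSeries R) (n : ℕ) :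
    PowerSeries.coeff n (lrD D F) = D (PowerSeries.coeff n F) := PowerSeries.coeff_mk _ _

private theorem lrD_mul (D : Derivation ℚ R R) (F G : PowerSeries R) :
    lrD D (F * G) = lrD D F * G + F * lrD D G := by
  ext n
  rw [coeff_lrD, PowerSeries.coeff_mul, map_add, PowerSeries.coeff_mul, PowerSeries.coeff_mul,
    map_sum, ← Finset.sum_add_distrib]
  refine Finset.sum_congr rfl fun p _ => ?_
  rw [coeff_lrD, coeff_lrD, Derivation.leibniz, smul_eq_mul, smul_eq_mul]
  ring

private theorem lrD_sum {ι : Type} (D : Derivation ℚ R R) (s : Finset ι) (f : ι → PowerSeries R) :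
    lrD D (∑ i ∈ s, f i) = ∑ i ∈ s, lrD D (f i) := by
  ext n
  rw [coeff_lrD, map_sum, map_sum, map_sum]
  exact Finset.sum_congr rfl fun i _ => (coeff_lrD D _ n).symm

private theorem lrD_deriv (D : Derivation ℚ R R) (F : PowerSeries R) :
    PowerSeries.derivative R (lrD D F) = lrD D (PowerSeries.derivative R F) := by
  ext n
  rw [coeff_lrD, PowerSeries.coeff_derivative, PowerSeries.coeff_derivative, coeff_lrD,
    Derivation.leibniz]
  have h : D ((n : R) + 1) = 0 := by
    rw [map_add, Derivation.map_natCast, Derivation.map_one_eq_zero, add_zero]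
  rw [h, smul_zero, zero_add, smul_eq_mul, mul_comm]

private theorem lr_tors {x : R} (n : ℕ) (h : x * ((n : R) + 1) = 0) : x = 0 := by
  have h1 : ((n : ℚ) + 1) ≠ 0 := by positivity
  have h2 : (((n : ℚ) + 1)⁻¹) • (((n : ℚ) + 1) • x) = x := by
    rw [smul_smul, inv_mul_cancel₀ h1, one_smul]
  have h3 : (((n : ℚ) + 1) • x) = x * ((n : R) + 1) := by
    rw [Algebra.smul_def, map_add, map_natCast, map_one, mul_comm]
  rw [← h2, h3, h, smul_zero]

theorem left_right {D : Derivation ℚ R R} {k : ℕ} {a : Matrix (Fin k) (Fin k) R}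
    {B : Fin k → Fin k → PowerSeries R}
    (h0 : ∀ i l, PowerSeries.constantCoeff (B i l) = if i = l then 1 else 0)
    (h : ∀ i l, PowerSeries.derivative R (B i l) = ∑ m, tay D (a i m) * B m l) (n : ℕ)
    (i l : Fin k) :
    ((n + 1 : ℕ) : R) * PowerSeries.coeff (n + 1) (B i l) =
      D (PowerSeries.coeff n (B i l)) + ∑ m, PowerSeries.coeff n (B i m) * a m l := by
  obtain ⟨E, hE⟩ : ∃ E : Fin k → Fin k → PowerSeries R, ∀ i l, E i l =
      PowerSeries.derivative R (B i l) - lrD D (B i l) - ∑ m, B i m * PowerSeries.C (a m l) :=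
    ⟨_, fun _ _ => rfl⟩
  have htay : ∀ x : R, lrD D (tay D x) = PowerSeries.derivative R (tay D x) := fun x => by
    rw [deriv_tay]
    exact map_tay D x
  have hdE : ∀ i l, PowerSeries.derivative R (E i l) = ∑ m, tay D (a i m) * E m l := by
    intro i l
    have h1 : PowerSeries.derivative R (PowerSeries.derivative R (B i l)) =
        ∑ m, (PowerSeries.derivative R (tay D (a i m)) * B m l +
          tay D (a i m) * PowerSeries.derivative R (B m l)) := by
      conv_lhs => rw [h i l]
      rw [map_sum]
      refine Finset.sum_congr rfl fun m _ => ?_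
      rw [Derivation.leibniz, smul_eq_mul, smul_eq_mul]
      ring
    have h2 : PowerSeries.derivative R (lrD D (B i l)) =
        ∑ m, (PowerSeries.derivative R (tay D (a i m)) * B m l +
          tay D (a i m) * lrD D (B m l)) := by
      rw [lrD_deriv, h i l, lrD_sum]
      refine Finset.sum_congr rfl fun m _ => ?_
      rw [lrD_mul, htay]
    have h3 : PowerSeries.derivative R (∑ m, B i m * PowerSeries.C (a m l)) =
        ∑ j, tay D (a i j) * ∑ m, B j m * PowerSeries.C (a m l) := by
      rw [map_sum]
      have h4 : ∀ m, PowerSeries.derivative R (B i m * PowerSeries.C (a m l)) =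
          ∑ j, tay D (a i j) * (B j m * PowerSeries.C (a m l)) := by
        intro m
        rw [Derivation.leibniz, PowerSeries.derivative_C, smul_zero, zero_add, smul_eq_mul,
          h i m, Finset.mul_sum]
        exact Finset.sum_congr rfl fun j _ => by ring
      rw [Finset.sum_congr rfl fun m _ => h4 m, Finset.sum_comm]
      refine Finset.sum_congr rfl fun j _ => ?_
      rw [Finset.mul_sum]
    rw [hE, map_sub, map_sub, h1, h2, h3, ← Finset.sum_sub_distrib, ← Finset.sum_sub_distrib]
    refine Finset.sum_congr rfl fun m _ => ?_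
    rw [hE m l]
    ring
  have hE0 : ∀ i l, PowerSeries.coeff 0 (E i l) = 0 := by
    intro i l
    have hB0 : ∀ i l, PowerSeries.coeff 0 (B i l) = if i = l then 1 else 0 := by
      intro i l
      rw [PowerSeries.coeff_zero_eq_constantCoeff_apply, h0]
    have h5 : PowerSeries.coeff 0 (PowerSeries.derivative R (B i l)) = a i l := by
      rw [h i l, map_sum, Finset.sum_eq_single l]
      · rw [PowerSeries.coeff_zero_eq_constantCoeff_apply, map_mul, const_tay, h0, if_pos rfl,
          mul_one]
      · intro m _ hm
        rw [PowerSeries.coeff_zero_eq_constantCoeff_apply, map_mul, h0, if_neg hm, mul_zero]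
      · intro h6
        exact absurd (Finset.mem_univ _) h6
    have h6 : PowerSeries.coeff 0 (lrD D (B i l)) = 0 := by
      rw [coeff_lrD, hB0]
      split_ifs
      · exact Derivation.map_one_eq_zero D
      · exact map_zero D
    have h7 : PowerSeries.coeff 0 (∑ m, B i m * PowerSeries.C (a m l)) = a i l := by
      rw [map_sum, Finset.sum_eq_single i]
      · rw [PowerSeries.coeff_zero_eq_constantCoeff_apply, map_mul, h0, if_pos rfl, one_mul]
        exact PowerSeries.constantCoeff_C _
      · intro m _ hm
        rw [PowerSeries.coeff_zero_eq_constantCoeff_apply, map_mul, h0, if_neg hm.symm, zero_mul]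
      · intro h6
        exact absurd (Finset.mem_univ _) h6
    rw [hE, map_sub, map_sub, h5, h6, h7, sub_zero, sub_self]
  have hEn : ∀ n, ∀ i l, PowerSeries.coeff n (E i l) = 0 := by
    intro n
    induction n using Nat.strong_induction_on with
    | _ n ih =>
      rcases Nat.eq_zero_or_pos n with hn | hn
      · subst hn
        exact hE0
      · obtain ⟨p, rfl⟩ : ∃ p, n = p + 1 := ⟨n - 1, by omega⟩
        intro i l
        apply lr_tors p
        rw [← PowerSeries.coeff_derivative, hdE, map_sum]
        refine Finset.sum_eq_zero fun m _ => ?_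
        rw [PowerSeries.coeff_mul]
        refine Finset.sum_eq_zero fun q hq => ?_
        rw [Finset.HasAntidiagonal.mem_antidiagonal] at hq
        rw [ih q.2 (by omega), mul_zero]
  have hfin := hEn n i l
  rw [hE, map_sub, map_sub, PowerSeries.coeff_derivative, coeff_lrD, map_sum] at hfin
  have h8 : ∑ m, PowerSeries.coeff n (B i m * PowerSeries.C (a m l)) =
      ∑ m, PowerSeries.coeff n (B i m) * a m l :=
    Finset.sum_congr rfl fun m _ => PowerSeries.coeff_mul_C _ _ _
  rw [h8, sub_sub, sub_eq_zero] at hfin
  rw [← hfin]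
  push_cast
  ring

end Pool.Agent.Helper79.SE
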