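import Pool.Agent.Helper79.SE.Bpow
import Pool.Agent.Helper79.SE.Red
import Pool.Agent.Helper37.GP.Lcm

/-!
# SE-05: denominators of the reduction

For `M < d - 1` `cl (x^M)` is a unit vector. Let `M = n + d - 1`, `ρ(z) = z^d f(1/z) = 1 + ∑_{m=1}^d f_{d-m} z^m` (as a power series over `R` in `z`), `θ = (1 + ν) d > 0`,
`φ = bpow ν ρ`, `χ = bpow (-(1+ν)) ρ`, `ψ = bpow (1+ν) ρ = ρ φ`, `χ ψ = 1`, `Γ = ∑_{l ≤ n} φ_l z^l / (n + θ - l)`, `Q_m` = coefficient of `z^m` in `χ Γ`, `m ≤ n`, and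
`q = ∑_{m ≤ n} Q_m x^(n-m)`. Claim: `x^M - ex ν f q` has degree at most `d - 2` (`< d - 1`), so `cl (x^M) i` is its coefficient of `x^i`.
Proof: with `Q = ∑_{m≤n} Q_m z^m`: `ex ν f q = x^(n+d-1) E(1/x)`, `E = (n Q - z Q') ρ + (1+ν) Q (d ρ - z ρ')`, and `E ≡ 1` modulo `z^(n+1)`: `Q ψ ≡ Γ`,
`(n + θ) Q ψ - z (Q ψ)' ≡ ∑_{l≤n} φ_l z^l ≡ φ`; multiply by `ρ` and use `ρ z ψ' = (1+ν) ψ z ρ'` (`bpow_dh`): `ψ E ≡ ρ φ = ψ`.
Bounds: `φ_l, χ_l ∈ I(c' (l+1))` (`bpow_lin`); write `θ = s / b` with natural numbers `s, b ≥ 1`: `1 / (k + θ) = b / (b k + s)`, `0 ≤ k ≤ n`, so `lcm(1, …, b n + s) Q_m ∈ I(c' (2 n + 2))`,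
and one more factor (the denominator of `ν`) and `I(e)` for the coefficients of `ex ν f q`. `lcm(1, …, m) ≤ H^m` from `Pool.Agent.Helper37.GP.Lcm`. The number `lcm(1, …, b N + s)` works for all
`M ≤ N`.
-/

open Polynomial

namespace Pool.Agent.Helper79.SE

variable {R : Type} [CommRing R] [Algebra ℚ R]

theorem rb_int {D : Derivation ℚ R R} (S : Filt D) {m : ℕ} {x : R} (z : ℤ) (hx : x ∈ S.I m) :
    (z : ℚ) • x ∈ S.I m := by
  rw [Int.cast_smul_eq_zsmul ℚ z x]
  exact AddSubgroup.zsmul_mem _ hx z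

theorem rb_euler (Q : PowerSeries R) (m : ℕ) :
    PowerSeries.coeff m (PowerSeries.X * PowerSeries.derivative R Q) =
      (m : ℚ) • PowerSeries.coeff m Q := by
  rcases m with _ | m
  · simp
  · rw [PowerSeries.coeff_succ_X_mul, PowerSeries.coeff_derivative, Algebra.smul_def]
    push_cast
    ring

theorem rb_coeff_E (ν n d : ℚ) (Q ρ : PowerSeries R) (p : ℕ) :
    PowerSeries.coeff p ((n • Q - PowerSeries.X * PowerSeries.derivative R Q) * ρ +
      (1 + ν) • (Q * (d • ρ - PowerSeries.X * PowerSeries.derivative R ρ))) =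
      ∑ x ∈ Finset.HasAntidiagonal.antidiagonal p, ((n - x.1) + (1 + ν) * (d - x.2)) •
        (PowerSeries.coeff x.1 Q * PowerSeries.coeff x.2 ρ) := by
  rw [map_add, PowerSeries.coeff_mul]
  rw [show PowerSeries.coeff p
    ((1 + ν) • (Q * (d • ρ - PowerSeries.X * PowerSeries.derivative R ρ))) =
      (1 + ν) • PowerSeries.coeff p (Q * (d • ρ - PowerSeries.X * PowerSeries.derivative R ρ)) from
        rfl, PowerSeries.coeff_mul, Finset.smul_sum, ← Finset.sum_add_distrib]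
  refine Finset.sum_congr rfl fun x _ => ?_
  rw [map_sub, map_sub, rb_euler, rb_euler]
  rw [show PowerSeries.coeff x.1 (n • Q) = n • PowerSeries.coeff x.1 Q from rfl,
    show PowerSeries.coeff x.2 (d • ρ) = d • PowerSeries.coeff x.2 ρ from rfl]
  simp only [Algebra.smul_def, map_add, map_sub, map_mul]
  ring

omit [Algebra ℚ R] in
theorem rb_sum {n d p : ℕ} (hp : p ≤ n + d) (F G : ℕ → ℕ → R)
    (hF : ∀ a b, n < a ∨ d < b → F a b = 0) (hG : ∀ a b, n < a ∨ d < b → G a b = 0)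
    (hFG : ∀ a ≤ n, ∀ b ≤ d, F a b = G (n - a) (d - b)) :
    ∑ x ∈ Finset.HasAntidiagonal.antidiagonal (n + d - p), F x.1 x.2 =
      ∑ x ∈ Finset.HasAntidiagonal.antidiagonal p, G x.1 x.2 := by
  have e1 : ∀ (m : ℕ) (H : ℕ → ℕ → R), (∀ a b, n < a ∨ d < b → H a b = 0) →
      ∑ x ∈ Finset.HasAntidiagonal.antidiagonal m, H x.1 x.2 =
        ∑ x ∈ (Finset.HasAntidiagonal.antidiagonal m).filter (fun x => x.1 ≤ n ∧ x.2 ≤ d), H x.1 x.2 := by
    intro m H hH
    symm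
    apply Finset.sum_subset (Finset.filter_subset _ _)
    intro x hx hx2
    apply hH
    rw [Finset.mem_filter] at hx2
    by_contra hc
    push Not at hc
    exact hx2 ⟨hx, hc.1, hc.2⟩
  rw [e1 _ F hF, e1 _ G hG]
  refine Finset.sum_nbij' (fun x => (n - x.1, d - x.2)) (fun x => (n - x.1, d - x.2)) ?_ ?_ ?_ ?_ ?_
  · intro x hx
    simp only [Finset.mem_filter, Finset.HasAntidiagonal.mem_antidiagonal] at hx ⊢
    omega
  · intro x hx
    simp only [Finset.mem_filter, Finset.HasAntidiagonal.mem_antidiagonal] at hx ⊢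
    omega
  · intro x hx
    simp only [Finset.mem_filter, Finset.HasAntidiagonal.mem_antidiagonal] at hx
    ext <;> simp <;> omega
  · intro x hx
    simp only [Finset.mem_filter, Finset.HasAntidiagonal.mem_antidiagonal] at hx
    ext <;> simp <;> omega
  · intro x hx
    simp only [Finset.mem_filter, Finset.HasAntidiagonal.mem_antidiagonal] at hx
    exact hFG _ hx.2.1 _ hx.2.2

/-- The coefficients of an exact form. -/
theorem rb_coeff_ex (ν : ℚ) (f q : R[X]) (j : ℕ) :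
    (ex ν f q).coeff j = ∑ x ∈ Finset.HasAntidiagonal.antidiagonal (j + 1),
      ((x.1 : ℚ) + (1 + ν) * x.2) • (q.coeff x.1 * f.coeff x.2) := by
  have e1 : ∀ p : R[X], ∀ m : ℕ, (X * derivative p).coeff m = (m : ℚ) • p.coeff m := by
    intro p m
    rcases m with _ | m
    · simp
    · rw [coeff_X_mul, coeff_derivative, Algebra.smul_def]
      push_cast
      ring
  have e2 : (ex ν f q).coeff j = (X * ex ν f q).coeff (j + 1) := by rw [coeff_X_mul]
  have e3 : X * ex ν f q = (X * derivative q) * f + (1 + ν) • (q * (X * derivative f)) := by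
    unfold ex
    rw [mul_add, mul_smul_comm]
    congr 1
    · ring
    · congr 1
      ring
  rw [e2, e3, coeff_add, coeff_smul, coeff_mul, coeff_mul, Finset.smul_sum,
    ← Finset.sum_add_distrib]
  refine Finset.sum_congr rfl fun x _ => ?_
  rw [e1, e1]
  simp only [Algebra.smul_def, map_add, map_mul]
  ring


/-- The series `E` is `1` modulo `X ^ (n + 1)`. -/
theorem rb_E_one (ν : ℚ) {ρ Γ : PowerSeries R} {n d : ℕ}
    (hρ : PowerSeries.constantCoeff ρ = 1)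
    (hΓ : ∀ l ≤ n, ((n : ℚ) + (1 + ν) * d - l) • PowerSeries.coeff l Γ =
      PowerSeries.coeff l (bpow ν ρ)) {p : ℕ} (hp : p ≤ n) :
    PowerSeries.coeff p (((n : ℚ) • (bpow (-(1 + ν)) ρ * Γ) -
        PowerSeries.X * PowerSeries.derivative R (bpow (-(1 + ν)) ρ * Γ)) * ρ +
      (1 + ν) • ((bpow (-(1 + ν)) ρ * Γ) *
        ((d : ℚ) • ρ - PowerSeries.X * PowerSeries.derivative R ρ))) = if p = 0 then 1 else 0 := by
  obtain ⟨χ, hχ⟩ : ∃ χ, χ = bpow (-(1 + ν)) ρ := ⟨_, rfl⟩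
  obtain ⟨ψ, hψ⟩ : ∃ ψ, ψ = bpow (1 + ν) ρ := ⟨_, rfl⟩
  obtain ⟨φ, hφ⟩ : ∃ φ, φ = bpow ν ρ := ⟨_, rfl⟩
  have h1 : χ * ψ = 1 := by
    rw [hχ, hψ, ← bpow_add _ _ hρ, neg_add_cancel, bpow_zero]
  have h2 : ψ = ρ * φ := by
    rw [hψ, hφ, bpow_add _ _ hρ, bpow_one hρ]
  have h3 : ρ * PowerSeries.derivative R ψ = (1 + ν) • (ψ * PowerSeries.derivative R ρ) := by
    rw [hψ]
    exact bpow_dh _ hρ
  rw [← hχ]
  rw [← hφ] at hΓ
  obtain ⟨Q, hQ⟩ : ∃ Q, Q = χ * Γ := ⟨_, rfl⟩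
  have h4 : Γ = ψ * Q := by
    rw [hQ, ← mul_assoc, mul_comm ψ χ, h1, one_mul]
  rw [← hQ]
  obtain ⟨E, hE⟩ : ∃ E, E = ((n : ℚ) • Q - PowerSeries.X * PowerSeries.derivative R Q) * ρ +
      (1 + ν) • (Q * ((d : ℚ) • ρ - PowerSeries.X * PowerSeries.derivative R ρ)) := ⟨_, rfl⟩
  rw [← hE]
  have h5 : ψ * E = ρ * (((n : ℚ) + (1 + ν) * d) • Γ -
      PowerSeries.X * PowerSeries.derivative R Γ) := by
    have h6 : PowerSeries.derivative R Γ = ψ * PowerSeries.derivative R Q +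
        Q * PowerSeries.derivative R ψ := by
      rw [h4, Derivation.leibniz]
      rfl
    have h7 : ρ * (PowerSeries.X * PowerSeries.derivative R Γ) =
        PowerSeries.X * ρ * (ψ * PowerSeries.derivative R Q) +
          PowerSeries.X * Q * (ρ * PowerSeries.derivative R ψ) := by
      rw [h6]
      ring
    rw [mul_sub, h7, h3, hE, h4]
    simp only [Algebra.smul_def, map_add, map_mul]
    ring
  have h8 : E - 1 = (χ * ρ) * ((((n : ℚ) + (1 + ν) * d) • Γ -
      PowerSeries.X * PowerSeries.derivative R Γ) - φ) := by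
    have h9 : E - 1 = χ * (ψ * E - ψ) := by
      rw [mul_sub, ← mul_assoc, h1, one_mul]
    rw [h9, h5]
    nth_rewrite 1 [h2]
    ring
  have h10 : PowerSeries.X ^ (n + 1) ∣ E - 1 := by
    rw [h8]
    apply Dvd.dvd.mul_left
    rw [PowerSeries.X_pow_dvd_iff]
    intro m hm
    rw [map_sub, map_sub, rb_euler]
    rw [show PowerSeries.coeff m (((n : ℚ) + (1 + ν) * d) • Γ) =
      ((n : ℚ) + (1 + ν) * d) • PowerSeries.coeff m Γ from rfl, ← sub_smul,
      hΓ m (by omega), sub_self]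
  have h11 := (PowerSeries.X_pow_dvd_iff.1 h10) p (by omega)
  rw [map_sub, sub_eq_zero, PowerSeries.coeff_one] at h11
  exact h11

/-- The reversed polynomial, as a power series. -/
noncomputable def rbRho (f : R[X]) (d : ℕ) : PowerSeries R :=
  PowerSeries.mk fun w => if w ≤ d then f.coeff (d - w) else 0

/-- The series `Γ`. -/
noncomputable def rbGam (ν : ℚ) (f : R[X]) (d n : ℕ) : PowerSeries R :=
  PowerSeries.mk fun l => if l ≤ n then ((n : ℚ) + (1 + ν) * d - l)⁻¹ •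
    PowerSeries.coeff l (bpow ν (rbRho f d)) else 0

/-- The polynomial `q`. -/
noncomputable def rbQ (ν : ℚ) (f : R[X]) (d n : ℕ) : R[X] :=
  ∑ a ∈ Finset.range (n + 1), monomial a
    (PowerSeries.coeff (n - a) (bpow (-(1 + ν)) (rbRho f d) * rbGam ν f d n))

theorem rb_coeff_Q (ν : ℚ) (f : R[X]) (d n a : ℕ) : (rbQ ν f d n).coeff a =
    if a ≤ n then PowerSeries.coeff (n - a) (bpow (-(1 + ν)) (rbRho f d) * rbGam ν f d n)
    else 0 := by
  unfold rbQ
  rw [finsetSum_coeff]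
  simp only [coeff_monomial]
  rw [Finset.sum_ite_eq' (Finset.range (n + 1)) a]
  simp only [Finset.mem_range, Nat.lt_succ_iff]

omit [Algebra ℚ R] in
theorem rb_const {f : R[X]} (hf : f.Monic) {d : ℕ} (hd : f.natDegree = d) :
    PowerSeries.constantCoeff (rbRho f d) = 1 := by
  rw [← PowerSeries.coeff_zero_eq_constantCoeff_apply]
  unfold rbRho
  rw [PowerSeries.coeff_mk, if_pos (Nat.zero_le _), Nat.sub_zero, ← hd]
  exact hf

theorem rb_ex_top {f : R[X]} (hf : f.Monic) {d : ℕ} (hd : f.natDegree = d) (hd1 : 1 ≤ d) {ν : ℚ}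
    (hν : -1 < ν) (n : ℕ) {j : ℕ} (hj : d - 1 ≤ j) :
    (ex ν f (rbQ ν f d n)).coeff j = if j = n + d - 1 then 1 else 0 := by
  rw [rb_coeff_ex]
  have hz : ∀ a b, n < a ∨ d < b → ((a : ℚ) + (1 + ν) * b) •
      ((rbQ ν f d n).coeff a * f.coeff b) = 0 := by
    intro a b hab
    rcases hab with h | h
    · rw [rb_coeff_Q, if_neg (by omega), zero_mul, smul_zero]
    · rw [f.coeff_eq_zero_of_natDegree_lt (by omega), mul_zero, smul_zero]
  rcases Nat.lt_or_ge (n + d - 1) j with hj2 | hj2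
  · rw [if_neg (by omega)]
    apply Finset.sum_eq_zero
    intro x hx
    rw [Finset.HasAntidiagonal.mem_antidiagonal] at hx
    exact hz _ _ (by omega)
  · obtain ⟨p, hp⟩ : ∃ p, p = n + d - 1 - j := ⟨_, rfl⟩
    have hpn : p ≤ n := by omega
    have hj3 : j + 1 = n + d - p := by omega
    rw [hj3, rb_sum (n := n) (d := d) (p := p) (by omega)
      (fun a b => ((a : ℚ) + (1 + ν) * b) • ((rbQ ν f d n).coeff a * f.coeff b))
      (fun u w => if u ≤ n then (((n : ℚ) - u) + (1 + ν) * ((d : ℚ) - w)) •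
        (PowerSeries.coeff u (bpow (-(1 + ν)) (rbRho f d) * rbGam ν f d n) *
          PowerSeries.coeff w (rbRho f d)) else 0) hz ?_ ?_]
    · have h1 := rb_E_one ν (ρ := rbRho f d) (Γ := rbGam ν f d n) (n := n) (d := d)
        (rb_const hf hd) ?_ hpn
      · rw [rb_coeff_E] at h1
        have h2 : (if p = 0 then (1 : R) else 0) = if j = n + d - 1 then 1 else 0 := by
          by_cases h : p = 0
          · rw [if_pos h, if_pos (by omega)]
          · rw [if_neg h, if_neg (by omega)]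
        rw [← h2, ← h1]
        refine Finset.sum_congr rfl fun x hx => ?_
        rw [Finset.HasAntidiagonal.mem_antidiagonal] at hx
        rw [if_pos (by omega)]
      · intro l hl
        unfold rbGam
        rw [PowerSeries.coeff_mk, if_pos hl, smul_smul, mul_inv_cancel₀, one_smul]
        have h3 : (l : ℚ) ≤ n := by exact_mod_cast hl
        have h4 : (1 : ℚ) ≤ d := by exact_mod_cast hd1
        have h5 : 0 < (1 + ν) * d := mul_pos (by linarith) (by linarith)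
        have h6 : 0 < (n : ℚ) + (1 + ν) * d - l := by linarith
        exact h6.ne'
    · intro a b hab
      rcases hab with h | h
      · rw [if_neg (by omega)]
      · have h0 : PowerSeries.coeff b (rbRho f d) = 0 := by
          unfold rbRho
          rw [PowerSeries.coeff_mk, if_neg (by omega)]
        rw [h0, mul_zero, smul_zero, ite_self]
    · intro a ha b hb
      rw [if_pos (by omega), rb_coeff_Q, if_pos ha]
      have h0 : PowerSeries.coeff (d - b) (rbRho f d) = f.coeff b := by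
        unfold rbRho
        rw [PowerSeries.coeff_mk, if_pos (by omega)]
        congr 1
        omega
      rw [h0]
      congr 1
      rw [Nat.cast_sub ha, Nat.cast_sub hb]
      ring

theorem rb_cl {f : R[X]} (hf : f.Monic) {d : ℕ} (hd : f.natDegree = d) (hd1 : 1 ≤ d) {ν : ℚ}
    (hν : -1 < ν) {cl : R[X] →ₗ[R] (Fin (d - 1) → R)}
    (h1 : ∀ i : Fin (d - 1), cl (X ^ (i : ℕ)) = Pi.single i 1) (h2 : ∀ q, cl (ex ν f q) = 0)
    (n : ℕ) (i : Fin (d - 1)) :
    cl (X ^ (n + d - 1)) i = - (ex ν f (rbQ ν f d n)).coeff i := by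
  obtain ⟨r, hr⟩ : ∃ r, r = X ^ (n + d - 1) - ex ν f (rbQ ν f d n) := ⟨_, rfl⟩
  have hlow : ∀ j, d - 1 ≤ j → r.coeff j = 0 := by
    intro j hj
    rw [hr, coeff_sub, coeff_X_pow, rb_ex_top hf hd hd1 hν n hj, sub_self]
  have hcl : cl (X ^ (n + d - 1)) = cl r := by
    rw [hr, map_sub, h2, sub_zero]
  have hi := i.2
  have hdeg : r.natDegree < d - 1 := by
    by_contra hc
    push Not at hc
    have h3 := hlow _ hc
    rw [coeff_natDegree, leadingCoeff_eq_zero] at h3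
    rw [h3, natDegree_zero] at hc
    omega
  have hsum := r.as_sum_range' (d - 1) hdeg
  have h3 : cl r i = r.coeff i := by
    nth_rewrite 1 [hsum]
    rw [map_sum, Finset.sum_apply, Finset.sum_range]
    rw [Finset.sum_eq_single i]
    · rw [← mul_one (r.coeff i), ← smul_eq_mul, ← smul_monomial, monomial_one_right_eq_X_pow,
        map_smul, h1]
      simp
    · intro k _ hk
      rw [← mul_one (r.coeff k), ← smul_eq_mul, ← smul_monomial, monomial_one_right_eq_X_pow,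
        map_smul, h1]
      simp [hk.symm]
    · intro h
      exact absurd (Finset.mem_univ i) h
  rw [hcl, h3, hr, coeff_sub, coeff_X_pow, if_neg (by omega), zero_sub]

/-- The bound for the coefficients of `q`. -/
theorem rb_bound {D : Derivation ℚ R R} (S : Filt D) {f : R[X]} (hf : f.Monic) {d : ℕ}
    (hd : f.natDegree = d) (hd1 : 1 ≤ d) {ν : ℚ} (hν : -1 < ν) {e : ℕ}
    (hfe : ∀ k, f.coeff k ∈ S.I e) (hq : ∀ k, Ring.choose ν k • (1 : R) ∈ S.I k)
    (hq' : ∀ k, Ring.choose (-(1 + ν)) k • (1 : R) ∈ S.I k) :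
    ∃ b s c : ℕ, 0 < b ∧ 0 < s ∧ ∀ N L : ℕ, (∀ k, 1 ≤ k → k ≤ b * N + s → k ∣ L) →
      ∀ n ≤ N, ∀ a, (L : ℚ) • (rbQ ν f d n).coeff a ∈ S.I (c * (N + 1)) := by
  have hρ := rb_const hf hd
  have hρ2 : ∀ k, PowerSeries.coeff k (rbRho f d) ∈ S.I (e * (k + 1)) := by
    intro k
    have h0 : PowerSeries.coeff k (rbRho f d) ∈ S.I e := by
      unfold rbRho
      rw [PowerSeries.coeff_mk]
      split_ifs
      · exact hfe _
      · exact (S.I e).zero_mem
    exact S.mono (Nat.le_mul_of_pos_right e (Nat.succ_pos k)) h0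
  obtain ⟨c1, hc1⟩ := bpow_lin S hq hρ hρ2
  obtain ⟨c2, hc2⟩ := bpow_lin S hq' hρ hρ2
  have hd1' : (1 : ℚ) ≤ d := by exact_mod_cast hd1
  obtain ⟨θ, hθ⟩ : ∃ θ : ℚ, θ = (1 + ν) * d := ⟨_, rfl⟩
  have hθ0 : 0 < θ := by
    rw [hθ]
    exact mul_pos (by linarith) (by linarith)
  obtain ⟨s, hs⟩ : ∃ s : ℕ, (s : ℤ) = θ.num :=
    ⟨θ.num.toNat, Int.toNat_of_nonneg (Rat.num_nonneg.2 hθ0.le)⟩
  have hs0 : 0 < s := by
    have := Rat.num_pos.2 hθ0
    omega
  have hb0 : 0 < θ.den := θ.den_pos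
  have hθ2 : (θ.den : ℚ) * θ = s := by
    rw [mul_comm, Rat.mul_den_eq_num, ← hs]
    rfl
  refine ⟨θ.den, s, c1 + c2, hb0, hs0, ?_⟩
  intro N L hL n hn a
  rw [rb_coeff_Q]
  split_ifs with ha
  swap
  · rw [smul_zero]
    exact (S.I _).zero_mem
  rw [PowerSeries.coeff_mul, Finset.smul_sum]
  apply AddSubgroup.sum_mem
  intro x hx
  rw [Finset.HasAntidiagonal.mem_antidiagonal] at hx
  rw [← mul_smul_comm]
  have hxl : x.2 ≤ n := by omega
  have h1 : (L : ℚ) • PowerSeries.coeff x.2 (rbGam ν f d n) ∈ S.I (c1 * (x.2 + 1)) := by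
    unfold rbGam
    rw [PowerSeries.coeff_mk, if_pos hxl, smul_smul]
    obtain ⟨t, ht⟩ := hL (θ.den * (n - x.2) + s) (by omega) (by
      have := Nat.mul_le_mul_left θ.den (show n - x.2 ≤ N by omega)
      omega)
    have h2 : (L : ℚ) * ((n : ℚ) + (1 + ν) * d - (x.2 : ℕ))⁻¹ = ((θ.den * t : ℕ) : ℤ) := by
      have h3 : (x.2 : ℚ) ≤ n := by exact_mod_cast hxl
      have h4 : 0 < (n : ℚ) + θ - (x.2 : ℕ) := by linarith
      rw [← hθ, mul_inv_eq_iff_eq_mul₀ h4.ne', ht]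
      push_cast
      rw [Nat.cast_sub hxl, ← hθ2]
      ring
    rw [h2]
    exact rb_int S _ (hc1 _)
  have h5 := S.mul (hc2 x.1) h1
  refine S.mono ?_ h5
  have h6 : x.1 + 1 ≤ N + 1 := by omega
  have h7 : x.2 + 1 ≤ N + 1 := by omega
  calc c2 * (x.1 + 1) + c1 * (x.2 + 1) ≤ c2 * (N + 1) + c1 * (N + 1) :=
        Nat.add_le_add (Nat.mul_le_mul_left _ h6) (Nat.mul_le_mul_left _ h7)
    _ = (c1 + c2) * (N + 1) := by ring

theorem red_bound {D : Derivation ℚ R R} (S : Filt D) {f : R[X]} (hf : f.Monic) {d : ℕ}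
    (hd : f.natDegree = d) (hd1 : 1 ≤ d) {ν : ℚ} (hν : -1 < ν) {e : ℕ}
    (hfe : ∀ k, f.coeff k ∈ S.I e) (hq : ∀ k, Ring.choose ν k • (1 : R) ∈ S.I k)
    (hq' : ∀ k, Ring.choose (-(1 + ν)) k • (1 : R) ∈ S.I k) {cl : R[X] →ₗ[R] (Fin (d - 1) → R)}
    (h1 : ∀ i : Fin (d - 1), cl (X ^ (i : ℕ)) = Pi.single i 1) (h2 : ∀ q, cl (ex ν f q) = 0) :
    ∃ H c : ℕ, ∀ N : ℕ, ∃ q : ℕ, 0 < q ∧ q ≤ H ^ (N + 1) ∧
      ∀ M ≤ N, ∀ i, (q : R) * cl (X ^ M) i ∈ S.I (c * (N + 1)) := by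
  obtain ⟨b, s, c, hb, hs, hbd⟩ := rb_bound S hf hd hd1 hν hfe hq hq'
  obtain ⟨v, hv⟩ : ∃ v : ℕ, v = ν.den := ⟨_, rfl⟩
  have hv0 : 0 < v := hv ▸ ν.den_pos
  have hcast : ∀ (z : ℕ) (y : R), (z : R) * y = (((z : ℤ)) : ℚ) • y := by
    intro z y
    rw [Algebra.smul_def]
    simp
  refine ⟨v * 4 ^ (4 * (b + s)), c + e, ?_⟩
  intro N
  obtain ⟨L, hL0, hL1, hL2⟩ := Pool.Agent.Helper37.GP.exists_den (b * N + s)
  refine ⟨v * L, Nat.mul_pos hv0 hL0, ?_, ?_⟩
  · rw [mul_pow, ← pow_mul]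
    apply Nat.mul_le_mul
    · exact Nat.le_self_pow (Nat.succ_ne_zero N) v
    · refine hL1.trans (Nat.pow_le_pow_right (by norm_num) ?_)
      nlinarith [Nat.zero_le (b * N), Nat.zero_le (s * N)]
  · intro M hM i
    have hi := i.2
    rcases Nat.lt_or_ge M (d - 1) with hM2 | hM2
    · have h3 := h1 ⟨M, hM2⟩
      simp only at h3
      rw [h3, hcast]
      apply rb_int
      refine S.mono (Nat.zero_le _) ?_
      rw [Pi.single_apply]
      split_ifs
      · exact S.one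
      · exact (S.I 0).zero_mem
    · obtain ⟨n, hn⟩ : ∃ n, M = n + d - 1 := ⟨M + 1 - d, by omega⟩
      rw [hn, rb_cl hf hd hd1 hν h1 h2 n i, mul_neg]
      apply AddSubgroup.neg_mem
      rw [rb_coeff_ex, Finset.mul_sum]
      apply AddSubgroup.sum_mem
      intro x _
      have h4 := hbd N L hL2 n (by omega) x.1
      have h5 := S.mul h4 (hfe x.2)
      have h6 : ((v * L : ℕ) : R) * (((x.1 : ℚ) + (1 + ν) * x.2) •
          ((rbQ ν f d n).coeff x.1 * f.coeff x.2)) =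
          (((v * x.1 + (v + ν.num) * x.2 : ℤ)) : ℚ) •
            ((L : ℚ) • (rbQ ν f d n).coeff x.1 * f.coeff x.2) := by
        have h7 : (v : ℚ) * ν = ν.num := by
          rw [hv, mul_comm, Rat.mul_den_eq_num]
        have h8 : (((v * x.1 + (v + ν.num) * x.2 : ℤ)) : ℚ) =
            v * ((x.1 : ℚ) + (1 + ν) * x.2) := by
          push_cast
          rw [← h7]
          ring
        rw [h8, hcast]
        simp only [Algebra.smul_def, map_add, map_mul]
        push_cast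
        ring
      rw [h6]
      refine S.mono ?_ (rb_int S _ h5)
      have h9 : e ≤ e * (N + 1) := Nat.le_mul_of_pos_right e (Nat.succ_pos N)
      nlinarith

end Pool.Agent.Helper79.SE
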