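import Pool.Agent.Helper79.SE.Lift
import Pool.Agent.Helper79.SE.RedBound
import Pool.Agent.Helper79.SE.Hat
import Pool.Agent.Helper79.SE.LeftRight
import Pool.Agent.Helper79.SE.GalB
import Pool.Agent.Helper79.SE.Inst
import Pool.Agent.Helper79.SE.Bez

/-!
# SE: assembly, algebraic part
-/

open Polynomial

namespace Pool.Agent.Helper79.SE

theorem block {R : Type} [CommRing R] [Algebra ℚ R] {D : Derivation ℚ R R} (S : Filt D)
    {f α β : R[X]} (h : α * f + β * derivative f = 1) (hf : f.Monic) {d : ℕ}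
    (hd : f.natDegree = d) (hd1 : 1 ≤ d) {e : ℕ} (hfe : ∀ k, f.coeff k ∈ S.I e)
    (hα : ∀ k, α.coeff k ∈ S.I e) (hβ : ∀ k, β.coeff k ∈ S.I e) {ν : ℚ} (hν : -1 < ν)
    (hν0 : ν ≠ 0) (hq : ∀ k, Ring.choose ν k • (1 : R) ∈ S.I k)
    (hq' : ∀ k, Ring.choose (-(1 + ν)) k • (1 : R) ∈ S.I k)
    {a : Matrix (Fin (d - 1)) (Fin (d - 1)) R} {g : Fin (d - 1) → R[X]}
    (star : ∀ i : Fin (d - 1), ν • (X ^ (i : ℕ) * dc D f) =
      f * (∑ l : Fin (d - 1), C (a i l) * X ^ (l : ℕ) + derivative (g i)) +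
        ν • (g i * derivative f)) :
    ∃ B : ℕ → Matrix (Fin (d - 1)) (Fin (d - 1)) R, B 0 = 1 ∧
      (∀ n i l, ((n + 1 : ℕ) : R) * B (n + 1) i l = D (B n i l) + ∑ m, B n i m * a m l) ∧
      ∃ H c : ℕ, ∀ N : ℕ, ∃ q : ℕ, 0 < q ∧ q ≤ H ^ (N + 1) ∧
        ∀ n ≤ N, ∀ i l, (q : R) * B n i l ∈ S.I (c * (N + 1)) := by
  obtain ⟨U, G, c, hU0, hG1, hG, hUc, hGc⟩ := exists_lift S h hfe hα hβ
  obtain ⟨cl, h1, h2, -⟩ := exists_red hf hd hd1 hν
  have hred := red_bound S hf hd hd1 hν hfe hq hq' h1 h2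
  have hbd := hat_bound S hUc hGc hG1 hq hred
  refine ⟨fun n => Matrix.of fun i l => PowerSeries.coeff n (hatB ν U G cl i l), ?_, ?_, ?_⟩
  · ext i l
    change PowerSeries.coeff 0 (hatB ν U G cl i l) = _
    rw [PowerSeries.coeff_zero_eq_constantCoeff_apply, hat_zero h1 hU0 hG1, Matrix.one_apply]
  · intro n i l
    exact left_right (fun i l => hat_zero h1 hU0 hG1 i l)
      (fun i l => hat_ode h hf hν0 h2 hU0 hG1 hG star i l) n i l
  · exact hbd

section

variable {K : Type} [Field K] [CharZero K]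

/-- The ring homomorphism `p ↦ p(s₀ + c x)`. -/
noncomputable def phi (s₀ c : K) : K[X] →+* PowerSeries K :=
  (Polynomial.coeToPowerSeries.ringHom).comp (Polynomial.compRingHom (C s₀ + C c * X))

theorem phi_apply (s₀ c : K) (p : K[X]) :
    phi s₀ c p = ((p.comp (C s₀ + C c * X) : K[X]) : PowerSeries K) := rfl

theorem Du_phi (s₀ c : K) (p : K[X]) :
    Du K (phi s₀ c p) =
      ((-(C c * X ^ 2) : K[X]) : PowerSeries K) * phi s₀ c (derivative p) := by
  rw [Du_apply, phi_apply, phi_apply, PowerSeries.derivative_coe, derivative_comp]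
  simp only [derivative_add, derivative_C, derivative_mul, derivative_X, mul_one, zero_mul,
    zero_add]
  rw [← Polynomial.coe_X, ← Polynomial.coe_pow, ← Polynomial.coe_mul, ← Polynomial.coe_neg,
    ← Polynomial.coe_mul]
  congr 1
  ring

theorem finite_range_coeff {R : Type} [Semiring R] (p : R[X]) : (Set.range p.coeff).Finite := by
  refine Set.Finite.subset (((p.support.finite_toSet).image p.coeff).insert 0) ?_
  rintro y ⟨k, rfl⟩
  by_cases h : p.coeff k = 0
  · exact Or.inl h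
  · exact Or.inr ⟨k, mem_support_iff.2 h, rfl⟩

theorem isIntegral_natCast (n : ℕ) : IsIntegral ℤ (n : K) := by
  have := isIntegral_algebraMap (R := ℤ) (A := K) (x := (n : ℤ))
  simpa using this

theorem dc_phi (s₀ c : K) (f : K[X][X]) :
    dc (Du K) (f.map (phi s₀ c)) =
      C ((-(C c * X ^ 2) : K[X]) : PowerSeries K) * (dc (dt K) f).map (phi s₀ c) := by
  ext1 n
  rw [coeff_dc, coeff_map, Du_phi, coeff_C_mul, coeff_map, coeff_dc]
  rfl

/-- The combined iterates, with bounds for the denominators. -/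
theorem exists_B [Algebra.IsAlgebraic ℚ K] {a d : ℕ} (ha : 2 ≤ a) (hd1 : 1 ≤ d) {f : K[X][X]}
    (hf : f.Monic) (hd : f.natDegree = d) {s₀ c : K} {α β : K[X][X]} {T₁ : K[X]}
    (hT : α * f + β * derivative f = C T₁) (hT0 : T₁.eval s₀ ≠ 0)
    {A : Fin (a - 1) → Matrix (Fin (d - 1)) (Fin (d - 1)) K[X]}
    {g : Fin (a - 1) → Fin (d - 1) → K[X][X]}
    (star : ∀ (j : Fin (a - 1)) (i : Fin (d - 1)), (-(((j : ℕ) : ℚ) + 1) / a) • (C T₁ * (X ^ (i : ℕ) * dc (dt K) f)) =
      f * (∑ l : Fin (d - 1), C (A j i l) * X ^ (l : ℕ) + derivative (g j i)) +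
        (-(((j : ℕ) : ℚ) + 1) / a) • (g j i * derivative f)) :
    ∃ (τ : PowerSeries K) (B : ℕ → Fin (a - 1) → Matrix (Fin (d - 1)) (Fin (d - 1)) (PowerSeries K)),
      phi s₀ c T₁ * τ = 1 ∧ (∀ j, B 0 j = 1) ∧
      (∀ n j i l, ((n + 1 : ℕ) : PowerSeries K) * B (n + 1) j i l =
        -(PowerSeries.X ^ 2 * PowerSeries.derivative K (B n j i l)) +
          ∑ m, B n j i m * (((-(C c * X ^ 2) : K[X]) : PowerSeries K) * τ *
            phi s₀ c (A j m l))) ∧
      ∃ H : ℕ, ∀ N : ℕ, ∃ q : ℕ, 0 < q ∧ q ≤ H ^ (N + 1) ∧ ∀ n m, n + m ≤ N → ∀ j i l,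
        IsIntegral ℤ ((q : K) * PowerSeries.coeff m (B n j i l)) := by
  have hu : IsUnit (phi s₀ c T₁) := by
    rw [PowerSeries.isUnit_iff_constantCoeff, phi_apply, Polynomial.constantCoeff_coe,
      coeff_zero_eq_eval_zero, eval_comp, isUnit_iff_ne_zero]
    simpa using hT0
  obtain ⟨τ, hτ⟩ := hu.exists_right_inv
  set ν : Fin (a - 1) → ℚ := fun j => -(((j : ℕ) : ℚ) + 1) / a with hνdef
  have haq : (0 : ℚ) < a := by
    have : 0 < a := by omega
    exact_mod_cast this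
  have hν : ∀ j, -1 < ν j := by
    intro j
    rw [hνdef]
    simp only
    rw [neg_div, neg_lt_neg_iff, div_lt_one haq]
    have : (j : ℕ) + 1 < a := by
      have := j.2
      omega
    exact_mod_cast this
  have hν0 : ∀ j, ν j ≠ 0 := by
    intro j
    rw [hνdef]
    simp only
    rw [neg_div, neg_ne_zero]
    positivity
  set fx := f.map (phi s₀ c) with hfx
  set αx := C τ * α.map (phi s₀ c) with hαx
  set βx := C τ * β.map (phi s₀ c) with hβx
  have hBez : αx * fx + βx * derivative fx = 1 := by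
    have h1 := congrArg (Polynomial.map (phi s₀ c)) hT
    rw [Polynomial.map_add, Polynomial.map_mul, Polynomial.map_mul, map_C,
      ← derivative_map] at h1
    have h2 : C τ * C (phi s₀ c T₁) = 1 := by
      rw [← C_mul, mul_comm, hτ, C_1]
    rw [← h2, ← h1]
    ring
  have hfm : fx.Monic := hf.map _
  have hfd : fx.natDegree = d := by
    rw [hfx, hf.natDegree_map, hd]
  have hstar : ∀ (j : Fin (a - 1)) (i : Fin (d - 1)), ν j • (X ^ (i : ℕ) * dc (Du K) fx) =
      fx * (∑ l : Fin (d - 1), C (((-(C c * X ^ 2) : K[X]) : PowerSeries K) * τ *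
            phi s₀ c (A j i l)) * X ^ (l : ℕ) +
        derivative (C (((-(C c * X ^ 2) : K[X]) : PowerSeries K) * τ) *
          (g j i).map (phi s₀ c))) +
        ν j • (C (((-(C c * X ^ 2) : K[X]) : PowerSeries K) * τ) *
          (g j i).map (phi s₀ c) * derivative fx) := by
    intro j i
    have h1 := congrArg (Polynomial.mapRingHom (phi s₀ c)) (star j i)
    rw [map_rat_smul, map_add, map_mul, map_mul, map_mul, map_add, map_rat_smul, map_mul,
      map_sum] at h1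
    simp only [coe_mapRingHom, map_C, Polynomial.map_pow, map_X, Polynomial.map_mul,
      ← derivative_map] at h1
    set e : PowerSeries K := ((-(C c * X ^ 2) : K[X]) : PowerSeries K) with he
    have h2 : C τ * C (phi s₀ c T₁) = 1 := by
      rw [← C_mul, mul_comm, hτ, C_1]
    have h3 := congrArg (fun p => C (e * τ) * p) h1
    simp only [mul_smul_comm, mul_add] at h3
    rw [dc_phi, ← he]
    have h4 : X ^ (i : ℕ) * (C e * (dc (dt K) f).map (phi s₀ c)) =
        C (e * τ) * (C (phi s₀ c T₁) * (X ^ (i : ℕ) * (dc (dt K) f).map (phi s₀ c))) := by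
      rw [C_mul]
      linear_combination (-(C e * (X ^ (i : ℕ) * (dc (dt K) f).map (phi s₀ c)))) * h2
    rw [h4, h3, derivative_C_mul]
    congr 1
    · rw [mul_add]
      congr 1
      · rw [Finset.mul_sum, Finset.mul_sum, Finset.mul_sum]
        refine Finset.sum_congr rfl fun l _ => ?_
        rw [C_mul (a := e * τ)]
        ring
      · ring
    · congr 1
      ring
  -- the filtration
  have hgeoφ : ∀ p : K[X], Geo (phi s₀ c p) := fun p => geo_poly _
  have hgeoτ : Geo τ := geo_inv (hgeoφ T₁) hτ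
  have hs1 : ∀ y ∈ Set.range fx.coeff ∪ (Set.range αx.coeff ∪ Set.range βx.coeff), Geo y := by
    rintro y (⟨k, rfl⟩ | ⟨k, rfl⟩ | ⟨k, rfl⟩)
    · rw [hfx, coeff_map]
      exact hgeoφ _
    · rw [hαx, coeff_C_mul, coeff_map]
      exact geo_mul hgeoτ (hgeoφ _)
    · rw [hβx, coeff_C_mul, coeff_map]
      exact geo_mul hgeoτ (hgeoφ _)
  have hs2 : (Set.range fx.coeff ∪ (Set.range αx.coeff ∪ Set.range βx.coeff)).Finite :=
    (finite_range_coeff _).union ((finite_range_coeff _).union (finite_range_coeff _))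
  choose q₁ hq₁ hq₁' using fun ν : ℚ => choose_mem (K := K) ν
  obtain ⟨M, hM1, hMq, hM⟩ := geo_finite hs2 hs1
    (∏ j : Fin (a - 1), (q₁ (ν j) * q₁ (-(1 + ν j))))
    (Nat.one_le_iff_ne_zero.2 (Finset.prod_ne_zero_iff.2 fun j _ =>
      Nat.mul_ne_zero (Nat.one_le_iff_ne_zero.1 (hq₁ _)) (Nat.one_le_iff_ne_zero.1 (hq₁ _))))
  obtain ⟨S, hS⟩ := exists_filt K M
  have hfe : ∀ k, fx.coeff k ∈ S.I 1 := fun k => (hS _ _).2 (hM _ (Or.inl ⟨k, rfl⟩))
  have hαe : ∀ k, αx.coeff k ∈ S.I 1 := fun k => (hS _ _).2 (hM _ (Or.inr (Or.inl ⟨k, rfl⟩)))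
  have hβe : ∀ k, βx.coeff k ∈ S.I 1 := fun k => (hS _ _).2 (hM _ (Or.inr (Or.inr ⟨k, rfl⟩)))
  have hdvd : ∀ j, q₁ (ν j) * q₁ (-(1 + ν j)) ∣ M := fun j =>
    (Finset.dvd_prod_of_mem (fun j => q₁ (ν j) * q₁ (-(1 + ν j))) (Finset.mem_univ j)).trans hMq
  choose B hB0 hB1 H₁ c₁ hB2 using fun j => block S hBez hfm hfd hd1 hfe hαe hβe (hν j) (hν0 j)
    (hq₁' (ν j) M ((Dvd.intro _ rfl).trans (hdvd j)) S hS)
    (hq₁' (-(1 + ν j)) M ((Dvd.intro_left _ rfl).trans (hdvd j)) S hS) (hstar j)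
  refine ⟨τ, fun n j => B j n, hτ, hB0, fun n j i l => ?_, ?_⟩
  · rw [← Du_apply]
    exact hB1 j n i l
  · choose q hq1 hq2 hq3 using hB2
    refine ⟨(∏ j, H₁ j) * M ^ ((∑ j, c₁ j) + 1), fun N => ⟨(∏ j, q j N) * M ^ (((∑ j, c₁ j) + 1) * (N + 1)),
      Nat.mul_pos (Finset.prod_pos fun j _ => hq1 j N) (pow_pos hM1 _), ?_, ?_⟩⟩
    · rw [mul_pow, ← pow_mul, ← Finset.prod_pow]
      exact Nat.mul_le_mul_right _ (Finset.prod_le_prod' fun j _ => hq2 j N)
    · intro n m hnm j i l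
      have h1 := (hS _ _).1 (hq3 j N n (by omega) i l) m
      have h2 : PowerSeries.coeff m ((q j N : PowerSeries K) * B j n i l) =
          (q j N : K) * PowerSeries.coeff m (B j n i l) := by
        rw [← map_natCast (PowerSeries.C (R := K)), PowerSeries.coeff_C_mul]
      rw [h2] at h1
      have h3 : q j N ∣ ∏ j, q j N := Finset.dvd_prod_of_mem (fun j => q j N) (Finset.mem_univ j)
      have h4 : M ^ (c₁ j * (N + 1) + m) ∣ M ^ (((∑ j, c₁ j) + 1) * (N + 1)) := by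
        refine pow_dvd_pow _ ?_
        have : c₁ j ≤ ∑ j, c₁ j := Finset.single_le_sum (f := fun j => c₁ j)
          (fun _ _ => Nat.zero_le _) (Finset.mem_univ j)
        nlinarith [Nat.mul_le_mul_right (N + 1) this]
      obtain ⟨u, hu1⟩ := h3
      obtain ⟨v, hv1⟩ := h4
      have h5 : (((∏ j, q j N) * M ^ (((∑ j, c₁ j) + 1) * (N + 1)) : ℕ) : K) *
          PowerSeries.coeff m (B j n i l) = ((u * v : ℕ) : K) *
          ((M : K) ^ (c₁ j * (N + 1) + m) * ((q j N : K) * PowerSeries.coeff m (B j n i l))) := by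
        rw [hu1, hv1]
        push_cast
        ring
      rw [h5]
      exact IsIntegral.mul (isIntegral_natCast (u * v)) h1

end

end Pool.Agent.Helper79.SE
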