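import Pool.Agent.Helper79.SE.Per

/-!
# SE: period matrices of superelliptic families
-/

open Polynomial Pool.Agent.Helper64.Per

namespace Pool.Agent.Helper79.SE

/-- `P` is locally on `U` a matrix of periods of the forms `x^i dx / y^(j+1)`, `i < d - 1`,
`j < a - 1`, on the curves `y^a = f(x, t)`: every point of `U` has a neighbourhood `V` with closed
loops (`LoopSE`), one for every column, which do not depend on `t` in the `x`-plane, such that the
entries of `P t`, `t ∈ V`, are the integrals over these loops. -/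
def IsPeriodSE {κ : IntermediateField ℚ Qbar} (a d : ℕ) (f : Polynomial (Polynomial κ))
    (U : Set ℂ) (P : ℂ → Matrix (Fin (d - 1) × Fin (a - 1)) (Fin (d - 1) × Fin (a - 1)) ℂ) :
    Prop :=
  ∀ t₀ ∈ U, ∃ V : Set ℂ, IsOpen V ∧ t₀ ∈ V ∧ ∃ (γ : Fin (d - 1) × Fin (a - 1) → ℝ → ℂ)
    (y : Fin (d - 1) × Fin (a - 1) → ℂ → ℝ → ℂ),
    (∀ k, LoopSE a f V (γ k) (y k)) ∧
      ∀ t ∈ V, ∀ p k, P t p k = perSE (γ k) (y k) p.1 p.2 t

end Pool.Agent.Helper79.SE
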