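import Pool.Agent.Helper79.GX.KDefs

/-!
# SE-12: restriction to a smaller open set, the substitution `t = s₀ + c/u`, finitely many exceptions

* `rel_restrict`: the same `r`. Let `M ∈ BFibre U P s` with `r(M) ≠ 0`; then `M ∈ BFibre U' P s`: if `q(t, P(t)) = 0` on `U'` then on `U` (identity theorem: `t ↦ evM q t (P t)` is analytic on the connected
  set `U`, zero on the nonempty open subset `U'`; `AnalyticOnNhd.eqOn_zero_of_preconnected_of_eventuallyEq_zero`), so `q(s, M) = 0`.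
* `rel_moebius`: `s = s₀ + c/n`. `kapC κ n 0 ⊇ κ`: map `r` to a polynomial over `kapC κ n 0` (`MvPolynomial.map (inclusion)`), same degree bound, same values `evK`. Let `M ∈ BFibre U P s`, `r(M) ≠ 0`. Claim
  `M ∈ BFibreC U₁ 0 P₁ n`, `U₁ = {u ≠ 0 | s₀ + c/u ∈ U}`, `P₁(u) = P(s₀ + c/u)`. Let `q ∈ Qbar[x, y, M]` vanish at all `(u, 0, P₁(u))`, of degree `≤ N` in `x`. Put
  `q'(t, M) = (t - s₀)^(N+1) q(c/(t - s₀), 0, M)`, a polynomial in `t` and `M` over `Qbar`: monomial `b x^i y^0 m ↦ b c^i (t-s₀)^(N+1-i) m` (and `0` if `y` occurs), `evM q' t M' = (t - s₀)^(N+1)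
  evC q (c/(t-s₀)) 0 M'` for `t ≠ s₀`, and it vanishes for `t = s₀`. So `q'` vanishes on the graph of `P` over `U`, hence `0 = evM q' s M = (s - s₀)^(N+1) evC q n 0 M`, `s ≠ s₀`.
* `few_of_large`: the additional integers are those with `|i| ≤ n₀`: at most `2 n₀ + 1`; take `B + 2 n₀ + 1`, `|C| + 2 n₀ + 1` (`X^(1-θ) ≥ 1`). All sets are finite.
-/

open Polynomial Pool.Agent.Helper64.Per Pool.Agent.Helper79.GX

namespace Pool.Agent.Helper79.SE

section

variable {ι : Type} [Fintype ι] [DecidableEq ι]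

omit [Fintype ι] [DecidableEq ι] in
theorem analytic_evM (q : MvPolynomial (ι × ι) (Polynomial Qbar)) {U : Set ℂ}
    {P : ℂ → Matrix ι ι ℂ} (hP : ∀ i k, AnalyticOnNhd ℂ (fun t => P t i k) U) :
    AnalyticOnNhd ℂ (fun t => evM q t (P t)) U := by
  induction q using MvPolynomial.induction_on with
  | C a =>
    have h1 : (fun t => evM (MvPolynomial.C a : MvPolynomial (ι × ι) (Polynomial Qbar)) t (P t)) =
        fun t => Polynomial.aeval t a := by
      funext t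
      simp [evM, ev]
    rw [h1]
    induction a using Polynomial.induction_on' with
    | add p q hp hq =>
      have h2 : (fun t : ℂ => Polynomial.aeval t (p + q)) =
        fun t => Polynomial.aeval t p + Polynomial.aeval t q := by
        funext t; rw [map_add]
      rw [h2]
      refine AnalyticOnNhd.add (hp ?_) (hq ?_)
      · funext t; simp [evM, ev]
      · funext t; simp [evM, ev]
    | monomial n a =>
      have h2 : (fun t : ℂ => Polynomial.aeval t (Polynomial.monomial n a)) =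
        fun t => (a : ℂ) * t ^ n := by
        funext t; rw [Polynomial.aeval_monomial]; rfl
      rw [h2]
      exact analyticOnNhd_const.mul (analyticOnNhd_id.pow n)
  | add p q hp hq =>
    have h2 : (fun t => evM (p + q) t (P t)) = fun t => evM p t (P t) + evM q t (P t) := by
      funext t; simp [evM]
    rw [h2]
    exact hp.add hq
  | mul_X p i hp =>
    have h2 : (fun t => evM (p * MvPolynomial.X i) t (P t)) =
        fun t => evM p t (P t) * P t i.1 i.2 := by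
      funext t; simp [evM]
    rw [h2]
    exact hp.mul (hP _ _)

theorem rel_restrict {U U' : Set ℂ} (hU : IsPreconnected U) (hU' : IsOpen U')
    (hne : U'.Nonempty) (hsub : U' ⊆ U) {P : ℂ → Matrix ι ι ℂ}
    (hP : ∀ i k, AnalyticOnNhd ℂ (fun t => P t i k) U) {s : ℂ} {κ : IntermediateField ℚ Qbar}
    {δ : ℕ} (h : HasRelation U P s κ δ) : HasRelation U' P s κ δ := by
  obtain ⟨r, hdeg, hZ, hnot⟩ := h
  refine ⟨r, hdeg, hZ, fun hall => hnot fun M hM => hall M ⟨hM.1, fun q hq => hM.2 q ?_⟩⟩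
  obtain ⟨z, hz⟩ := hne
  have han : AnalyticOnNhd ℂ (fun t => evM q t (P t)) U := analytic_evM q hP
  have hzero : (fun t => evM q t (P t)) =ᶠ[nhds z] 0 :=
    Filter.eventuallyEq_of_mem (hU'.mem_nhds hz) fun t ht => hq t ht
  intro t ht
  exact han.eqOn_zero_of_preconnected_of_eventuallyEq_zero hU (hsub hz) hzero ht

omit [Fintype ι] [DecidableEq ι] in
theorem exists_subst (s₀ c : ℂ) (s' c' : Qbar) (hs : (s' : ℂ) = s₀) (hc : (c' : ℂ) = c)
    (q : MvPolynomial (Bool ⊕ ι × ι) Qbar) :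
    ∃ (N : ℕ) (q' : MvPolynomial (ι × ι) (Polynomial Qbar)), ∀ t : ℂ, t ≠ s₀ →
      ∀ M : Matrix ι ι ℂ, evM q' t M = (t - s₀) ^ N * evC q (c / (t - s₀)) 0 M := by
  have hX : ∀ t : ℂ, ev t (X - C s') = t - s₀ := by
    intro t
    rw [map_sub]
    simp only [ev, AlgHom.toRingHom_eq_coe, RingHom.coe_coe, aeval_X, aeval_C]
    rw [← hs]; rfl
  induction q using MvPolynomial.induction_on with
  | C a =>
    refine ⟨0, MvPolynomial.C (C a), fun t ht M => ?_⟩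
    simp only [evM, evC, MvPolynomial.eval₂_C, pow_zero, one_mul, MvPolynomial.aeval_C]
    simp only [ev, AlgHom.toRingHom_eq_coe, RingHom.coe_coe, aeval_C]
  | add p q hp hq =>
    obtain ⟨N₁, p', hp⟩ := hp
    obtain ⟨N₂, q', hq⟩ := hq
    refine ⟨N₁ + N₂, MvPolynomial.C ((X - C s') ^ N₂) * p' + MvPolynomial.C ((X - C s') ^ N₁) * q',
      fun t ht M => ?_⟩
    have h1 := hp t ht M
    have h2 := hq t ht M
    simp only [evM, evC] at h1 h2 ⊢
    rw [MvPolynomial.eval₂_add, MvPolynomial.eval₂_mul, MvPolynomial.eval₂_mul,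
      MvPolynomial.eval₂_C, MvPolynomial.eval₂_C, h1, h2, map_pow, map_pow, hX, map_add]
    ring
  | mul_X p i hp =>
    obtain ⟨N, p', hp⟩ := hp
    rcases i with b | i
    · cases b with
      | false =>
        refine ⟨0, 0, fun t ht M => ?_⟩
        simp [evM, evC]
      | true =>
        refine ⟨N + 1, p' * MvPolynomial.C (C c'), fun t ht M => ?_⟩
        have h1 := hp t ht M
        simp only [evM, evC] at h1 ⊢
        rw [MvPolynomial.eval₂_mul, MvPolynomial.eval₂_C, h1, map_mul, MvPolynomial.aeval_X]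
        have h3 : ev t (C c') = c := by
          simp only [ev, AlgHom.toRingHom_eq_coe, RingHom.coe_coe, aeval_C]
          rw [← hc]; rfl
        rw [h3]
        have h4 : t - s₀ ≠ 0 := sub_ne_zero.2 ht
        simp only [Sum.elim_inl, if_true]
        field_simp
        ring
    · refine ⟨N, p' * MvPolynomial.X i, fun t ht M => ?_⟩
      have h1 := hp t ht M
      simp only [evM, evC] at h1 ⊢
      rw [MvPolynomial.eval₂_mul, MvPolynomial.eval₂_X, h1, map_mul, MvPolynomial.aeval_X]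
      simp only [Sum.elim_inr]
      ring

theorem rel_moebius {U : Set ℂ} {P : ℂ → Matrix ι ι ℂ} {κ : IntermediateField ℚ Qbar}
    {s₀ c : κ} (hc : c ≠ 0) {n : ℤ} (hn : n ≠ 0) {δ : ℕ}
    (h : HasRelation U P (((s₀ : Qbar) : ℂ) + ((c : Qbar) : ℂ) / (n : ℂ)) κ δ) :
    HasRelationC {u : ℂ | u ≠ 0 ∧ ((s₀ : Qbar) : ℂ) + ((c : Qbar) : ℂ) / u ∈ U} (fun _ => 0)
      (fun u => P (((s₀ : Qbar) : ℂ) + ((c : Qbar) : ℂ) / u)) (n : ℂ) κ δ := by
  obtain ⟨r, hdeg, hZ, hnot⟩ := h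
  have hn' : (n : ℂ) ≠ 0 := Int.cast_ne_zero.2 hn
  have hc' : ((c : Qbar) : ℂ) ≠ 0 := by
    intro h0
    apply hc
    apply Subtype.ext
    apply Subtype.ext
    exact h0
  have hle : κ ≤ kapC κ (n : ℂ) 0 := le_sup_left
  have hev : ∀ M : Matrix ι ι ℂ, evK (kapC κ (n : ℂ) 0)
      (MvPolynomial.map (IntermediateField.inclusion hle).toRingHom r) M = evK κ r M := by
    intro M
    simp only [evK]
    rw [MvPolynomial.aeval_def, MvPolynomial.eval₂_map, MvPolynomial.aeval_def]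
    rfl
  refine ⟨MvPolynomial.map (IntermediateField.inclusion hle).toRingHom r,
    le_trans (Finset.sup_mono (MvPolynomial.support_map_subset _ _)) hdeg, fun M hM => ?_,
    fun hall => ?_⟩
  · rw [hev]
    exact hZ M hM
  · refine hnot fun M hM => ?_
    rw [← hev]
    refine hall M ⟨hM.1, fun q hq => ?_⟩
    obtain ⟨N, q', hq'⟩ := exists_subst (ι := ι) ((s₀ : Qbar) : ℂ) ((c : Qbar) : ℂ) (s₀ : Qbar)
      (c : Qbar) rfl rfl q
    have hX : ∀ t : ℂ, ev t (X - C (s₀ : Qbar)) = t - ((s₀ : Qbar) : ℂ) := by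
      intro t
      rw [map_sub]
      simp only [ev, AlgHom.toRingHom_eq_coe, RingHom.coe_coe, aeval_X, aeval_C]
      rfl
    have hev2 : ∀ (t : ℂ) (M : Matrix ι ι ℂ), evM (MvPolynomial.C (X - C (s₀ : Qbar)) * q') t M =
        (t - ((s₀ : Qbar) : ℂ)) * evM q' t M := by
      intro t M
      simp only [evM]
      rw [MvPolynomial.eval₂_mul, MvPolynomial.eval₂_C, hX]
    have key := hM.2 (MvPolynomial.C (X - C (s₀ : Qbar)) * q') (fun t ht => by
      rw [hev2]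
      by_cases hts : t = ((s₀ : Qbar) : ℂ)
      · rw [hts]; simp
      · have h4 : t - ((s₀ : Qbar) : ℂ) ≠ 0 := sub_ne_zero.2 hts
        have h5 : ((s₀ : Qbar) : ℂ) + ((c : Qbar) : ℂ) / (((c : Qbar) : ℂ) / (t - ((s₀ : Qbar) : ℂ)))
            = t := by
          rw [div_div_cancel₀ hc']; ring
        have h6 := hq (((c : Qbar) : ℂ) / (t - ((s₀ : Qbar) : ℂ))) ⟨div_ne_zero hc' h4, by
          rw [h5]; exact ht⟩
        simp only [h5] at h6
        rw [hq' t hts, h6]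
        ring)
    rw [hev2] at key
    have h7 : (((s₀ : Qbar) : ℂ) + ((c : Qbar) : ℂ) / (n : ℂ)) - ((s₀ : Qbar) : ℂ) =
      ((c : Qbar) : ℂ) / (n : ℂ) := by ring
    have h8 : ((c : Qbar) : ℂ) / (n : ℂ) ≠ 0 := div_ne_zero hc' hn'
    have h9 : (((s₀ : Qbar) : ℂ) + ((c : Qbar) : ℂ) / (n : ℂ)) ≠ ((s₀ : Qbar) : ℂ) := by
      intro h0
      rw [h0, sub_self] at h7
      exact h8 h7.symm
    rw [hq' _ h9, h7, div_div_cancel₀ hc'] at key
    rcases mul_eq_zero.1 key with h | h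
    · exact absurd h h8
    · rcases mul_eq_zero.1 h with h | h
      · exact absurd h (pow_ne_zero _ h8)
      · exact h

end

theorem few_of_large {E E' : Set ℤ} {n₀ : ℕ} (h : ∀ i ∈ E, (n₀ : ℝ) < |(i : ℝ)| → i ∈ E')
    (k : ∃ (B : ℕ) (θ C : ℝ), 0 < θ ∧ θ < 1 ∧
      (∀ n : ℕ, 1 ≤ n → Set.ncard {i : ℤ | (n : ℝ) ≤ |(i : ℝ)| ∧
        |(i : ℝ)| ≤ n + (n : ℝ) ^ θ ∧ i ∈ E'} ≤ B) ∧
      ∀ X : ℕ, 1 ≤ X → (Set.ncard {i : ℤ | |(i : ℝ)| ≤ X ∧ i ∈ E'} : ℝ) ≤
        C * (X : ℝ) ^ (1 - θ)) :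
    ∃ (B : ℕ) (θ C : ℝ), 0 < θ ∧ θ < 1 ∧
      (∀ n : ℕ, 1 ≤ n → Set.ncard {i : ℤ | (n : ℝ) ≤ |(i : ℝ)| ∧
        |(i : ℝ)| ≤ n + (n : ℝ) ^ θ ∧ i ∈ E} ≤ B) ∧
      ∀ X : ℕ, 1 ≤ X → (Set.ncard {i : ℤ | |(i : ℝ)| ≤ X ∧ i ∈ E} : ℝ) ≤
        C * (X : ℝ) ^ (1 - θ) := by
  obtain ⟨B, θ, C, h0, h1, hB, hC⟩ := k
  have hfin : ∀ x : ℝ, {i : ℤ | |(i : ℝ)| ≤ x}.Finite := by
    intro x
    refine (Set.finite_Icc (-⌈x⌉) ⌈x⌉).subset fun i hi => ?_
    have h2 : |(i : ℝ)| ≤ (⌈x⌉ : ℝ) := le_trans hi (Int.le_ceil x)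
    rw [abs_le] at h2
    exact ⟨by exact_mod_cast h2.1, by exact_mod_cast h2.2⟩
  set F : Set ℤ := {i : ℤ | |(i : ℝ)| ≤ (n₀ : ℝ)} with hF
  refine ⟨B + F.ncard, θ, C + F.ncard, h0, h1, fun n hn => ?_, fun X hX => ?_⟩
  · refine le_trans (Set.ncard_le_ncard (t := {i : ℤ | (n : ℝ) ≤ |(i : ℝ)| ∧
        |(i : ℝ)| ≤ n + (n : ℝ) ^ θ ∧ i ∈ E'} ∪ F) ?_ ?_) ?_
    · rintro i ⟨hi1, hi2, hi3⟩
      by_cases hi4 : |(i : ℝ)| ≤ (n₀ : ℝ)
      · exact Or.inr hi4
      · exact Or.inl ⟨hi1, hi2, h i hi3 (not_le.1 hi4)⟩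
    · exact ((hfin ((n : ℝ) + (n : ℝ) ^ θ)).subset fun i hi => hi.2.1).union (hfin _)
    · exact (Set.ncard_union_le _ _).trans (Nat.add_le_add_right (hB n hn) _)
  · have h2 : Set.ncard {i : ℤ | |(i : ℝ)| ≤ X ∧ i ∈ E} ≤
        Set.ncard {i : ℤ | |(i : ℝ)| ≤ X ∧ i ∈ E'} + F.ncard := by
      refine le_trans (Set.ncard_le_ncard (t := {i : ℤ | |(i : ℝ)| ≤ X ∧ i ∈ E'} ∪ F) ?_ ?_)
        (Set.ncard_union_le _ _)
      · rintro i ⟨hi2, hi3⟩
        by_cases hi4 : |(i : ℝ)| ≤ (n₀ : ℝ)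
        · exact Or.inr hi4
        · exact Or.inl ⟨hi2, h i hi3 (not_le.1 hi4)⟩
      · exact ((hfin (X : ℝ)).subset fun i hi => hi.1).union (hfin _)
    have h3 : (1 : ℝ) ≤ (X : ℝ) ^ (1 - θ) :=
      Real.one_le_rpow (by exact_mod_cast hX) (by linarith)
    have h4 : (Set.ncard {i : ℤ | |(i : ℝ)| ≤ X ∧ i ∈ E} : ℝ) ≤
        (Set.ncard {i : ℤ | |(i : ℝ)| ≤ X ∧ i ∈ E'} : ℝ) + F.ncard := by exact_mod_cast h2
    have h5 := hC X hX
    have h6 : (F.ncard : ℝ) ≤ F.ncard * (X : ℝ) ^ (1 - θ) :=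
      le_mul_of_one_le_right (Nat.cast_nonneg _) h3
    rw [add_mul]
    linarith

end Pool.Agent.Helper79.SE
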