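import Pool.Agent.Helper79.SE.MainB
import Pool.Agent.Helper79.SE.Stat
import Pool.Agent.Helper79.SE.Trans
import Pool.Agent.Helper79.GX.MainK

/-!
# SE: assembly, analytic part
-/

open Polynomial Pool.Agent.Helper64.Per Pool.Agent.Helper79.GX

namespace Pool.Agent.Helper79.SE

/-- The Picard-Fuchs system for the matrix of periods. -/
theorem isPeriod_ode {κ : IntermediateField ℚ Qbar} {a d : ℕ} (ha : 1 ≤ a)
    {f : Polynomial (Polynomial κ)} {U : Set ℂ} (hU : IsOpen U)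
    {P : ℂ → Matrix (Fin (d - 1) × Fin (a - 1)) (Fin (d - 1) × Fin (a - 1)) ℂ}
    (hP : IsPeriodSE a d f U P) {T₁ : Polynomial κ}
    {A : Fin (a - 1) → Matrix (Fin (d - 1)) (Fin (d - 1)) (Polynomial κ)}
    {g : Fin (a - 1) → Fin (d - 1) → Polynomial (Polynomial κ)}
    (star : ∀ (j : Fin (a - 1)) (i : Fin (d - 1)),
      (-(((j : ℕ) : ℚ) + 1) / a) • (C T₁ * (X ^ (i : ℕ) * dc (dt κ) f)) =
      f * (∑ l : Fin (d - 1), C (A j i l) * X ^ (l : ℕ) + derivative (g j i)) +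
        (-(((j : ℕ) : ℚ) + 1) / a) • (g j i * derivative f)) :
    (∀ p k, AnalyticOnNhd ℂ (fun t => P t p k) U) ∧
      ∀ t ∈ U, ∀ p k, aeval t T₁ * deriv (fun t => P t p k) t =
        ∑ l : Fin (d - 1), aeval t (A p.2 p.1 l) * P t (l, p.2) k := by
  have key : ∀ t₀ ∈ U, ∀ p k, DifferentiableAt ℂ (fun t => P t p k) t₀ ∧
      aeval t₀ T₁ * deriv (fun t => P t p k) t₀ =
        ∑ l : Fin (d - 1), aeval t₀ (A p.2 p.1 l) * P t₀ (l, p.2) k := by
    intro t₀ ht₀ p k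
    obtain ⟨V, hV, htV, γ, y, hL, hPV⟩ := hP t₀ ht₀
    have h1 := per_diff ha hV (hL k) (p.1 : ℕ) (p.2 : ℕ)
    have h2 : (fun t => P t p k) =ᶠ[nhds t₀] perSE (γ k) (y k) p.1 p.2 := by
      filter_upwards [hV.mem_nhds htV] with t ht
      exact hPV t ht p k
    refine ⟨((h1 t₀ htV).differentiableAt (hV.mem_nhds htV)).congr_of_eventuallyEq h2, ?_⟩
    rw [h2.deriv_eq, per_ode ha hV (hL k) rfl (star p.2) htV p.1]
    refine Finset.sum_congr rfl fun l _ => ?_
    rw [hPV t₀ htV (l, p.2) k]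
  refine ⟨fun p k => DifferentiableOn.analyticOnNhd
    (fun t ht => (key t ht p k).1.differentiableWithinAt) hU, fun t ht p k => (key t ht p k).2⟩

/-- The complement of a closed disc is preconnected. -/
theorem isPreconnected_large {ρ : ℝ} (hρ : 0 < ρ) : IsPreconnected {u : ℂ | ρ < ‖u‖} := by
  have h : {u : ℂ | ρ < ‖u‖} = Complex.exp '' {z : ℂ | Real.log ρ < z.re} := by
    ext u
    constructor
    · intro hu
      have hu0 : u ≠ 0 := by
        rintro rfl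
        simp only [Set.mem_ofPred_eq, norm_zero] at hu
        linarith
      refine ⟨Complex.log u, ?_, Complex.exp_log hu0⟩
      rw [Set.mem_ofPred_eq, Complex.log_re]
      exact Real.log_lt_log hρ hu
    · rintro ⟨z, hz, rfl⟩
      rw [Set.mem_ofPred_eq] at hz ⊢
      rw [Complex.norm_exp]
      exact (Real.log_lt_iff_lt_exp hρ).1 hz
  rw [h]
  exact ((convex_halfSpace_re_gt _).isPreconnected).image _ Complex.continuous_exp.continuousOn

theorem aeval_reflect {κ : IntermediateField ℚ Qbar} (p : Polynomial κ) {E : ℕ}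
    (h : p.natDegree ≤ E) {u : ℂ} (hu : u ≠ 0) :
    aeval u (p.reflect E) = u ^ E * aeval u⁻¹ p := by
  have : Invertible (u⁻¹) := invertibleOfNonzero (inv_ne_zero hu)
  have h1 := eval₂_reflect_mul_pow (algebraMap κ ℂ) (u⁻¹) E p h
  rw [invOf_eq_inv, inv_inv] at h1
  rw [aeval_def, aeval_def, ← h1, inv_pow]
  field_simp

theorem aeval_line {κ : IntermediateField ℚ Qbar} (p : Polynomial κ) (s₀ c : κ) (u : ℂ) :
    aeval u⁻¹ (p.comp (C s₀ + C c * X)) =
      aeval (((s₀ : Qbar) : ℂ) + ((c : Qbar) : ℂ) / u) p := by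
  rw [aeval_comp]
  congr 1
  rw [map_add, map_mul, aeval_X, aeval_C, aeval_C, div_eq_mul_inv]
  rfl

/-- The main theorem for superelliptic families. -/
theorem mainSE {κ : IntermediateField ℚ Qbar} [FiniteDimensional ℚ κ] {a d : ℕ} (ha : 2 ≤ a)
    (hd : 2 ≤ d) {f : Polynomial (Polynomial κ)} (hf : f.Monic) (hfd : f.natDegree = d)
    {s₀ c : κ} (hc : c ≠ 0) (hs : (f.map (Polynomial.evalRingHom s₀)).Separable)
    {U : Set ℂ} (hU : IsOpen U) (hU' : IsPreconnected U) (hs₀ : ((s₀ : Qbar) : ℂ) ∈ U)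
    {P : ℂ → Matrix (Fin (d - 1) × Fin (a - 1)) (Fin (d - 1) × Fin (a - 1)) ℂ}
    (hP : IsPeriodSE a d f U P) (hdet : ∀ t ∈ U, IsUnit (P t).det) (δ : ℕ) :
    ∃ (B : ℕ) (θ C : ℝ), 0 < θ ∧ θ < 1 ∧
      (∀ n : ℕ, 1 ≤ n → Set.ncard {i : ℤ | (n : ℝ) ≤ |(i : ℝ)| ∧
        |(i : ℝ)| ≤ n + (n : ℝ) ^ θ ∧ i ∈ {i : ℤ | i ≠ 0 ∧
          ((s₀ : Qbar) : ℂ) + ((c : Qbar) : ℂ) / (i : ℂ) ∈ U ∧
          HasRelation U P (((s₀ : Qbar) : ℂ) + ((c : Qbar) : ℂ) / (i : ℂ)) κ δ}} ≤ B) ∧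
      ∀ X : ℕ, 1 ≤ X → (Set.ncard {i : ℤ | |(i : ℝ)| ≤ X ∧ i ∈ {i : ℤ | i ≠ 0 ∧
          ((s₀ : Qbar) : ℂ) + ((c : Qbar) : ℂ) / (i : ℂ) ∈ U ∧
          HasRelation U P (((s₀ : Qbar) : ℂ) + ((c : Qbar) : ℂ) / (i : ℂ)) κ δ}} : ℝ) ≤
        C * (X : ℝ) ^ (1 - θ) := by
  have : Nonempty (Fin (d - 1) × Fin (a - 1)) := ⟨(⟨0, by omega⟩, ⟨0, by omega⟩)⟩
  obtain ⟨α, β, T₁, hT, hT0⟩ := exists_bezout hf hs
  have hν : ∀ j : Fin (a - 1), -1 < (-(((j : ℕ) : ℚ) + 1) / a) := by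
    intro j
    have haq : (0 : ℚ) < a := by
      have : 0 < a := by omega
      exact_mod_cast this
    rw [neg_div, neg_lt_neg_iff, div_lt_one haq]
    have : (j : ℕ) + 1 < a := by
      have := j.2
      omega
    exact_mod_cast this
  choose A g star using fun j : Fin (a - 1) =>
    exists_gm hf hfd (by omega : 1 ≤ d) (hν j) hT (dc (dt κ) f)
  obtain ⟨hPan, hPode⟩ := isPeriod_ode (by omega) hU hP star
  have : Algebra.IsAlgebraic ℚ κ := inferInstance
  obtain ⟨T, h, E, A', hG, hdeg, hE1, hTh, hE2, hA'⟩ :=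
    exists_sys (c := c) ha (by omega : 1 ≤ d) hf hfd hT hT0 star
  obtain ⟨r, hr, hball⟩ := Metric.isOpen_iff.1 hU _ hs₀
  set σ : ℂ := ((s₀ : Qbar) : ℂ) with hσ
  set ω : ℂ := ((c : Qbar) : ℂ) with hω
  have hω0 : ω ≠ 0 := by
    rw [hω]
    simpa using hc
  set U₁ : Set ℂ := {u : ℂ | u ≠ 0 ∧ σ + ω / u ∈ Metric.ball σ r} with hU₁
  have hρ : 0 < ‖ω‖ / r := by positivity
  have hU₁' : U₁ = {u : ℂ | ‖ω‖ / r < ‖u‖} := by
    ext u
    simp only [hU₁, Set.mem_ofPred_eq, Metric.mem_ball, dist_self_add_left, norm_div]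
    constructor
    · rintro ⟨h1, h2⟩
      have h3 : 0 < ‖u‖ := norm_pos_iff.2 h1
      rw [div_lt_iff₀ h3] at h2
      rw [div_lt_iff₀ hr, mul_comm]
      exact h2
    · intro h1
      have h3 : 0 < ‖u‖ := hρ.trans h1
      refine ⟨norm_pos_iff.1 h3, ?_⟩
      rw [div_lt_iff₀ h3, mul_comm]
      rwa [div_lt_iff₀ hr] at h1
  have hU₁o : IsOpen U₁ := by
    rw [hU₁']
    exact isOpen_lt continuous_const continuous_norm
  have hU₁c : IsPreconnected U₁ := by
    rw [hU₁']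
    exact isPreconnected_large hρ
  have hmem : ∀ u ∈ U₁, u ≠ 0 ∧ σ + ω / u ∈ U := fun u hu => ⟨hu.1, hball hu.2⟩
  have hd1 : ∀ u : ℂ, u ≠ 0 → HasDerivAt (fun u : ℂ => σ + ω / u) (-ω / u ^ 2) u := by
    intro u hu
    have h1 := ((hasDerivAt_inv hu).const_mul ω).const_add σ
    refine (h1.congr_deriv ?_).congr_of_eventuallyEq ?_
    · field_simp
    · filter_upwards with v
      rw [div_eq_mul_inv]
  set V : ℂ → Matrix (Fin 1 × (Fin (d - 1) × Fin (a - 1))) (Fin (d - 1) × Fin (a - 1)) ℂ :=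
    fun u p k => P (σ + ω / u) p.2 k with hV
  have hVan : ∀ b k, AnalyticOnNhd ℂ (fun u => V u b k) U₁ := by
    intro b k
    refine DifferentiableOn.analyticOnNhd (fun u hu => ?_) hU₁o
    have h1 := (hPan b.2 k _ (hmem u hu).2).differentiableAt
    exact (h1.comp u (hd1 u hu.1).differentiableAt).differentiableWithinAt
  have hTu : ∀ u : ℂ, u ≠ 0 → aeval u T = u ^ E * aeval (σ + ω / u) T₁ * aeval u h := by
    intro u hu
    have h1 : aeval u (T.map (Int.castRingHom κ)) = aeval u T := by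
      rw [aeval_def, aeval_def, eval₂_map]
      congr 1
    rw [← h1, hTh, map_mul, aeval_reflect _ hE1 hu, aeval_line]
  have hVode : ∀ u ∈ U₁, ∀ b k, aeval u T * deriv (fun u => V u b k) u =
      ∑ l, aeval u (A' b l) * V u l k := by
    intro u hu b k
    have h1 := (hPan b.2 k _ (hmem u hu).2).differentiableAt
    have h2 : deriv (fun u => V u b k) u = deriv (fun t => P t b.2 k) (σ + ω / u) *
        (-ω / u ^ 2) :=
      (HasDerivAt.comp (h₂ := fun t => P t b.2 k) u h1.hasDerivAt (hd1 u hu.1)).deriv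
    have h3 := hPode _ (hmem u hu).2 b.2 k
    have h4 : ∀ l : Fin (d - 1), aeval u ((-(C c * X ^ 2) *
        (A b.2.2 b.2.1 l).comp (C s₀ + C c * X)).reflect E) =
        u ^ E * (-ω / u ^ 2) * aeval (σ + ω / u) (A b.2.2 b.2.1 l) := by
      intro l
      rw [aeval_reflect _ (hE2 _ _ _) hu.1, map_mul, aeval_line, map_neg, map_mul, aeval_C,
        map_pow, aeval_X, mul_assoc]
      congr 2
      rw [inv_pow, ← div_eq_mul_inv, neg_div]
      rfl
    rw [h2, hTu u hu.1, Fintype.sum_prod_type, Finset.univ_unique, Finset.sum_singleton,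
      Fintype.sum_prod_type]
    have h5 : ∀ l : Fin (d - 1), ∑ j : Fin (a - 1), aeval u (A' b (default, (l, j))) *
        V u (default, (l, j)) k = u ^ E * (-ω / u ^ 2) * aeval (σ + ω / u) (A b.2.2 b.2.1 l) *
          aeval u h * P (σ + ω / u) (l, b.2.2) k := by
      intro l
      rw [Finset.sum_eq_single b.2.2]
      · rw [hA', if_pos rfl, map_mul, h4]
      · intro j _ hj
        rw [hA', if_neg (Ne.symm hj), map_zero, zero_mul]
      · intro h6
        exact absurd (Finset.mem_univ _) h6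
    rw [Finset.sum_congr rfl fun l _ => h5 l]
    have h7 : ∑ l : Fin (d - 1), u ^ E * (-ω / u ^ 2) * aeval (σ + ω / u) (A b.2.2 b.2.1 l) *
          aeval u h * P (σ + ω / u) (l, b.2.2) k = u ^ E * (-ω / u ^ 2) * aeval u h *
          ∑ l : Fin (d - 1), aeval (σ + ω / u) (A b.2.2 b.2.1 l) *
            P (σ + ω / u) (l, b.2.2) k := by
      rw [Finset.mul_sum]
      exact Finset.sum_congr rfl fun l _ => by ring
    rw [h7, ← h3]
    ring
  have hE2' : 2 ≤ T.natDegree := by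
    obtain ⟨b⟩ : Nonempty (Fin 1 × (Fin (d - 1) × Fin (a - 1))) := inferInstance
    have := hdeg b b
    omega
  have hlarge : ∀ t : ℝ, ‖ω‖ / r < |t| → (t : ℂ) ∈ U₁ := by
    intro t ht
    rw [hU₁', Set.mem_ofPred_eq, Complex.norm_real]
    exact ht
  have main := mainK (κ := κ) (m := 1) (T := T) (A := A') hG
    (fun i j => by have := hdeg i j; omega) (N := 0)
    (fun i j => by
      rw [Matrix.zero_apply, mul_zero, neg_zero]
      exact coeff_eq_zero_of_natDegree_lt (by have := hdeg i j; omega))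
    (fun z hz => ⟨0, by
      rw [Matrix.charpoly_zero, Polynomial.map_pow, map_X, IsRoot, eval_pow, eval_X] at hz
      rw [eq_zero_of_pow_eq_zero hz]
      simp⟩)
    hU₁o hU₁c (t₀ := ‖ω‖ / r) hlarge (w := fun _ => 0) analyticOnNhd_const (f := 0)
    (fun t _ => by simp) (V := V) hVan hVode (Z := 1) (by simp)
    (P := fun u => P (σ + ω / u))
    (fun t _ l a k => by
      rw [Fin.fin_one_eq_zero l, Fin.val_zero, pow_zero, one_mul,
        Finset.sum_eq_single ((0 : Fin 1), a)]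
      · rw [Matrix.one_apply_eq, map_one, one_mul]
      · intro b _ hb
        rw [Matrix.one_apply_ne (Ne.symm hb), map_zero, zero_mul]
      · intro h6
        exact absurd (Finset.mem_univ _) h6)
    (fun t ht => hdet _ (hmem t ht).2) δ
  refine few_of_large (E' := {i : ℤ | (i : ℂ) ∈ U₁ ∧ HasRelationC U₁ (fun _ => 0)
    (fun u => P (σ + ω / u)) (i : ℂ) κ δ}) (n₀ := ⌈‖ω‖ / r⌉₊) ?_ main
  rintro i ⟨hi0, hiU, hrel⟩ hi
  have h1 : ‖ω‖ / r < |(i : ℝ)| := (Nat.le_ceil _).trans_lt hi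
  have h2 : (i : ℂ) ∈ U₁ := by
    have := hlarge (i : ℝ) h1
    simpa using this
  refine ⟨h2, ?_⟩
  have h3 : HasRelation (Metric.ball σ r) P (σ + ω / (i : ℂ)) κ δ :=
    rel_restrict hU' Metric.isOpen_ball ⟨σ, Metric.mem_ball_self hr⟩ hball hPan hrel
  exact rel_moebius hc hi0 h3

end Pool.Agent.Helper79.SE
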