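import Pool.Agent.Helper79.SE.Tay

/-!
# SE-02: powers of power series with rational exponents

`W = G - 1` has zero constant term, so the coefficient of `h^n` of `W^k` vanishes for `k > n` and every truncation argument is finite. For a polynomial identity or a
derivation: modulo `h^(N+1)` the series `bpow ν G` is `∑_{k ≤ N} binom(ν, k) W^k`.

* `bpow_add`: Vandermonde `Ring.add_choose_eq`; `bpow_one`: `Ring.choose 1 k = 0` for `k ≥ 2`. `bpow_zero`.
* `bpow_dh`, `bpow_dX`: `(k+1) binom(ν, k+1) + k binom(ν, k) = ν binom(ν, k)`, so `(1 + W) ∑ k binom(ν, k) W^(k-1) = ν ∑ binom(ν, k) W^k`.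
* `bpow_linG`: a coefficient of `h^n` in `W^k`, `k ≤ n`, is a sum of products of `k` coefficients of index `n_i ≥ 1`, `∑ n_i = n`, so in `I(∑ c (n_i + 1)) ⊆ I(2 c n)`,
  degree at most `2 c n`. (Induction on `k` with the statement: coefficient `n` of `W^k` has degree at most `2 c n` and coefficients in `I(2 c n)`.)
-/

open Polynomial

namespace Pool.Agent.Helper79.SE

variable {R : Type} [CommRing R] [Algebra ℚ R]

section aux

variable {A : Type} [CommRing A]

private theorem bw_const {G : PowerSeries A} (h : PowerSeries.constantCoeff G = 1) :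
    PowerSeries.constantCoeff (G - 1) = 0 := by
  rw [map_sub, h, map_one, sub_self]

private theorem bw_zero {W : PowerSeries A} (hW : PowerSeries.constantCoeff W = 0) {n k : ℕ}
    (hk : n < k) (V : PowerSeries A) : PowerSeries.coeff n (W ^ k * V) = 0 := by
  have h1 : PowerSeries.X ^ k ∣ W ^ k * V :=
    (pow_dvd_pow_of_dvd (PowerSeries.X_dvd_iff.2 hW) k).mul_right V
  exact PowerSeries.X_pow_dvd_iff.1 h1 n hk

private theorem bw_zero' {W : PowerSeries A} (hW : PowerSeries.constantCoeff W = 0) {n k : ℕ}
    (hk : n < k) : PowerSeries.coeff n (W ^ k) = 0 := by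
  have h1 := bw_zero hW hk 1
  rwa [mul_one] at h1

variable [Algebra ℚ A]

private theorem bw_smul (q : ℚ) (F : PowerSeries A) (n : ℕ) :
    PowerSeries.coeff n (q • F) = q • PowerSeries.coeff n F := rfl

/-- the finite sums -/
private noncomputable def bN (ν : ℚ) (G : PowerSeries A) (N : ℕ) : PowerSeries A :=
  ∑ k ∈ Finset.range (N + 1), Ring.choose ν k • (G - 1) ^ k

private theorem bw_trunc (ν : ℚ) {G : PowerSeries A} (h : PowerSeries.constantCoeff G = 1)
    {n N : ℕ} (hn : n ≤ N) :
    PowerSeries.coeff n (bpow ν G) = PowerSeries.coeff n (bN ν G N) := by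
  unfold bpow bN
  rw [PowerSeries.coeff_mk, map_sum]
  refine Finset.sum_subset (Finset.range_subset_range.2 (by omega)) fun k _ hk => ?_
  rw [Finset.mem_range, not_lt] at hk
  rw [bw_zero' (bw_const h) (by omega), smul_zero]

private theorem bw_choose (ν : ℚ) (k : ℕ) :
    ((k : ℚ) + 1) * Ring.choose ν (k + 1) = Ring.choose ν k * (ν - k) := by
  have h1 := Ring.choose_smul_choose ν (Nat.le_succ k)
  rw [Nat.choose_succ_self_right, Nat.succ_eq_add_one, Nat.add_sub_cancel_left,
    Ring.choose_one_right, nsmul_eq_mul] at h1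
  push_cast at h1
  exact h1

private theorem bw_der (δ : PowerSeries A → PowerSeries A)
    (hadd : ∀ F G, δ (F + G) = δ F + δ G) (hmul : ∀ F G, δ (F * G) = δ F * G + F * δ G)
    (hloc : ∀ n F F', (∀ i ≤ n + 1, PowerSeries.coeff i F = PowerSeries.coeff i F') →
      PowerSeries.coeff n (δ F) = PowerSeries.coeff n (δ F'))
    (ν : ℚ) {G : PowerSeries A} (h : PowerSeries.constantCoeff G = 1) :
    G * δ (bpow ν G) = ν • (bpow ν G * δ G) := by
  let D : PowerSeries A →+ PowerSeries A := AddMonoidHom.mk' δ hadd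
  have hD : ∀ F, δ F = D F := fun _ => rfl
  have h1 : δ 1 = 0 := by
    have h2 := hmul 1 1
    rw [mul_one, one_mul, mul_one] at h2
    exact left_eq_add.1 h2
  have hW : δ (G - 1) = δ G := by
    rw [hD, map_sub, ← hD, ← hD, h1, sub_zero]
  have hpow : ∀ k : ℕ, δ ((G - 1) ^ (k + 1)) =
      ((k : PowerSeries A) + 1) * ((G - 1) ^ k * δ G) := by
    intro k
    induction k with
    | zero => rw [zero_add, pow_one, pow_zero, hW, Nat.cast_zero, zero_add, one_mul, one_mul]
    | succ k ih =>
      rw [pow_succ, hmul, ih, hW]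
      push_cast
      ring
  have hq : ∀ (q : ℚ) (F : PowerSeries A), δ (q • F) = q • δ F := fun q F => by
    rw [hD, hD, map_rat_smul]
  -- the finite sums
  have key : ∀ N : ℕ, G * δ (bN ν G N) = ν • (bN ν G N * δ G) +
      ((N : ℚ) - ν) • (Ring.choose ν N • ((G - 1) ^ N * δ G)) := by
    intro N
    induction N with
    | zero =>
      have h3 : bN ν G 0 = 1 := by
        unfold bN
        rw [zero_add, Finset.sum_range_one, pow_zero, Ring.choose_zero_right, one_smul]
      rw [h3, h1, mul_zero, Ring.choose_zero_right, one_smul, pow_zero, one_mul, ← add_smul]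
      push_cast
      rw [zero_sub, add_neg_cancel, zero_smul]
    | succ N ih =>
      have h3 : bN ν G (N + 1) = bN ν G N + Ring.choose ν (N + 1) • (G - 1) ^ (N + 1) := by
        unfold bN
        rw [Finset.sum_range_succ]
      rw [h3, hadd, hq, hpow, mul_add, ih]
      have h5 : ((N : PowerSeries A) + 1) *
          algebraMap ℚ (PowerSeries A) (Ring.choose ν (N + 1)) =
          algebraMap ℚ (PowerSeries A) (Ring.choose ν N) *
            (algebraMap ℚ (PowerSeries A) ν - (N : PowerSeries A)) := by
        have h6 := congrArg (algebraMap ℚ (PowerSeries A)) (bw_choose ν N)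
        rw [map_mul, map_add, map_one, map_mul, map_sub, map_natCast] at h6
        exact h6
      simp only [Algebra.smul_def, map_sub]
      push_cast
      linear_combination (G - 1) ^ N * δ G * h5
  ext n
  have hA : PowerSeries.coeff n (G * δ (bpow ν G)) =
      PowerSeries.coeff n (G * δ (bN ν G (n + 1))) := by
    rw [PowerSeries.coeff_mul, PowerSeries.coeff_mul]
    refine Finset.sum_congr rfl fun p hp => ?_
    rw [Finset.HasAntidiagonal.mem_antidiagonal] at hp
    congr 1
    refine hloc p.2 _ _ fun i hi => bw_trunc ν h (by omega)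
  have hB : PowerSeries.coeff n (bpow ν G * δ G) =
      PowerSeries.coeff n (bN ν G (n + 1) * δ G) := by
    rw [PowerSeries.coeff_mul, PowerSeries.coeff_mul]
    refine Finset.sum_congr rfl fun p hp => ?_
    rw [Finset.HasAntidiagonal.mem_antidiagonal] at hp
    rw [bw_trunc ν h (by omega : p.1 ≤ n + 1)]
  rw [hA, key, bw_smul, hB, map_add, bw_smul, bw_smul, bw_smul,
    bw_zero (bw_const h) (Nat.lt_succ_self n), smul_zero, smul_zero, add_zero]

private theorem bw_subst (ν : ℚ) {G : PowerSeries A} (h : PowerSeries.constantCoeff G = 1) :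
    bpow ν G = (PowerSeries.binomialSeries ℚ ν).subst (G - 1) := by
  have hs : PowerSeries.HasSubst (G - 1) := PowerSeries.HasSubst.of_constantCoeff_zero' (bw_const h)
  ext n
  rw [PowerSeries.coeff_subst' hs]
  unfold bpow
  rw [PowerSeries.coeff_mk, finsum_eq_sum_of_support_subset (s := Finset.range (n + 1))]
  · refine Finset.sum_congr rfl fun k _ => ?_
    rw [PowerSeries.binomialSeries_coeff, smul_eq_mul, mul_one]
  · intro k hk
    rw [Finset.coe_range, Set.mem_Iio]
    by_contra hk'
    exact hk (by
      show _ • _ = _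
      rw [bw_zero' (bw_const h) (by omega), smul_zero])

end aux

theorem bpow_const (ν : ℚ) {G : PowerSeries R} (h : PowerSeries.constantCoeff G = 1) :
    PowerSeries.constantCoeff (bpow ν G) = 1 := by
  have _ := h
  rw [← PowerSeries.coeff_zero_eq_constantCoeff_apply]
  unfold bpow
  rw [PowerSeries.coeff_mk, zero_add, Finset.sum_range_one, pow_zero, Ring.choose_zero_right,
    one_smul, PowerSeries.coeff_zero_one]

theorem bpow_zero (G : PowerSeries R) : bpow 0 G = 1 := by
  ext n
  unfold bpow
  rw [PowerSeries.coeff_mk, Finset.sum_eq_single 0]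
  · rw [pow_zero, Ring.choose_zero_right, one_smul]
  · intro k _ hk
    rw [Ring.choose_zero_pos ℚ (Nat.pos_of_ne_zero hk), zero_smul]
  · intro h
    exact absurd (Finset.mem_range.2 (Nat.succ_pos n)) h

theorem bpow_one {G : PowerSeries R} (h : PowerSeries.constantCoeff G = 1) : bpow 1 G = G := by
  have h2 : ∀ k : ℕ, 1 < k → Ring.choose (1 : ℚ) k = 0 := by
    intro k hk
    have h3 := Ring.choose_natCast (R := ℚ) 1 k
    rw [Nat.cast_one, Nat.choose_eq_zero_of_lt hk, Nat.cast_zero] at h3
    exact h3
  ext n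
  rw [bw_trunc 1 h (Nat.le_succ n)]
  have h4 : bN 1 G (n + 1) = G := by
    unfold bN
    have h5 : ∑ k ∈ Finset.range 2, Ring.choose (1 : ℚ) k • (G - 1) ^ k =
        ∑ k ∈ Finset.range (n + 1 + 1), Ring.choose (1 : ℚ) k • (G - 1) ^ k := by
      refine Finset.sum_subset (Finset.range_subset_range.2 (by omega)) fun k _ hk => ?_
      rw [Finset.mem_range, not_lt] at hk
      rw [h2 k (by omega), zero_smul]
    rw [← h5, Finset.sum_range_succ, Finset.sum_range_one, pow_zero, pow_one,
      Ring.choose_zero_right, Ring.choose_one_right, one_smul, one_smul]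
    ring
  rw [h4]

theorem bpow_add (ν ν' : ℚ) {G : PowerSeries R} (h : PowerSeries.constantCoeff G = 1) :
    bpow (ν + ν') G = bpow ν G * bpow ν' G := by
  rw [bw_subst _ h, bw_subst _ h, bw_subst _ h, PowerSeries.binomialSeries_add,
    PowerSeries.subst_mul (PowerSeries.HasSubst.of_constantCoeff_zero' (bw_const h))]

theorem bpow_dh (ν : ℚ) {G : PowerSeries R} (h : PowerSeries.constantCoeff G = 1) :
    G * PowerSeries.derivative R (bpow ν G) = ν • (bpow ν G * PowerSeries.derivative R G) := by
  refine bw_der (fun F => PowerSeries.derivative R F) (fun F G => map_add _ F G) (fun F G => ?_)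
    (fun n F F' hF => ?_) ν h
  · rw [Derivation.leibniz, smul_eq_mul, smul_eq_mul]
    ring
  · rw [PowerSeries.coeff_derivative, PowerSeries.coeff_derivative, hF (n + 1) le_rfl]

theorem bpow_dX (ν : ℚ) {G : PowerSeries R[X]} (h : PowerSeries.constantCoeff G = 1) :
    G * dX (bpow ν G) = ν • (bpow ν G * dX G) := by
  refine bw_der (fun F => dX F) dX_add dX_mul (fun n F F' hF => ?_) ν h
  unfold dX
  rw [PowerSeries.coeff_mk, PowerSeries.coeff_mk, hF n (Nat.le_succ n)]

private theorem bw_cq {D : Derivation ℚ R R} (S : Filt D) {q : ℚ} {k n : ℕ}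
    (hq : q • (1 : R) ∈ S.I k) {x : R} (hx : x ∈ S.I n) : q • x ∈ S.I (k + n) := by
  have h1 := S.mul hq hx
  rwa [smul_mul_assoc, one_mul] at h1

private theorem bw_linpow {D : Derivation ℚ R R} (S : Filt D) {c : ℕ} {G : PowerSeries R[X]}
    (h : PowerSeries.constantCoeff G = 1) (hG : LinG S c G) (k : ℕ) :
    ∀ n, (PowerSeries.coeff n ((G - 1) ^ k)).natDegree ≤ 2 * c * n ∧
      ∀ m, (PowerSeries.coeff n ((G - 1) ^ k)).coeff m ∈ S.I (2 * c * n) := by
  induction k with
  | zero =>
    intro n
    rw [pow_zero, PowerSeries.coeff_one]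
    split_ifs with hn
    · refine ⟨by rw [Polynomial.natDegree_one]; exact Nat.zero_le _, fun m => ?_⟩
      rw [Polynomial.coeff_one]
      split_ifs
      · exact S.mono (Nat.zero_le _) S.one
      · exact zero_mem _
    · refine ⟨by rw [Polynomial.natDegree_zero]; exact Nat.zero_le _, fun m => ?_⟩
      rw [Polynomial.coeff_zero]
      exact zero_mem _
  | succ k ih =>
    intro n
    rw [pow_succ, PowerSeries.coeff_mul]
    have hW : ∀ j, (PowerSeries.coeff j (G - 1)).natDegree ≤ 2 * c * j ∧
        ∀ m, (PowerSeries.coeff j (G - 1)).coeff m ∈ S.I (2 * c * j) := by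
      intro j
      rcases Nat.eq_zero_or_pos j with hj | hj
      · subst hj
        rw [PowerSeries.coeff_zero_eq_constantCoeff_apply, bw_const h]
        refine ⟨by rw [Polynomial.natDegree_zero]; exact Nat.zero_le _, fun m => ?_⟩
        rw [Polynomial.coeff_zero]
        exact zero_mem _
      · have h1 : PowerSeries.coeff j (G - 1) = PowerSeries.coeff j G := by
          rw [map_sub, PowerSeries.coeff_one, if_neg hj.ne', sub_zero]
        have h2 : c * (j + 1) ≤ 2 * c * j := by nlinarith
        rw [h1]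
        exact ⟨(hG j).1.trans h2, fun m => S.mono h2 ((hG j).2 m)⟩
    constructor
    · refine Polynomial.natDegree_sum_le_of_forall_le _ _ fun p hp => ?_
      rw [Finset.HasAntidiagonal.mem_antidiagonal] at hp
      refine Polynomial.natDegree_mul_le.trans ?_
      calc _ ≤ 2 * c * p.1 + 2 * c * p.2 := Nat.add_le_add (ih p.1).1 (hW p.2).1
        _ = 2 * c * n := by rw [← mul_add, hp]
    · intro m
      rw [Polynomial.finsetSum_coeff]
      refine (S.I _).sum_mem fun p hp => ?_
      rw [Finset.HasAntidiagonal.mem_antidiagonal] at hp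
      rw [Polynomial.coeff_mul]
      refine (S.I _).sum_mem fun a _ => ?_
      have h3 := S.mul ((ih p.1).2 a.1) ((hW p.2).2 a.2)
      rwa [← mul_add, hp] at h3

theorem bpow_linG {D : Derivation ℚ R R} (S : Filt D) {ν : ℚ}
    (hq : ∀ k, Ring.choose ν k • (1 : R) ∈ S.I k) {c : ℕ} {G : PowerSeries R[X]}
    (h : PowerSeries.constantCoeff G = 1) (hG : LinG S c G) :
    ∃ c' : ℕ, LinG S c' (bpow ν G) := by
  refine ⟨2 * c + 1, fun n => ?_⟩
  have hlin := bw_linpow S h hG
  unfold bpow
  rw [PowerSeries.coeff_mk]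
  constructor
  · refine Polynomial.natDegree_sum_le_of_forall_le _ _ fun k _ => ?_
    refine (Polynomial.natDegree_smul_le _ _).trans ((hlin k n).1.trans ?_)
    nlinarith
  · intro m
    rw [Polynomial.finsetSum_coeff]
    refine (S.I _).sum_mem fun k hk => ?_
    rw [Finset.mem_range] at hk
    rw [Polynomial.coeff_smul]
    refine S.mono ?_ (bw_cq S (hq k) ((hlin k n).2 m))
    nlinarith

/-- The version without the variable `x`. -/
theorem bpow_lin {D : Derivation ℚ R R} (S : Filt D) {ν : ℚ}
    (hq : ∀ k, Ring.choose ν k • (1 : R) ∈ S.I k) {c : ℕ} {G : PowerSeries R}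
    (h : PowerSeries.constantCoeff G = 1) (hG : ∀ n, PowerSeries.coeff n G ∈ S.I (c * (n + 1))) :
    ∃ c' : ℕ, ∀ n, PowerSeries.coeff n (bpow ν G) ∈ S.I (c' * (n + 1)) := by
  have hW : ∀ j, PowerSeries.coeff j (G - 1) ∈ S.I (2 * c * j) := by
    intro j
    rcases Nat.eq_zero_or_pos j with hj | hj
    · subst hj
      rw [PowerSeries.coeff_zero_eq_constantCoeff_apply, bw_const h]
      exact zero_mem _
    · have h1 : PowerSeries.coeff j (G - 1) = PowerSeries.coeff j G := by
        rw [map_sub, PowerSeries.coeff_one, if_neg hj.ne', sub_zero]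
      have h2 : c * (j + 1) ≤ 2 * c * j := by nlinarith
      rw [h1]
      exact S.mono h2 (hG j)
  have hlin : ∀ k n, PowerSeries.coeff n ((G - 1) ^ k) ∈ S.I (2 * c * n) := by
    intro k
    induction k with
    | zero =>
      intro n
      rw [pow_zero, PowerSeries.coeff_one]
      split_ifs
      · exact S.mono (Nat.zero_le _) S.one
      · exact zero_mem _
    | succ k ih =>
      intro n
      rw [pow_succ, PowerSeries.coeff_mul]
      refine (S.I _).sum_mem fun p hp => ?_
      rw [Finset.HasAntidiagonal.mem_antidiagonal] at hp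
      have h3 := S.mul (ih p.1) (hW p.2)
      rwa [← mul_add, hp] at h3
  refine ⟨2 * c + 1, fun n => ?_⟩
  unfold bpow
  rw [PowerSeries.coeff_mk]
  refine (S.I _).sum_mem fun k hk => ?_
  rw [Finset.mem_range] at hk
  refine S.mono ?_ (bw_cq S (hq k) (hlin k n))
  nlinarith

end Pool.Agent.Helper79.SE
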