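import Pool.Agent.Helper79.GX.KDefs

/-!
# SE: superelliptic families `y^a = f(x, t)`: definitions

`R` is a commutative `ℚ`-algebra with a derivation `D`; polynomials in `x` over `R`, power series in
`h` (the increment of the parameter) over `R` and `R[x]`.
-/

open Polynomial

namespace Pool.Agent.Helper79.SE

section

variable {R : Type} [CommRing R]

/-- The derivative of a power series in `h` with coefficients in `R[x]`, with respect to `x`. -/
noncomputable def dX (F : PowerSeries R[X]) : PowerSeries R[X] :=
  PowerSeries.mk fun n => derivative (PowerSeries.coeff n F)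

/-- A linear map on `R[x]`, applied to the coefficients of a power series. -/
noncomputable def clS {k : ℕ} (cl : R[X] →ₗ[R] (Fin k → R)) (F : PowerSeries R[X]) (i : Fin k) :
    PowerSeries R :=
  PowerSeries.mk fun n => cl (PowerSeries.coeff n F) i

variable [Algebra ℚ R]

/-- The exact forms: `d(q f^(1+ν)) = (q' f + (1+ν) q f') f^ν dx`. -/
noncomputable def ex (ν : ℚ) (f q : R[X]) : R[X] :=
  derivative q * f + (1 + ν) • (q * derivative f)

/-- The power `G^ν = ∑ binom(ν, k) (G - 1)^k` of a power series with constant term `1`. -/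
noncomputable def bpow (ν : ℚ) (G : PowerSeries R) : PowerSeries R :=
  PowerSeries.mk fun n => ∑ k ∈ Finset.range (n + 1),
    Ring.choose ν k • PowerSeries.coeff n ((G - 1) ^ k)

/-- The derivation `D`, applied to the coefficients of a polynomial. -/
noncomputable def dc (D : Derivation ℚ R R) (p : R[X]) : R[X] :=
  ∑ n ∈ p.support, monomial n (D (p.coeff n))

/-- The Taylor series `∑ D^n(x)/n! h^n`. -/
noncomputable def tay (D : Derivation ℚ R R) (x : R) : PowerSeries R :=
  PowerSeries.mk fun n => ((n.factorial : ℚ)⁻¹) • (D^[n] x)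

/-- A filtration of `R` (bounds for denominators). -/
structure Filt (D : Derivation ℚ R R) where
  /-- the steps -/
  I : ℕ → AddSubgroup R
  mono : Monotone I
  one : (1 : R) ∈ I 0
  mul : ∀ {m n : ℕ} {x y : R}, x ∈ I m → y ∈ I n → x * y ∈ I (m + n)
  hasse : ∀ {n : ℕ} {x : R} (k : ℕ), x ∈ I n →
    ((k.factorial : ℚ)⁻¹) • (D^[k] x) ∈ I (n + k)

/-- Linear growth of the degrees in `x` and of the denominators of the coefficients of a power
series in `h` over `R[x]`. -/
def LinG {D : Derivation ℚ R R} (S : Filt D) (c : ℕ) (F : PowerSeries R[X]) : Prop :=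
  ∀ n, (PowerSeries.coeff n F).natDegree ≤ c * (n + 1) ∧
    ∀ k, (PowerSeries.coeff n F).coeff k ∈ S.I (c * (n + 1))

end

end Pool.Agent.Helper79.SE
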