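import Pool.Agent.Helper79.SE.Tay

/-!
# SE-03: the Hensel type lift

Solve `f_h(x + U) = f(x) G` order by order (`f_h` = `f` with the coefficients replaced by their Taylor series): if `U`, `G` are known modulo `h^n` then the coefficient of `h^n` of
`f_h(x + U) - f G` is `f' u_n + K_n - f g_n`, where `K_n` only depends on `u_1, …, u_(n-1)`. Put `u_n = -β K_n`, `g_n = α K_n`; since `1 = α f + β f'` we get
`f' u_n + K_n - f g_n = K_n (1 - β f' - α f) = 0`.
Taylor expansion: `f_h(x + U) = ∑_{l,k} h^l U^k f^{[k],[l]}(x)`, where `f^{[k],[l]}` has the coefficients `binom(j, k) D^l(f_j)/l!` (at `x^(j-k)`), in `I(e + l)`.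
Bounds (suppose `e ≥ 1`, `d = natDegree f`, `m = natDegree α + natDegree β + d + 1`): by strong induction `u_n` (`n ≥ 1`) has coefficients in `I(5 e n - 2 e)` (add `e` generously, any linear
bound will do) and degree at most `4 m n - 2 m`: the terms of `K_n` are `f^{[k],[l]} (U^k)_{n-l}` with `k ≥ 2` or `l ≥ 1`, in `I(e + l + 5 e (n - l) - 2 e k)`, and the product with `β` adds
`e`; `2 e + l + 5 e (n - l) - 2 e k ≤ 5 e n - 2 e` in both cases (`k ≥ 2`, or `l ≥ 1`). The same for the degrees. `g_n = α K_n` similarly. (Any other proof of a linear bound is fine; for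
instance first construct the series by recursion, then bound; or prove existence of partial solutions with bounds by induction and pass to the limit by choosing `u_n`, `g_n` with
`Nat.rec` / strong recursion.)
-/

open Polynomial

namespace Pool.Agent.Helper79.SE

variable {R : Type} [CommRing R] [Algebra ℚ R]

section filtration

variable {D : Derivation ℚ R R} (S : Filt D)

/-- filtration of the polynomials by degree and denominators, indexed by the integers -/
private def MZ (s : ℤ) (p : R[X]) : Prop :=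
  p = 0 ∨ (0 ≤ s ∧ (p.natDegree : ℤ) ≤ s ∧ ∀ k, p.coeff k ∈ S.I s.toNat)

variable {S}

private theorem MZ.zero (s : ℤ) : MZ S s 0 := Or.inl rfl

private theorem MZ.mono {s t : ℤ} (h : s ≤ t) {p : R[X]} (hp : MZ S s p) : MZ S t p := by
  rcases hp with rfl | ⟨h0, h1, h2⟩
  · exact Or.inl rfl
  · exact Or.inr ⟨h0.trans h, h1.trans h, fun k => S.mono (Int.toNat_le_toNat h) (h2 k)⟩

private theorem MZ.add {s : ℤ} {p q : R[X]} (hp : MZ S s p) (hq : MZ S s q) :
    MZ S s (p + q) := by
  rcases hp with rfl | ⟨h0, h1, h2⟩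
  · rwa [zero_add]
  · rcases hq with rfl | ⟨h0', h1', h2'⟩
    · rw [add_zero]
      exact Or.inr ⟨h0, h1, h2⟩
    · refine Or.inr ⟨h0, ?_, fun k => ?_⟩
      · have := Polynomial.natDegree_add_le p q
        have h3 : ((p + q).natDegree : ℤ) ≤ max (p.natDegree : ℤ) q.natDegree := by
          exact_mod_cast this
        exact h3.trans (max_le h1 h1')
      · rw [Polynomial.coeff_add]
        exact (S.I _).add_mem (h2 k) (h2' k)

private theorem MZ.neg {s : ℤ} {p : R[X]} (hp : MZ S s p) : MZ S s (-p) := by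
  rcases hp with rfl | ⟨h0, h1, h2⟩
  · rw [neg_zero]
    exact Or.inl rfl
  · refine Or.inr ⟨h0, ?_, fun k => ?_⟩
    · rwa [Polynomial.natDegree_neg]
    · rw [Polynomial.coeff_neg]
      exact (S.I _).neg_mem (h2 k)

private theorem MZ.mul {s t : ℤ} {p q : R[X]} (hp : MZ S s p) (hq : MZ S t q) :
    MZ S (s + t) (p * q) := by
  rcases hp with rfl | ⟨h0, h1, h2⟩
  · rw [zero_mul]
    exact Or.inl rfl
  · rcases hq with rfl | ⟨h0', h1', h2'⟩
    · rw [mul_zero]
      exact Or.inl rfl
    · refine Or.inr ⟨add_nonneg h0 h0', ?_, fun k => ?_⟩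
      · have := Polynomial.natDegree_mul_le (p := p) (q := q)
        have h3 : ((p * q).natDegree : ℤ) ≤ p.natDegree + q.natDegree := by exact_mod_cast this
        linarith
      · rw [Polynomial.coeff_mul, Int.toNat_add h0 h0']
        exact (S.I _).sum_mem fun x _ => S.mul (h2 _) (h2' _)

private theorem MZ.sum {s : ℤ} {ι : Type} (T : Finset ι) (p : ι → R[X])
    (hp : ∀ i ∈ T, MZ S s (p i)) : MZ S s (∑ i ∈ T, p i) := by
  classical
  induction T using Finset.induction_on with
  | empty =>
    rw [Finset.sum_empty]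
    exact MZ.zero s
  | insert a T ha ih =>
    rw [Finset.sum_insert ha]
    exact (hp a (Finset.mem_insert_self a T)).add
      (ih fun i hi => hp i (Finset.mem_insert_of_mem hi))

private theorem MZ.natMul {s : ℤ} (m : ℕ) {p : R[X]} (hp : MZ S s p) : MZ S s ((m : R[X]) * p) := by
  induction m with
  | zero =>
    rw [Nat.cast_zero, zero_mul]
    exact MZ.zero s
  | succ m ih =>
    rw [Nat.cast_succ, add_mul, one_mul]
    exact ih.add hp

private theorem MZ.of_coeff {s : ℕ} {p : R[X]} {e : ℕ} (h1 : p.natDegree ≤ s) (he : e ≤ s)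
    (h2 : ∀ k, p.coeff k ∈ S.I e) : MZ S s p :=
  Or.inr ⟨by positivity, by exact_mod_cast h1, fun k => by
    rw [Int.toNat_natCast]
    exact S.mono he (h2 k)⟩

private theorem MZ.xpow (m : ℕ) : MZ S m ((X : R[X]) ^ m) := by
  refine MZ.of_coeff (e := 0) (Polynomial.natDegree_X_pow_le m) (Nat.zero_le _) fun k => ?_
  rw [Polynomial.coeff_X_pow]
  split_ifs
  · exact S.one
  · exact (S.I 0).zero_mem

variable (S) in
/-- power series whose coefficient of `h^n` is in step `A n + b` -/
private def BB (A b : ℤ) (F : PowerSeries R[X]) : Prop :=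
  ∀ n : ℕ, MZ S (A * n + b) (PowerSeries.coeff n F)

private theorem BB.mono {A b b' : ℤ} (h : b ≤ b') {F : PowerSeries R[X]} (hF : BB S A b F) :
    BB S A b' F := fun n => (hF n).mono (by linarith)

private theorem BB.add {A b : ℤ} {F G : PowerSeries R[X]} (hF : BB S A b F) (hG : BB S A b G) :
    BB S A b (F + G) := fun n => by
  rw [map_add]
  exact (hF n).add (hG n)

private theorem BB.mul {A b b' : ℤ} {F G : PowerSeries R[X]} (hF : BB S A b F)
    (hG : BB S A b' G) : BB S A (b + b') (F * G) := fun n => by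
  rw [PowerSeries.coeff_mul]
  refine MZ.sum _ _ fun x hx => ?_
  have h1 : x.1 + x.2 = n := Finset.HasAntidiagonal.mem_antidiagonal.1 hx
  refine ((hF x.1).mul (hG x.2)).mono (le_of_eq ?_)
  rw [← h1]
  push_cast
  ring

private theorem BB.one {A : ℤ} (hA : 0 ≤ A) : BB S A 0 1 := fun n => by
  rw [PowerSeries.coeff_one]
  split_ifs
  · have := MZ.xpow (S := S) 0
    rw [pow_zero] at this
    exact this.mono (by positivity)
  · exact MZ.zero _

private theorem BB.pow {A : ℤ} (hA : 0 ≤ A) {F : PowerSeries R[X]} (hF : BB S A 0 F) (k : ℕ) :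
    BB S A 0 (F ^ k) := by
  induction k with
  | zero =>
    rw [pow_zero]
    exact BB.one hA
  | succ k ih =>
    rw [pow_succ]
    simpa using ih.mul hF

private theorem BB.sum {A b : ℤ} {ι : Type} (T : Finset ι) (F : ι → PowerSeries R[X])
    (hF : ∀ i ∈ T, BB S A b (F i)) : BB S A b (∑ i ∈ T, F i) := fun n => by
  rw [map_sum]
  exact MZ.sum _ _ fun i hi => hF i hi n

private theorem BB.eval {A b : ℤ} (hA : 0 ≤ A) {V : PowerSeries R[X]} (hV : BB S A 0 V)
    {P : Polynomial (PowerSeries R[X])} (hP : ∀ k, BB S A b (P.coeff k)) :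
    BB S A b (P.eval V) := by
  rw [Polynomial.eval_eq_sum_range]
  refine BB.sum _ _ fun k _ => ?_
  have := (hP k).mul (hV.pow hA k)
  rwa [add_zero] at this

end filtration

/-- the Taylor expansion at `X` -/
private noncomputable def TP (D : Derivation ℚ R R) (f : R[X]) : Polynomial (PowerSeries R[X]) :=
  Polynomial.taylor (PowerSeries.C X) (f.map (tayX D))

private theorem evt_eq (D : Derivation ℚ R R) (W : PowerSeries R[X]) (f : R[X]) :
    evt D W f = (f.map (tayX D)).eval W := by
  rw [Polynomial.eval_map]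
  rfl

private theorem evt_TP (D : Derivation ℚ R R) (V : PowerSeries R[X]) (f : R[X]) :
    evt D (PowerSeries.C X + V) f = (TP D f).eval V := by
  rw [evt_eq, TP, Polynomial.taylor_eval, add_comm]

private theorem TP_split (D : Derivation ℚ R R) (V : PowerSeries R[X]) (f : R[X]) :
    evt D (PowerSeries.C X + V) f = (TP D f).coeff 0 + (TP D f).coeff 1 * V +
      ((TP D f).divX.divX.eval V) * (V * V) := by
  rw [evt_TP]
  conv_lhs => rw [← Polynomial.divX_mul_X_add (TP D f)]
  rw [Polynomial.eval_add, Polynomial.eval_mul, Polynomial.eval_X, Polynomial.eval_C]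
  conv_lhs => rw [← Polynomial.divX_mul_X_add (TP D f).divX]
  rw [Polynomial.eval_add, Polynomial.eval_mul, Polynomial.eval_X, Polynomial.eval_C,
    Polynomial.coeff_divX]
  ring

private theorem coeff_TP {D : Derivation ℚ R R} (S : Filt D) {f : R[X]} {e : ℕ}
    (hf : ∀ k, f.coeff k ∈ S.I e) (k l : ℕ) :
    MZ S (l + (e + f.natDegree : ℕ)) (PowerSeries.coeff l ((TP D f).coeff k)) := by
  unfold TP
  rw [Polynomial.taylor_coeff, Polynomial.hasseDeriv_apply, Polynomial.sum_def,
    Polynomial.eval_finsetSum, map_sum]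
  refine MZ.sum _ _ fun i hi => ?_
  have hi' : i ≤ f.natDegree :=
    (Polynomial.le_natDegree_of_mem_supp i hi).trans Polynomial.natDegree_map_le
  rw [Polynomial.eval_monomial, ← map_pow, PowerSeries.coeff_mul_C, Polynomial.coeff_map,
    ← nsmul_eq_mul, map_nsmul, nsmul_eq_mul, mul_assoc]
  refine MZ.natMul _ ?_
  have h1 : PowerSeries.coeff l (tayX D (f.coeff i)) =
      C (((l.factorial : ℚ)⁻¹) • (D^[l] (f.coeff i))) := by
    simp [tayX, tayHom, tay]
  rw [h1]
  have h2 : MZ S ((e + l : ℕ) : ℤ) (C (((l.factorial : ℚ)⁻¹) • (D^[l] (f.coeff i)))) := by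
    refine MZ.of_coeff (e := e + l) (by rw [Polynomial.natDegree_C]; exact Nat.zero_le _) le_rfl
      fun k => ?_
    rw [Polynomial.coeff_C]
    split_ifs
    · exact S.hasse l (hf i)
    · exact (S.I _).zero_mem
  refine (h2.mul (MZ.xpow (i - k))).mono ?_
  push_cast
  omega

/-- partial solutions -/
private noncomputable def VV (D : Derivation ℚ R R) (f β : R[X]) : ℕ → PowerSeries R[X]
  | 0 => 0
  | n + 1 => VV D f β n + PowerSeries.monomial (n + 1)
      (-(β * PowerSeries.coeff (n + 1) (evt D (PowerSeries.C X + VV D f β n) f)))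

private theorem VV_gt (D : Derivation ℚ R R) (f β : R[X]) (n k : ℕ) (h : n < k) :
    PowerSeries.coeff k (VV D f β n) = 0 := by
  induction n with
  | zero => rw [VV, map_zero]
  | succ n ih =>
    rw [VV, map_add, ih (by omega), PowerSeries.coeff_monomial, if_neg (by omega), add_zero]

private theorem VV_le (D : Derivation ℚ R R) (f β : R[X]) (k m : ℕ) :
    PowerSeries.coeff k (VV D f β (k + m)) = PowerSeries.coeff k (VV D f β k) := by
  induction m with
  | zero => rfl
  | succ m ih =>
    rw [← add_assoc, VV, map_add, PowerSeries.coeff_monomial, if_neg (by omega), add_zero, ih]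

private theorem K_bound {D : Derivation ℚ R R} (S : Filt D) {f : R[X]} {e : ℕ} {E : ℕ}
    (hE : e + f.natDegree ≤ E) (hf : ∀ k, f.coeff k ∈ S.I e) {n : ℕ} {V : PowerSeries R[X]}
    (hV : BB S (4 * E + 1) (-(2 * E)) V) (hVn : PowerSeries.coeff (n + 1) V = 0) :
    MZ S ((4 * E + 1) * (n + 1) - 3 * E)
      (PowerSeries.coeff (n + 1) (evt D (PowerSeries.C X + V) f)) := by
  have hE' : ((e + f.natDegree : ℕ) : ℤ) ≤ E := by exact_mod_cast hE
  have hE0 : (0 : ℤ) ≤ E := by positivity
  have hT : ∀ k l : ℕ, MZ S (l + E) (PowerSeries.coeff l ((TP D f).coeff k)) := fun k l =>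
    (coeff_TP S hf k l).mono (by linarith)
  have hTB : ∀ k, BB S (4 * E + 1) E ((TP D f).coeff k) := fun k l =>
    (hT k l).mono (by
      have : (0 : ℤ) ≤ l := by positivity
      nlinarith)
  rw [TP_split, map_add, map_add]
  have h1 : MZ S ((4 * E + 1) * (n + 1) - 3 * E) (PowerSeries.coeff (n + 1) ((TP D f).coeff 0)) :=
    (hT 0 (n + 1)).mono (by
      push_cast
      nlinarith)
  have h3 : MZ S ((4 * E + 1) * (n + 1) - 3 * E)
      (PowerSeries.coeff (n + 1) (((TP D f).divX.divX.eval V) * (V * V))) := by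
    have hQ : BB S (4 * E + 1) E ((TP D f).divX.divX.eval V) :=
      BB.eval (by positivity) (hV.mono (by linarith)) fun k => by
        rw [Polynomial.coeff_divX, Polynomial.coeff_divX]
        exact hTB _
    refine ((hQ.mul (hV.mul hV)) (n + 1)).mono ?_
    push_cast
    linarith
  have h2 : MZ S ((4 * E + 1) * (n + 1) - 3 * E)
      (PowerSeries.coeff (n + 1) ((TP D f).coeff 1 * V)) := by
    rw [PowerSeries.coeff_mul]
    refine MZ.sum _ _ fun x hx => ?_
    have hx1 : x.1 + x.2 = n + 1 := Finset.HasAntidiagonal.mem_antidiagonal.1 hx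
    by_cases hx0 : x.1 = 0
    · have hx2 : x.2 = n + 1 := by omega
      rw [hx2, hVn, mul_zero]
      exact MZ.zero _
    · refine ((hT 1 x.1).mul (hV x.2)).mono ?_
      have e1 : (x.1 : ℤ) + x.2 = n + 1 := by exact_mod_cast hx1
      have e2 : (1 : ℤ) ≤ x.1 := by
        have : 1 ≤ x.1 := Nat.one_le_iff_ne_zero.2 hx0
        exact_mod_cast this
      rw [← e1]
      nlinarith
  exact (h1.add h2).add h3

private theorem VV_bound {D : Derivation ℚ R R} (S : Filt D) {f β : R[X]} {e : ℕ} {E : ℕ}
    (hE : e + f.natDegree ≤ E) (hf : ∀ k, f.coeff k ∈ S.I e) (hβ : MZ S E β) (n : ℕ) :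
    BB S (4 * E + 1) (-(2 * E)) (VV D f β n) := by
  induction n with
  | zero =>
    intro k
    rw [VV, map_zero]
    exact MZ.zero _
  | succ n ih =>
    intro k
    rw [VV, map_add, PowerSeries.coeff_monomial]
    refine (ih k).add ?_
    split_ifs with hk
    · refine ((hβ.mul (K_bound S hE hf ih (VV_gt D f β n (n + 1) (Nat.lt_succ_self n)))).mono
        ?_).neg
      rw [hk]
      push_cast
      linarith
    · exact MZ.zero _

private theorem evt_congr (D : Derivation ℚ R R) (f : R[X]) {U V : PowerSeries R[X]} {n : ℕ}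
    (h : ∀ k ≤ n, PowerSeries.coeff k U = PowerSeries.coeff k V) :
    PowerSeries.coeff n (evt D (PowerSeries.C X + U) f) =
      PowerSeries.coeff n (evt D (PowerSeries.C X + V) f) := by
  have h1 : (PowerSeries.X : PowerSeries R[X]) ^ (n + 1) ∣ U - V := by
    rw [PowerSeries.X_pow_dvd_iff]
    intro m hm
    rw [map_sub, h m (by omega), sub_self]
  have h2 : U - V ∣ evt D (PowerSeries.C X + U) f - evt D (PowerSeries.C X + V) f := by
    rw [evt_eq, evt_eq]
    have := Polynomial.sub_dvd_eval_sub (PowerSeries.C X + U) (PowerSeries.C X + V)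
      (f.map (tayX D))
    rwa [add_sub_add_left_eq_sub] at this
  have h3 := PowerSeries.X_pow_dvd_iff.1 (h1.trans h2) n (Nat.lt_succ_self n)
  rw [map_sub, sub_eq_zero] at h3
  exact h3

private theorem evt_step (D : Derivation ℚ R R) (f : R[X]) {V : PowerSeries R[X]} {n : ℕ}
    (hn : 1 ≤ n) (hV : PowerSeries.constantCoeff V = 0) (c : R[X]) :
    PowerSeries.coeff n (evt D (PowerSeries.C X + (V + PowerSeries.monomial n c)) f) =
      PowerSeries.coeff n (evt D (PowerSeries.C X + V) f) + derivative f * c := by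
  have hm : PowerSeries.monomial n c = PowerSeries.C c * PowerSeries.X ^ n := by
    ext1 k
    rw [PowerSeries.coeff_monomial, PowerSeries.coeff_C_mul, PowerSeries.coeff_X_pow]
    split_ifs <;> simp
  obtain ⟨q, hq⟩ := (f.map (tayX D)).binomExpansion (PowerSeries.C X + V)
    (PowerSeries.monomial n c)
  rw [← add_assoc, evt_eq, hq, map_add, map_add, ← evt_eq]
  have h1 : PowerSeries.coeff n (q * (PowerSeries.monomial n c) ^ 2) = 0 := by
    have h2 : (PowerSeries.X : PowerSeries R[X]) ^ (n + 1) ∣ q * (PowerSeries.monomial n c) ^ 2 := by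
      rw [hm, mul_pow, ← pow_mul]
      refine Dvd.dvd.mul_left (Dvd.dvd.mul_left (pow_dvd_pow _ (by omega)) _) _
    exact PowerSeries.X_pow_dvd_iff.1 h2 n (Nat.lt_succ_self n)
  rw [h1, add_zero, Polynomial.derivative_map, ← evt_eq, hm, ← mul_assoc,
    PowerSeries.coeff_mul_X_pow', if_pos le_rfl, Nat.sub_self, PowerSeries.coeff_mul_C,
    PowerSeries.coeff_zero_eq_constantCoeff_apply, const_evt]
  rw [map_add, hV, add_zero, PowerSeries.constantCoeff_C]

theorem exists_lift {D : Derivation ℚ R R} (S : Filt D) {f α β : R[X]}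
    (h : α * f + β * derivative f = 1) {e : ℕ} (hf : ∀ k, f.coeff k ∈ S.I e)
    (hα : ∀ k, α.coeff k ∈ S.I e) (hβ : ∀ k, β.coeff k ∈ S.I e) :
    ∃ (U G : PowerSeries R[X]) (c : ℕ), PowerSeries.constantCoeff U = 0 ∧
      PowerSeries.constantCoeff G = 1 ∧
      evt D (PowerSeries.C X + U) f = PowerSeries.C f * G ∧ LinG S c U ∧ LinG S c G := by
  obtain ⟨E, hE⟩ : ∃ E : ℕ, E = e + f.natDegree + α.natDegree + β.natDegree := ⟨_, rfl⟩
  have hfE : e + f.natDegree ≤ E := by omega
  have hαE : MZ S E α := MZ.of_coeff (e := e) (by omega) (by omega) hα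
  have hβE : MZ S E β := MZ.of_coeff (e := e) (by omega) (by omega) hβ
  have hE0 : (0 : ℤ) ≤ E := by positivity
  set U : PowerSeries R[X] := PowerSeries.mk fun n => PowerSeries.coeff n (VV D f β n) with hU
  set K : ℕ → R[X] := fun n =>
    PowerSeries.coeff (n + 1) (evt D (PowerSeries.C X + VV D f β n) f) with hK
  set G : PowerSeries R[X] := PowerSeries.mk fun n =>
    match n with
    | 0 => 1
    | n + 1 => α * K n with hG
  have hUV : ∀ n k, k ≤ n → PowerSeries.coeff k U = PowerSeries.coeff k (VV D f β n) := by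
    intro n k hk
    obtain ⟨m, rfl⟩ := Nat.exists_eq_add_of_le hk
    rw [hU, PowerSeries.coeff_mk, VV_le]
  have hV0 : ∀ n, PowerSeries.constantCoeff (VV D f β n) = 0 := by
    intro n
    have := VV_le D f β 0 n
    rw [zero_add] at this
    rw [← PowerSeries.coeff_zero_eq_constantCoeff_apply, this, VV, map_zero]
  have hU0 : PowerSeries.constantCoeff U = 0 := by
    rw [← PowerSeries.coeff_zero_eq_constantCoeff_apply, hUV 0 0 le_rfl, VV, map_zero]
  have hUb : BB S (4 * E + 1) (-(2 * E)) U := by
    intro n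
    rw [hU, PowerSeries.coeff_mk]
    exact VV_bound S hfE hf hβE n n
  have hKb : ∀ n : ℕ, MZ S ((4 * E + 1) * (n + 1) - 3 * E) (K n) := fun n =>
    K_bound S hfE hf (VV_bound S hfE hf hβE n) (VV_gt D f β n (n + 1) (Nat.lt_succ_self n))
  have hlin : ∀ F : PowerSeries R[X], BB S (4 * E + 1) (4 * E + 1) F →
      LinG S (4 * E + 1) F := by
    intro F hF n
    rcases hF n with h0 | ⟨h0, h1, h2⟩
    · rw [h0]
      refine ⟨by rw [Polynomial.natDegree_zero]; exact Nat.zero_le _, fun k => ?_⟩
      rw [Polynomial.coeff_zero]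
      exact (S.I _).zero_mem
    · have e1 : ((4 * E + 1 : ℤ) * n + (4 * E + 1)) = (((4 * E + 1) * (n + 1) : ℕ) : ℤ) := by
        push_cast
        ring
      rw [e1] at h1 h2
      rw [Int.toNat_natCast] at h2
      exact ⟨by exact_mod_cast h1, h2⟩
  refine ⟨U, G, 4 * E + 1, hU0, ?_, ?_, hlin U (hUb.mono (by linarith)), hlin G ?_⟩
  · rw [← PowerSeries.coeff_zero_eq_constantCoeff_apply, hG, PowerSeries.coeff_mk]
  · ext1 n
    rw [PowerSeries.coeff_C_mul]
    cases n with
    | zero =>
      rw [PowerSeries.coeff_zero_eq_constantCoeff_apply, const_evt, hG, PowerSeries.coeff_mk,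
        mul_one]
      rw [map_add, hU0, add_zero, PowerSeries.constantCoeff_C]
    | succ n =>
      rw [evt_congr D f (V := VV D f β (n + 1)) fun k hk => hUV (n + 1) k hk, VV,
        evt_step D f (Nat.succ_le_succ (Nat.zero_le n)) (hV0 n), hG, PowerSeries.coeff_mk]
      change K n + derivative f * -(β * K n) = f * (α * K n)
      linear_combination (-(K n)) * h
  · intro n
    rw [hG, PowerSeries.coeff_mk]
    cases n with
    | zero =>
      have := MZ.xpow (S := S) 0
      rw [pow_zero] at this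
      refine this.mono ?_
      push_cast
      positivity
    | succ n =>
      refine (hαE.mul (hKb n)).mono ?_
      push_cast
      linarith

end Pool.Agent.Helper79.SE
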