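import Pool.Agent.Helper79.SE.MainA
import Pool.Agent.Helper79.SE.Bez

/-!
# SE: assembly, the system at infinity
-/

open Polynomial

namespace Pool.Agent.Helper79.SE

open Pool.Agent.Helper79.GX

section

variable {K : Type} [Field K] [CharZero K]

theorem natDegree_reflect_of_coeff_zero {p : K[X]} {E : ℕ} (h : p.natDegree ≤ E)
    (h0 : p.coeff 0 ≠ 0) : (p.reflect E).natDegree = E := by
  refine le_antisymm ((natDegree_reflect_le).trans (by simp [h])) (le_natDegree_of_ne_zero ?_)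
  rw [coeff_reflect, revAt_le le_rfl, Nat.sub_self]
  exact h0

theorem natDegree_reflect_add_two {p : K[X]} {E : ℕ} (h : p.natDegree ≤ E) (hE : 2 ≤ E)
    (h0 : p.coeff 0 = 0) (h1 : p.coeff 1 = 0) : (p.reflect E).natDegree + 2 ≤ E := by
  have : (p.reflect E).natDegree ≤ E - 2 := by
    rw [natDegree_le_iff_coeff_eq_zero]
    intro n hn
    rcases lt_or_ge E n with h2 | h2
    · exact coeff_eq_zero_of_natDegree_lt (lt_of_le_of_lt
        ((natDegree_reflect_le).trans (by simp [h])) h2)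
    · rw [coeff_reflect, revAt_le h2]
      have : E - n = 0 ∨ E - n = 1 := by omega
      rcases this with h3 | h3
      · rw [h3, h0]
      · rw [h3, h1]
  omega

theorem sum_block {J I R : Type} [Fintype I] [Fintype J] [DecidableEq J] [CommRing R]
    (F G : J → Matrix I I R) (p q : Fin 1 × I × J) :
    ∑ m : Fin 1 × I × J, (if p.2.2 = m.2.2 then F p.2.2 p.2.1 m.2.1 else 0) *
      (if m.2.2 = q.2.2 then G m.2.2 m.2.1 q.2.1 else 0) =
    if p.2.2 = q.2.2 then ∑ i, F p.2.2 p.2.1 i * G p.2.2 i q.2.1 else 0 := by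
  rw [Fintype.sum_prod_type, Finset.univ_unique, Finset.sum_singleton, Fintype.sum_prod_type]
  dsimp only
  split_ifs with h
  · refine Finset.sum_congr rfl fun i _ => ?_
    rw [Finset.sum_eq_single p.2.2]
    · rw [if_pos rfl, if_pos h]
    · intro j _ hj
      rw [if_neg (Ne.symm hj), zero_mul]
    · intro h1
      exact absurd (Finset.mem_univ _) h1
  · refine Finset.sum_eq_zero fun i _ => Finset.sum_eq_zero fun j _ => ?_
    by_cases h1 : p.2.2 = j
    · rw [if_neg (fun h2 => h (h1.trans h2)), mul_zero]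
    · rw [if_neg h1, zero_mul]

/-- The system in the variable `u`. -/
theorem exists_sys [Algebra.IsAlgebraic ℚ K] {a d : ℕ} (ha : 2 ≤ a) (hd1 : 1 ≤ d) {f : K[X][X]}
    (hf : f.Monic) (hd : f.natDegree = d) {s₀ c : K} {α β : K[X][X]} {T₁ : K[X]}
    (hT : α * f + β * derivative f = C T₁) (hT0 : T₁.eval s₀ ≠ 0)
    {A : Fin (a - 1) → Matrix (Fin (d - 1)) (Fin (d - 1)) K[X]}
    {g : Fin (a - 1) → Fin (d - 1) → K[X][X]}
    (star : ∀ (j : Fin (a - 1)) (i : Fin (d - 1)),
      (-(((j : ℕ) : ℚ) + 1) / a) • (C T₁ * (X ^ (i : ℕ) * dc (dt K) f)) =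
      f * (∑ l : Fin (d - 1), C (A j i l) * X ^ (l : ℕ) + derivative (g j i)) +
        (-(((j : ℕ) : ℚ) + 1) / a) • (g j i * derivative f)) :
    ∃ (T : ℤ[X]) (h : K[X]) (E : ℕ) (A' : Matrix (Fin 1 × (Fin (d - 1) × Fin (a - 1)))
      (Fin 1 × (Fin (d - 1) × Fin (a - 1))) K[X]),
      (∃ H : ℕ, GalF (T.map (Int.castRingHom K)) A' H) ∧
      (∀ i l, (A' i l).natDegree + 2 ≤ T.natDegree) ∧
      (T₁.comp (C s₀ + C c * X)).natDegree ≤ E ∧
      T.map (Int.castRingHom K) = (T₁.comp (C s₀ + C c * X)).reflect E * h ∧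
      (∀ j p q, (-(C c * X ^ 2) * (A j p q).comp (C s₀ + C c * X)).natDegree ≤ E) ∧
      ∀ p q, A' p q = if p.2.2 = q.2.2 then
        (-(C c * X ^ 2) * (A p.2.2 p.2.1 q.2.1).comp (C s₀ + C c * X)).reflect E * h else 0 := by
  obtain ⟨τ, B, hτ, hB0, hB1, hB2⟩ := exists_B ha hd1 hf hd (c := c) hT hT0 star
  set ℓ : K[X] := C s₀ + C c * X with hℓ
  set E : ℕ := (T₁.comp ℓ).natDegree + (∑ j, ∑ p, ∑ q,
    (-(C c * X ^ 2) * (A j p q).comp ℓ).natDegree) + 2 with hE
  have hE1 : (T₁.comp ℓ).natDegree ≤ E := by omega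
  have hE2 : ∀ j p q, (-(C c * X ^ 2) * (A j p q).comp ℓ).natDegree ≤ E := by
    intro j p q
    have h1 : (-(C c * X ^ 2) * (A j p q).comp ℓ).natDegree ≤
        ∑ q, (-(C c * X ^ 2) * (A j p q).comp ℓ).natDegree :=
      Finset.single_le_sum (f := fun q => (-(C c * X ^ 2) * (A j p q).comp ℓ).natDegree)
        (fun _ _ => Nat.zero_le _) (Finset.mem_univ q)
    have h2 : (∑ q, (-(C c * X ^ 2) * (A j p q).comp ℓ).natDegree) ≤
        ∑ p, ∑ q, (-(C c * X ^ 2) * (A j p q).comp ℓ).natDegree :=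
      Finset.single_le_sum (f := fun p => ∑ q, (-(C c * X ^ 2) * (A j p q).comp ℓ).natDegree)
        (fun _ _ => Nat.zero_le _) (Finset.mem_univ p)
    have h3 : (∑ p, ∑ q, (-(C c * X ^ 2) * (A j p q).comp ℓ).natDegree) ≤
        ∑ j, ∑ p, ∑ q, (-(C c * X ^ 2) * (A j p q).comp ℓ).natDegree :=
      Finset.single_le_sum
        (f := fun j => ∑ p, ∑ q, (-(C c * X ^ 2) * (A j p q).comp ℓ).natDegree)
        (fun _ _ => Nat.zero_le _) (Finset.mem_univ j)
    omega
  have hc0 : (T₁.comp ℓ).coeff 0 ≠ 0 := by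
    rw [coeff_zero_eq_eval_zero, eval_comp]
    simpa [hℓ] using hT0
  set Tu : K[X] := (T₁.comp ℓ).reflect E with hTu
  have hTud : Tu.natDegree = E := natDegree_reflect_of_coeff_zero hE1 hc0
  have hTu0 : Tu ≠ 0 := by
    intro h
    rw [h, natDegree_zero] at hTud
    omega
  obtain ⟨T, h, hTne, hh, hTh⟩ := exists_int_mul hTu0
  have hTd : T.natDegree = E + h.natDegree := by
    rw [← natDegree_map_eq_of_injective (f := Int.castRingHom K)
      (RingHom.injective_int (Int.castRingHom K)) T, hTh, natDegree_mul hTu0 hh, hTud]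
  set A' : Matrix (Fin 1 × (Fin (d - 1) × Fin (a - 1)))
      (Fin 1 × (Fin (d - 1) × Fin (a - 1))) K[X] := fun p q => if p.2.2 = q.2.2 then
        (-(C c * X ^ 2) * (A p.2.2 p.2.1 q.2.1).comp ℓ).reflect E * h else 0 with hA'
  have hA'd : ∀ i l, (A' i l).natDegree + 2 ≤ T.natDegree := by
    intro i l
    rw [hA']
    simp only
    split_ifs with h1
    · have h2 := natDegree_reflect_add_two (hE2 i.2.2 i.2.1 l.2.1) (by omega)
        (by
          rw [neg_mul, coeff_neg, mul_assoc, coeff_C_mul, coeff_X_pow_mul']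
          simp)
        (by
          rw [neg_mul, coeff_neg, mul_assoc, coeff_C_mul, coeff_X_pow_mul']
          simp)
      have h3 := natDegree_mul_le
        (p := (-(C c * X ^ 2) * (A i.2.2 i.2.1 l.2.1).comp ℓ).reflect E) (q := h)
      omega
    · rw [natDegree_zero]
      omega
  refine ⟨T, h, E, A', ?_, hA'd, hE1, hTh, hE2, fun p q => rfl⟩
  refine gal_of_B hTne (fun i l => by have := hA'd i l; omega)
    (a := fun p q => if p.2.2 = q.2.2 then ((-(C c * X ^ 2) : K[X]) : PowerSeries K) * τ *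
            phi s₀ c (A p.2.2 p.2.1 q.2.1) else 0)
    ?_ (B := fun n p q => if p.2.2 = q.2.2 then B n p.2.2 p.2.1 q.2.1 else 0) ?_ ?_ ?_
  · intro p q
    rw [hTd, hTh]
    have e2 : ((((T₁.comp ℓ) : K[X])) : PowerSeries K) * τ = 1 := hτ
    by_cases h1 : p.2.2 = q.2.2
    · have h2 : A' p q = (-(C c * X ^ 2) * (A p.2.2 p.2.1 q.2.1).comp ℓ).reflect E * h := by
        rw [hA']
        simp only
        rw [if_pos h1]
      rw [h2, reflect_mul _ _ ((natDegree_reflect_le).trans (max_le le_rfl (hE2 _ _ _))) le_rfl,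
        reflect_reflect, reflect_mul _ _ hTud.le le_rfl, hTu, reflect_reflect]
      rw [if_pos h1, phi_apply, Polynomial.coe_mul, Polynomial.coe_mul, Polynomial.coe_mul]
      linear_combination (-((((h.reflect h.natDegree : K[X])) : PowerSeries K) *
        (((-(C c * X ^ 2) : K[X]) : PowerSeries K)) *
        (((((A p.2.2 p.2.1 q.2.1).comp ℓ : K[X])) : PowerSeries K)))) * e2
    · have h2 : A' p q = 0 := by
        rw [hA']
        simp only
        rw [if_neg h1]
      rw [h2]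
      rw [if_neg h1, mul_zero, reflect_zero, Polynomial.coe_zero]
  · ext1 p q
    rw [Matrix.one_apply, hB0]
    by_cases h1 : p.2.2 = q.2.2
    · rw [if_pos h1, Matrix.one_apply]
      by_cases h2 : p.2.1 = q.2.1
      · rw [if_pos h2, if_pos (Prod.ext (Subsingleton.elim _ _) (Prod.ext h2 h1))]
      · rw [if_neg h2, if_neg fun h3 => h2 (by rw [h3])]
    · rw [if_neg h1, if_neg fun h3 => h1 (by rw [h3])]
  · intro n p q
    refine Eq.trans ?_ (congrArg (fun z => -(PowerSeries.X ^ 2 * PowerSeries.derivative K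
      (if p.2.2 = q.2.2 then B n p.2.2 p.2.1 q.2.1 else 0)) + z)
      (sum_block (fun j => B n j) (fun j i l => ((-(C c * X ^ 2) : K[X]) : PowerSeries K) * τ *
            phi s₀ c (A j i l)) p q).symm)
    by_cases h1 : p.2.2 = q.2.2
    · simp only [if_pos h1]
      exact hB1 n p.2.2 p.2.1 q.2.1
    · simp only [if_neg h1]
      rw [mul_zero, map_zero, mul_zero, neg_zero, add_zero]
  · obtain ⟨H, hH⟩ := hB2
    refine ⟨H, fun N => ?_⟩
    obtain ⟨q, h1, h2, h3⟩ := hH N
    refine ⟨q, h1, h2, fun n m hnm i l => ?_⟩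
    split_ifs with h4
    · exact h3 n m hnm _ _ _
    · rw [map_zero, mul_zero]
      exact isIntegral_zero

end

end Pool.Agent.Helper79.SE
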